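import Pool.Agent.Lib.MTX.Spec

/-!
# MTX.PhiL (MP_e46137_lc): elementary facts on the exponent
-/

namespace MTX

theorem lam_nonneg {n S : ℕ} (hS : 1 ≤ S) (h : S ≤ n) : 0 ≤ lam n S := by
  unfold lam
  apply Real.logb_nonneg (by norm_num)
  rw [le_div_iff₀ (by exact_mod_cast hS)]
  rw [one_mul]
  exact_mod_cast h

theorem lam_le {n S : ℕ} (hS : 1 ≤ S) (h : S ≤ n) : lam n S ≤ Real.logb 2 n := by
  unfold lam
  have hS' : (1 : ℝ) ≤ S := by exact_mod_cast hS
  have hn : (0 : ℝ) < n := by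
    have : (S : ℝ) ≤ n := by exact_mod_cast h
    linarith
  rw [Real.logb_div hn.ne' (by linarith)]
  have := Real.logb_nonneg (b := 2) (by norm_num) hS'
  linarith

theorem kap_nonneg {n S d : ℕ} (hS : 1 ≤ S) (h : S ≤ n) (hd : 1 ≤ d) : 0 ≤ kap n S d := by
  unfold kap
  refine le_min ?_ (lam_nonneg hS h)
  exact Real.logb_nonneg (by norm_num) (by exact_mod_cast hd)

theorem loglog_ge {n : ℕ} (hn : 4 ≤ n) : 1 ≤ Real.logb 2 (Real.logb 2 n) := by
  have h1 : (2 : ℝ) ≤ Real.logb 2 n := by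
    rw [Real.le_logb_iff_rpow_le (by norm_num) (by positivity)]
    have : (4 : ℝ) ≤ n := by exact_mod_cast hn
    norm_num
    linarith
  rw [Real.le_logb_iff_rpow_le (by norm_num) (by linarith)]
  rw [Real.rpow_one]
  exact h1

theorem err_nonneg {n S d : ℕ} (hn : 4 ≤ n) (hS : 1 ≤ S) (h : S ≤ n) (hd : 1 ≤ d) :
    0 ≤ err n S d := by
  unfold err
  have h1 := loglog_ge hn
  have h2 := kap_nonneg hS h hd
  have h3 : 0 ≤ Real.logb 2 (n : ℝ) :=
    Real.logb_nonneg (by norm_num) (by exact_mod_cast (by omega : 1 ≤ n))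
  have := mul_nonneg h2 (by linarith : (0 : ℝ) ≤ Real.logb 2 (Real.logb 2 n))
  linarith

/-- the exponent for reachability -/
theorem phi_self {n S : ℕ} (hS : 1 ≤ S) (h : S ≤ n) : phi n S n = lam n S ^ 2 / 2 := by
  unfold phi
  have : kap n S n = lam n S := min_eq_right (lam_le hS h)
  rw [this]
  ring

end MTX
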