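import Pool.Agent.Lib.MTX.UParA

/-!
# MTX.UParB (MP_e46137_lc): numerics of the upper bound (pure analysis)
-/

namespace MTX

namespace UParBAux

open Real

lemma logb_le_of_le_pow {x : ℝ} (hx : 0 < x) (k : ℕ) (h : x ≤ 2 ^ k) : Real.logb 2 x ≤ k := by
  have h2 : Real.logb 2 x ≤ Real.logb 2 ((2:ℝ) ^ k) := Real.logb_le_logb_of_le (by norm_num) hx h
  rw [Real.logb_pow, Real.logb_self_eq_one (by norm_num), mul_one] at h2
  exact h2

lemma clog_le {x : ℕ} (hx : 1 ≤ x) : (Nat.clog 2 x : ℝ) ≤ Real.logb 2 x + 1 := by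
  rcases Nat.lt_or_ge 1 x with h | h
  · have h1 : 2 ^ (Nat.clog 2 x - 1) < x := Nat.pow_pred_clog_lt_self (by norm_num) h
    have h2 : ((2:ℝ) ^ (Nat.clog 2 x - 1)) ≤ (x:ℝ) := by exact_mod_cast h1.le
    have h3 : Real.logb 2 ((2:ℝ) ^ (Nat.clog 2 x - 1)) ≤ Real.logb 2 x :=
      Real.logb_le_logb_of_le (by norm_num) (by positivity) h2
    rw [Real.logb_pow, Real.logb_self_eq_one (by norm_num), mul_one] at h3
    have h4 : 1 ≤ Nat.clog 2 x := Nat.clog_pos (by norm_num) h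
    rw [Nat.cast_sub h4] at h3
    push_cast at h3
    linarith
  · have h1 : x = 1 := le_antisymm h hx
    subst h1
    simp

lemma sq_logb_le {x : ℝ} (hx : 1 ≤ x) : Real.logb 2 x ^ 2 ≤ 9 * x := by
  have hx0 : 0 < x := by linarith
  have hs : 0 < Real.sqrt x := Real.sqrt_pos.2 hx0
  have h1 : Real.log x ≤ 2 * Real.sqrt x := by
    have e : Real.log x = 2 * Real.log (Real.sqrt x) := by
      rw [Real.log_sqrt hx0.le]; ring
    rw [e]
    have := Real.log_le_sub_one_of_pos hs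
    linarith
  have h0 : 0 ≤ Real.log x := Real.log_nonneg hx
  have h2 : Real.log x ^ 2 ≤ 4 * x := by
    have : Real.log x ^ 2 ≤ (2 * Real.sqrt x) ^ 2 := pow_le_pow_left₀ h0 h1 2
    rw [mul_pow, Real.sq_sqrt hx0.le] at this
    linarith
  have hl : 0.69 < Real.log 2 := by
    have := Real.log_two_gt_d9
    linarith
  have hl0 : 0 < Real.log 2 := by linarith
  unfold Real.logb
  rw [div_pow, div_le_iff₀ (by positivity)]
  have h3 : (0.69:ℝ) ^ 2 ≤ Real.log 2 ^ 2 := pow_le_pow_left₀ (by norm_num) hl.le 2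
  have h4 : 4 * x ≤ 9 * x * (0.69:ℝ) ^ 2 := by norm_num; linarith
  have h5 : 9 * x * (0.69:ℝ) ^ 2 ≤ 9 * x * Real.log 2 ^ 2 := mul_le_mul_of_nonneg_left h3 (by linarith)
  linarith

lemma logb_le_self {x : ℝ} (hx : 1 ≤ x) : Real.logb 2 x ≤ 2 * x := by
  have hx0 : 0 < x := by linarith
  have h1 := Real.log_le_sub_one_of_pos hx0
  have hl : 0.69 < Real.log 2 := by
    have := Real.log_two_gt_d9
    linarith
  unfold Real.logb
  rw [div_le_iff₀ (by linarith)]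
  nlinarith

/-- the sum of the positive parts -/
lemma sum_max {L : ℝ} (hL : 0 ≤ L) (J : ℕ) :
    ∑ j ∈ Finset.range J, max (L - j) 0 + max (L - J) 0 ≤
      L + (min (J:ℝ) L * L - min (J:ℝ) L ^ 2 / 2) := by
  induction J with
  | zero => simp [hL]
  | succ J ih =>
    rw [Finset.sum_range_succ]
    push_cast
    rcases le_or_gt L J with h | h
    · rw [min_eq_right h] at ih
      rw [min_eq_right (by linarith), max_eq_right (show L - ((J:ℝ) + 1) ≤ 0 by linarith)]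
      linarith
    · rw [min_eq_left h.le] at ih
      rcases le_or_gt L (J + 1) with h1 | h1
      · rw [min_eq_right h1, max_eq_right (show L - ((J:ℝ) + 1) ≤ 0 by linarith)]
        nlinarith [sq_nonneg (L - J)]
      · rw [min_eq_left h1.le, max_eq_left (show 0 ≤ L - ((J:ℝ) + 1) by linarith)]
        nlinarith

lemma sum_max2 {L k : ℝ} (hk : 0 ≤ k) (hkL : k ≤ L) (J : ℕ) :
    ∑ j ∈ Finset.range J, max (L - j) 0 ≤ L + (k * L - k ^ 2 / 2) + max ((J:ℝ) - k) 0 * (L - k) := by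
  have h1 := sum_max (hk.trans hkL) J
  have h2 : 0 ≤ max (L - (J:ℝ)) 0 := le_max_right _ _
  obtain ⟨t, ht⟩ : ∃ t, t = min (J:ℝ) L := ⟨_, rfl⟩
  rw [← ht] at h1
  have h3 : t - k ≤ max ((J:ℝ) - k) 0 := by
    have : t ≤ J := ht ▸ min_le_left _ _
    exact le_trans (by linarith) (le_max_left _ _)
  have h4 : (t - k) * (L - k) ≤ max ((J:ℝ) - k) 0 * (L - k) :=
    mul_le_mul_of_nonneg_right h3 (by linarith)
  have h5 : t * L - t ^ 2 / 2 ≤ k * L - k ^ 2 / 2 + (t - k) * (L - k) := by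
    nlinarith [sq_nonneg (t - k)]
  linarith

lemma lgn_le {n : ℕ} (hn : 4 ≤ n) : (lgn n : ℝ) ≤ 12 * Real.logb 2 n := by
  have h1 : (Nat.log 2 n : ℝ) ≤ Real.logb 2 n := by
    have h2 : 2 ^ Nat.log 2 n ≤ n := Nat.pow_log_le_self 2 (by omega)
    have h3 : ((2:ℝ) ^ Nat.log 2 n) ≤ (n:ℝ) := by exact_mod_cast h2
    have h4 := Real.logb_le_logb_of_le (b := 2) (by norm_num) (by positivity) h3
    rw [Real.logb_pow, Real.logb_self_eq_one (by norm_num), mul_one] at h4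
    exact h4
  have h5 : 2 ≤ Real.logb 2 n := by
    have h6 : ((2:ℝ) ^ 2) ≤ (n:ℝ) := by
      have : ((4:ℕ):ℝ) ≤ n := by exact_mod_cast hn
      norm_num at this ⊢
      exact this
    have h4 := Real.logb_le_logb_of_le (b := 2) (by norm_num) (by positivity) h6
    rw [Real.logb_pow, Real.logb_self_eq_one (by norm_num), mul_one] at h4
    exact_mod_cast h4
  unfold lgn
  push_cast
  linarith

lemma two_le_logb {n : ℕ} (hn : 4 ≤ n) : 2 ≤ Real.logb 2 n := by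
  have h6 : ((2:ℝ) ^ 2) ≤ (n:ℝ) := by
    have : ((4:ℕ):ℝ) ≤ n := by exact_mod_cast hn
    norm_num at this ⊢
    exact this
  have h4 := Real.logb_le_logb_of_le (b := 2) (by norm_num) (by positivity) h6
  rw [Real.logb_pow, Real.logb_self_eq_one (by norm_num), mul_one] at h4
  exact_mod_cast h4

lemma lgn_ge (n : ℕ) : 8 ≤ lgn n := by
  unfold lgn
  omega

lemma mm_eq {n S : ℕ} (h : 3 * (2 * lgn n + 3) + 1 ≤ S) :
    mm n S + 2 = (S - 1) / (2 * lgn n + 3) ∧ 1 ≤ mm n S := by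
  have h1 : 3 ≤ (S - 1) / (2 * lgn n + 3) := by
    rw [Nat.le_div_iff_mul_le (by omega)]
    omega
  unfold mm
  omega

lemma S_le {n S : ℕ} (h : 3 * (2 * lgn n + 3) + 1 ≤ S) :
    S ≤ (mm n S + 3) * (2 * lgn n + 3) := by
  obtain ⟨h1, h2⟩ := mm_eq h
  have h3 : S - 1 < (2 * lgn n + 3) * ((S - 1) / (2 * lgn n + 3) + 1) := Nat.lt_mul_div_succ _ (by omega)
  rw [← h1] at h3
  have h4 : (2 * lgn n + 3) * (mm n S + 2 + 1) = (mm n S + 3) * (2 * lgn n + 3) := by ring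
  omega

lemma mm_le {n S : ℕ} (h : 3 * (2 * lgn n + 3) + 1 ≤ S) : mm n S + 2 ≤ S := by
  obtain ⟨h1, h2⟩ := mm_eq h
  rw [h1]
  exact (Nat.div_le_self _ _).trans (by omega)

end UParBAux

open UParBAux in
/-- `m + 2 ≥ S / (c₁ log n)`, so `K = n / (m + 2)` has `Λ ≤ log K ≤ Λ + loglog n + c₂`;
`4 Q_j + 1 ≤ 21 lg ^ 2 max (K / 2 ^ j) 1`;
`∑_{j < J} max (log K - j) 0 ≤ κ' log K - κ' ^ 2 / 2 + log K`, `κ' = min J (log K)`;
`κ' ≤ κ + loglog n + c₃`; `κ' log K - κ' ^ 2 / 2 ≤ κ log K - κ ^ 2 / 2 + max (κ' - κ) 0 * (log K - κ)`,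
where either `κ' - κ ≤ 2` (`κ = log d`) or `log K - κ ≤ loglog n + c₂` (`κ = Λ`);
`(loglog n) ^ 2 ≤ c₄ log n`; `J log (21 lg ^ 2) ≤ (κ + 2 loglog n + c₅) (2 loglog n + c₆)`.  The factors
`(n + 1) ^ 2 + 1`, `m + 3`, `20 (m + 2) ^ 2` are at most `n ^ c₇`. -/
theorem upper_num : ∃ c : ℝ, 0 < c ∧ ∀ n S d T : ℕ, 4 ≤ n → S ≤ n → 2 ≤ d → d ≤ n →
    3 * (2 * lgn n + 3) + 1 ≤ S → 1 ≤ T →
    T ≤ ((n + 1) ^ 2 + 1) * (mm n S + 3) *
      (20 * (mm n S + 2) ^ 2 * (∏ j ∈ Finset.range (JJ n S d), (4 * QQ n S j + 1)) +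
        20 * (mm n S + 2)) →
    Real.logb 2 T ≤ phi n S d + c * err n S d := by
  refine ⟨2000, by norm_num, fun n S d T hn hSn hd hdn hS hT hTle => ?_⟩
  obtain ⟨ℓ, hℓ⟩ : ∃ ℓ, ℓ = Real.logb 2 n := ⟨_, rfl⟩
  obtain ⟨ll, hll⟩ : ∃ ll, ll = Real.logb 2 ℓ := ⟨_, rfl⟩
  obtain ⟨m, hm⟩ : ∃ m, m = mm n S := ⟨_, rfl⟩
  obtain ⟨lg, hlg⟩ : ∃ lg, lg = lgn n := ⟨_, rfl⟩
  obtain ⟨J, hJ⟩ : ∃ J, J = JJ n S d := ⟨_, rfl⟩
  obtain ⟨Λ, hΛ⟩ : ∃ Λ, Λ = lam n S := ⟨_, rfl⟩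
  obtain ⟨κ, hκ⟩ : ∃ κ, κ = kap n S d := ⟨_, rfl⟩
  have hℓ2 : 2 ≤ ℓ := hℓ ▸ two_le_logb hn
  have hℓ0 : 0 < ℓ := by linarith
  have hll1 : 1 ≤ ll := by
    have h4 := Real.logb_le_logb_of_le (b := 2) (by norm_num) (by norm_num) hℓ2
    rw [Real.logb_self_eq_one (by norm_num), ← hll] at h4
    exact h4
  have hllsq : ll ^ 2 ≤ 9 * ℓ := hll ▸ sq_logb_le (by linarith)
  have hllℓ : ll ≤ 2 * ℓ := hll ▸ logb_le_self (by linarith)
  have hlg12 : (lg : ℝ) ≤ 12 * ℓ := by rw [hlg, hℓ]; exact lgn_le hn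
  have hlg8 : (8:ℝ) ≤ lg := by rw [hlg]; exact_mod_cast lgn_ge n
  obtain ⟨hm2, hm1⟩ := mm_eq hS
  have hSle := S_le hS
  have hmS := mm_le hS
  rw [← hm] at hm2 hm1 hSle hmS hTle
  rw [← hlg] at hSle
  have hnpos : (0:ℝ) < n := by exact_mod_cast (by omega : 0 < n)
  have hn4 : (4:ℝ) ≤ n := by exact_mod_cast hn
  have hSpos : (0:ℝ) < S := by exact_mod_cast (by omega : 0 < S)
  have hm1r : (1:ℝ) ≤ m := by exact_mod_cast hm1
  have hmSr : (m:ℝ) + 2 ≤ S := by exact_mod_cast hmS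
  have hSnr : (S:ℝ) ≤ n := by exact_mod_cast hSn
  have hSler : (S:ℝ) ≤ ((m:ℝ) + 3) * (2 * lg + 3) := by exact_mod_cast hSle
  -- S ≤ 34 ℓ (m + 2)
  have hS34 : (S:ℝ) ≤ 34 * ℓ * ((m:ℝ) + 2) := by
    have h1 : (2:ℝ) * lg + 3 ≤ 25.5 * ℓ := by linarith
    have h2 : (m:ℝ) + 3 ≤ 4 / 3 * ((m:ℝ) + 2) := by linarith
    calc (S:ℝ) ≤ ((m:ℝ) + 3) * (2 * lg + 3) := hSler
      _ ≤ (4 / 3 * ((m:ℝ) + 2)) * (25.5 * ℓ) := by
          refine mul_le_mul h2 h1 (by linarith) (by linarith)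
      _ = 34 * ℓ * ((m:ℝ) + 2) := by ring
  obtain ⟨K, hK⟩ : ∃ K : ℝ, K = n / ((m:ℝ) + 2) := ⟨_, rfl⟩
  obtain ⟨L, hL⟩ : ∃ L : ℝ, L = Real.logb 2 K := ⟨_, rfl⟩
  have hm20 : (0:ℝ) < (m:ℝ) + 2 := by linarith
  have hKpos : 0 < K := hK ▸ div_pos hnpos hm20
  have hK1 : 1 ≤ K := by rw [hK, le_div_iff₀ hm20]; linarith
  have hKn : K ≤ n := by
    rw [hK, div_le_iff₀ hm20]
    nlinarith
  have hLℓ : L ≤ ℓ := by
    rw [hL, hℓ]
    exact Real.logb_le_logb_of_le (by norm_num) hKpos hKn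
  have hΛ' : Λ = Real.logb 2 ((n:ℝ) / S) := hΛ
  have hΛ0 : 0 ≤ Λ := by
    rw [hΛ']
    exact Real.logb_nonneg (by norm_num) (by rw [le_div_iff₀ hSpos]; linarith)
  have hΛL : Λ ≤ L := by
    rw [hΛ', hL, hK]
    exact Real.logb_le_logb_of_le (by norm_num) (by positivity) (div_le_div_of_nonneg_left hnpos.le hm20 hmSr)
  have hLΛ : L ≤ Λ + ll + 6 := by
    have h1 : K ≤ ((n:ℝ) / S) * (34 * ℓ) := by
      rw [hK, div_le_iff₀ hm20, div_mul_eq_mul_div, div_mul_eq_mul_div, le_div_iff₀ hSpos]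
      calc (n:ℝ) * S ≤ n * (34 * ℓ * ((m:ℝ) + 2)) := mul_le_mul_of_nonneg_left hS34 hnpos.le
        _ = n * (34 * ℓ) * ((m:ℝ) + 2) := by ring
    have h2 := Real.logb_le_logb_of_le (b := 2) (by norm_num) hKpos h1
    rw [Real.logb_mul (by positivity) (by positivity), Real.logb_mul (by norm_num) (by positivity), ← hL, ← hΛ', ← hll] at h2
    have h3 := logb_le_of_le_pow (x := 34) (by norm_num) 6 (by norm_num)
    push_cast at h3
    linarith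
  have hκ' : κ = min (Real.logb 2 d) Λ := by rw [hκ, hΛ]; rfl
  have hd2 : (2:ℝ) ≤ d := by exact_mod_cast hd
  have hlogd : 1 ≤ Real.logb 2 d := by
    have h4 := Real.logb_le_logb_of_le (b := 2) (by norm_num) (by norm_num) hd2
    rw [Real.logb_self_eq_one (by norm_num)] at h4
    exact h4
  have hκ0 : 0 ≤ κ := by rw [hκ']; exact le_min (by linarith) hΛ0
  have hκΛ : κ ≤ Λ := by rw [hκ']; exact min_le_right _ _
  have hκL : κ ≤ L := hκΛ.trans hΛL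
  -- J
  have hJd : (J:ℝ) ≤ Real.logb 2 d + 2 := by
    have h1 : J ≤ Nat.clog 2 d + 1 := by rw [hJ]; exact min_le_left _ _
    have h2 : (J:ℝ) ≤ (Nat.clog 2 d : ℝ) + 1 := by exact_mod_cast h1
    have h3 := clog_le (x := d) (by omega)
    linarith
  have hJL : (J:ℝ) ≤ L + ll + 9 := by
    have h1 : J ≤ Nat.clog 2 (4 * lg * n / m + 1) := by rw [hJ, hlg, hm]; exact min_le_right _ _
    have h2 : (J:ℝ) ≤ (Nat.clog 2 (4 * lg * n / m + 1) : ℝ) := by exact_mod_cast h1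
    have h3 := clog_le (x := 4 * lg * n / m + 1) (Nat.le_add_left _ _)
    have h4 : ((4 * lg * n / m + 1 : ℕ) : ℝ) ≤ 180 * ℓ * K := by
      have h5 : ((4 * lg * n / m : ℕ) : ℝ) ≤ (4 * lg * n : ℝ) / m := by
        have := @Nat.cast_div_le ℝ _ _ _ (4 * lg * n) m
        push_cast at this
        exact this
      have hm0 : (0:ℝ) < m := by linarith
      have h6 : (4 * lg * n : ℝ) / m + 1 ≤ 5 * lg * (n / m) := by
        have h7 : 1 ≤ lg * ((n:ℝ) / m) := by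
          have h8 : 1 ≤ (n:ℝ) / m := by rw [le_div_iff₀ hm0]; linarith
          nlinarith
        have h9 : (4 * lg * n : ℝ) / m = 4 * (lg * (n / m)) := by ring
        rw [h9]
        linarith
      have h7 : (n:ℝ) / m ≤ 3 * K := by
        rw [hK, div_le_iff₀ hm0, mul_comm (3:ℝ), mul_assoc, div_mul_eq_mul_div, le_div_iff₀ hm20]
        nlinarith
      push_cast
      calc ((4 * lg * n / m : ℕ) : ℝ) + 1 ≤ (4 * lg * n : ℝ) / m + 1 := by linarith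
        _ ≤ 5 * lg * (n / m) := h6
        _ ≤ 5 * (12 * ℓ) * (3 * K) := by
            refine mul_le_mul (by linarith) h7 (by positivity) (by positivity)
        _ = 180 * ℓ * K := by ring
    have h5 := Real.logb_le_logb_of_le (b := 2) (by norm_num) (by positivity) h4
    rw [Real.logb_mul (by positivity) (by positivity), Real.logb_mul (by norm_num) (by positivity), ← hL, ← hll] at h5
    have h6 := logb_le_of_le_pow (x := 180) (by norm_num) 8 (by norm_num)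
    push_cast at h6 h3 h5
    linarith
  have hJκ : (J:ℝ) ≤ κ + 2 * ll + 15 := by
    rw [hκ']
    rcases le_total (Real.logb 2 d) Λ with h | h
    · rw [min_eq_left h]; linarith
    · rw [min_eq_right h]; linarith
  -- the product
  have hprod : ((∏ j ∈ Finset.range J, (4 * QQ n S j + 1) : ℕ) : ℝ) ≤
      (2:ℝ) ^ (∑ j ∈ Finset.range J, ((12 + 2 * ll) + max (L - (j:ℝ)) 0)) := by
    rw [Real.rpow_sum_of_pos (by norm_num)]
    push_cast
    refine Finset.prod_le_prod (fun j _ => by positivity) fun j _ => ?_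
    obtain ⟨M, hM⟩ : ∃ M : ℝ, M = (2:ℝ) ^ (max (L - (j:ℝ)) 0) := ⟨_, rfl⟩
    have hM1 : 1 ≤ M := by rw [hM]; exact Real.one_le_rpow (by norm_num) (le_max_right _ _)
    have hMK : K / 2 ^ j ≤ M := by
      rw [hM]
      calc K / 2 ^ j = (2:ℝ) ^ (L - j) := by
            rw [Real.rpow_sub (by norm_num), Real.rpow_natCast, hL, Real.rpow_logb (by norm_num) (by norm_num) hKpos]
        _ ≤ (2:ℝ) ^ (max (L - (j:ℝ)) 0) := Real.rpow_le_rpow_of_exponent_le (by norm_num) (le_max_left _ _)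
    rw [Real.rpow_add (by norm_num), Real.rpow_add (by norm_num), ← hM, mul_comm (2:ℝ) ll, Real.rpow_mul (by norm_num), hll,
      Real.rpow_logb (by norm_num) (by norm_num) hℓ0]
    have hQ : ((QQ n S j : ℕ) : ℝ) ≤ 4 * lg ^ 2 * (K / 2 ^ j) + 1 := by
      unfold QQ
      rw [← hlg, ← hm]
      push_cast
      have := @Nat.cast_div_le ℝ _ _ _ (4 * lg ^ 2 * n) (2 ^ j * (m + 2))
      push_cast at this
      have e : (4 * (lg:ℝ) ^ 2 * n) / (2 ^ j * ((m:ℝ) + 2)) = 4 * lg ^ 2 * (K / 2 ^ j) := by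
        rw [hK]; field_simp
      rw [e] at this
      linarith
    have hlgsq : (lg:ℝ) ^ 2 ≤ 144 * ℓ ^ 2 := by nlinarith
    have hlg1 : 1 ≤ (lg:ℝ) ^ 2 := by nlinarith
    have h212 : (2:ℝ) ^ (12:ℝ) = 4096 := by norm_num
    have hℓsq : ℓ ^ (2:ℝ) = ℓ ^ 2 := by norm_num
    rw [h212, hℓsq]
    calc 4 * ((QQ n S j : ℕ) : ℝ) + 1 ≤ 16 * (lg:ℝ) ^ 2 * (K / 2 ^ j) + 5 := by linarith
      _ ≤ 16 * (lg:ℝ) ^ 2 * M + 5 * (lg:ℝ) ^ 2 * M := by
          have h1 : 16 * (lg:ℝ) ^ 2 * (K / 2 ^ j) ≤ 16 * (lg:ℝ) ^ 2 * M := mul_le_mul_of_nonneg_left hMK (by positivity)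
          have h2 : 1 ≤ (lg:ℝ) ^ 2 * M := by nlinarith
          linarith
      _ = 21 * (lg:ℝ) ^ 2 * M := by ring
      _ ≤ 21 * (144 * ℓ ^ 2) * M := by
          refine mul_le_mul_of_nonneg_right ?_ (by linarith)
          linarith
      _ ≤ 4096 * ℓ ^ 2 * M := by
          refine mul_le_mul_of_nonneg_right ?_ (by linarith)
          nlinarith [sq_nonneg ℓ]
  obtain ⟨Sg, hSg⟩ : ∃ Sg : ℝ, Sg = ∑ j ∈ Finset.range J, ((12 + 2 * ll) + max (L - (j:ℝ)) 0) := ⟨_, rfl⟩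
  rw [← hSg] at hprod
  have hSg0 : 0 ≤ Sg := by
    rw [hSg]
    exact Finset.sum_nonneg fun j _ => add_nonneg (by linarith) (le_max_right _ _)
  -- the bound of T
  have hTr : (T:ℝ) ≤ 320 * (n:ℝ) ^ 5 * (2:ℝ) ^ Sg := by
    rw [← hJ] at hTle
    have h1 : (T:ℝ) ≤ (((n:ℝ) + 1) ^ 2 + 1) * ((m:ℝ) + 3) *
        (20 * ((m:ℝ) + 2) ^ 2 * ((∏ j ∈ Finset.range J, (4 * QQ n S j + 1) : ℕ) : ℝ) + 20 * ((m:ℝ) + 2)) := by
      exact_mod_cast hTle
    obtain ⟨P, hP⟩ : ∃ P : ℝ, P = (2:ℝ) ^ Sg := ⟨_, rfl⟩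
    rw [← hP] at hprod ⊢
    have hP1 : 1 ≤ P := by rw [hP]; exact Real.one_le_rpow (by norm_num) hSg0
    have hmn : (m:ℝ) + 2 ≤ n := by linarith
    have h2 : 20 * ((m:ℝ) + 2) ^ 2 * ((∏ j ∈ Finset.range J, (4 * QQ n S j + 1) : ℕ) : ℝ) + 20 * ((m:ℝ) + 2) ≤
        40 * (n:ℝ) ^ 2 * P := by
      have h3 : ((m:ℝ) + 2) ^ 2 ≤ (n:ℝ) ^ 2 := pow_le_pow_left₀ (by linarith) hmn 2
      have h4 : 20 * ((m:ℝ) + 2) ^ 2 * ((∏ j ∈ Finset.range J, (4 * QQ n S j + 1) : ℕ) : ℝ) ≤ 20 * (n:ℝ) ^ 2 * P := by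
        refine mul_le_mul (by linarith) hprod (by positivity) (by positivity)
      have h5 : 20 * ((m:ℝ) + 2) ≤ 20 * (n:ℝ) ^ 2 * P := by
        have h6 : (m:ℝ) + 2 ≤ (n:ℝ) ^ 2 := by nlinarith
        have h7 : (n:ℝ) ^ 2 ≤ (n:ℝ) ^ 2 * P := le_mul_of_one_le_right (by positivity) hP1
        linarith
      linarith
    have h3 : ((n:ℝ) + 1) ^ 2 + 1 ≤ 4 * (n:ℝ) ^ 2 := by nlinarith
    have h4 : (m:ℝ) + 3 ≤ 2 * n := by linarith
    calc (T:ℝ) ≤ (((n:ℝ) + 1) ^ 2 + 1) * ((m:ℝ) + 3) *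
        (20 * ((m:ℝ) + 2) ^ 2 * ((∏ j ∈ Finset.range J, (4 * QQ n S j + 1) : ℕ) : ℝ) + 20 * ((m:ℝ) + 2)) := h1
      _ ≤ (4 * (n:ℝ) ^ 2) * (2 * n) * (40 * (n:ℝ) ^ 2 * P) := by
          refine mul_le_mul (mul_le_mul h3 h4 (by linarith) (by positivity)) h2 (by positivity) (by positivity)
      _ = 320 * (n:ℝ) ^ 5 * P := by ring
  have hTpos : (0:ℝ) < T := by exact_mod_cast hT
  have hlogT : Real.logb 2 T ≤ 9 + 5 * ℓ + Sg := by
    have h1 := Real.logb_le_logb_of_le (b := 2) (by norm_num) hTpos hTr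
    have h2p : (2:ℝ) ^ Sg ≠ 0 := (Real.rpow_pos_of_pos (by norm_num) _).ne'
    rw [Real.logb_mul (by positivity) h2p, Real.logb_mul (by norm_num) (by positivity), Real.logb_pow,
      Real.logb_rpow (by norm_num) (by norm_num), ← hℓ] at h1
    have h3 := logb_le_of_le_pow (x := 320) (by norm_num) 9 (by norm_num)
    push_cast at h1 h3
    linarith
  have hSgle : Sg ≤ (J:ℝ) * (12 + 2 * ll) + (L + (κ * L - κ ^ 2 / 2) + max ((J:ℝ) - κ) 0 * (L - κ)) := by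
    rw [hSg, Finset.sum_add_distrib, Finset.sum_const, Finset.card_range, nsmul_eq_mul]
    have := sum_max2 hκ0 hκL J
    linarith
  have hphi : phi n S d = κ * Λ - κ ^ 2 / 2 := by rw [hκ, hΛ]; rfl
  have herr : err n S d = ℓ + κ * ll := by rw [hκ, hll, hℓ]; rfl
  rw [hphi, herr]
  have hκll : 0 ≤ κ * ll := mul_nonneg hκ0 (by linarith)
  have hκκ : κ ≤ κ * ll := le_mul_of_one_le_right hκ0 hll1
  -- the four terms
  have t1 : (J:ℝ) * (12 + 2 * ll) ≤ 14 * (κ * ll) + 400 * ℓ := by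
    have h1 : (J:ℝ) * (12 + 2 * ll) ≤ (κ + 2 * ll + 15) * (12 + 2 * ll) :=
      mul_le_mul_of_nonneg_right hJκ (by linarith)
    have h2 : (κ + 2 * ll + 15) * (12 + 2 * ll) = 12 * κ + 2 * (κ * ll) + 4 * ll ^ 2 + 54 * ll + 180 := by ring
    linarith
  have t2 : κ * L ≤ κ * Λ + 7 * (κ * ll) := by
    have h1 : κ * L ≤ κ * (Λ + ll + 6) := mul_le_mul_of_nonneg_left hLΛ hκ0
    have h2 : κ * (Λ + ll + 6) = κ * Λ + κ * ll + 6 * κ := by ring
    linarith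
  have t3 : max ((J:ℝ) - κ) 0 * (L - κ) ≤ 200 * ℓ := by
    have hLκ : 0 ≤ L - κ := by linarith
    rcases le_total (Real.logb 2 d) Λ with h | h
    · have hκd : κ = Real.logb 2 d := by rw [hκ', min_eq_left h]
      have h1 : max ((J:ℝ) - κ) 0 ≤ 2 := max_le (by linarith) (by norm_num)
      have h2 : max ((J:ℝ) - κ) 0 * (L - κ) ≤ 2 * (L - κ) := mul_le_mul_of_nonneg_right h1 hLκ
      linarith
    · have hκd : κ = Λ := by rw [hκ', min_eq_right h]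
      have h1 : max ((J:ℝ) - κ) 0 ≤ 2 * ll + 15 := max_le (by linarith) (by linarith)
      have h3 : L - κ ≤ ll + 6 := by linarith
      have h2 : max ((J:ℝ) - κ) 0 * (L - κ) ≤ (2 * ll + 15) * (ll + 6) :=
        mul_le_mul h1 h3 hLκ (by linarith)
      have h4 : (2 * ll + 15) * (ll + 6) = 2 * ll ^ 2 + 27 * ll + 90 := by ring
      linarith
  linarith

end MTX
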