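import Pool.Agent.Lib.MTX.UExpl
import Pool.Agent.Lib.MTX.UParB

/-!
# MTX.Upper (MP_e46137_lc): the upper bound
-/

namespace MTX

open MTB

/-- `upper_explicit` with `lg = lgn n`, `m = mm n S`, `Q = QQ n S`, `J = JJ n S d`, and
`upper_num`. -/
theorem upper : ∃ c : ℝ, 0 < c ∧ ∀ (n S d : ℕ) (s t : Fin n), 4 ≤ n → S ≤ n → 2 ≤ d → d ≤ n →
    c * Real.logb 2 n ≤ S → ∃ S' ≤ S, ∃ (M : Mach n S') (out : Fin S') (T : ℕ),
      1 ≤ T ∧ M.Simple ∧ Decides M out T d s t ∧ Real.logb 2 T ≤ phi n S d + c * err n S d := by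
  obtain ⟨c₁, hc₁, hnum⟩ := upper_num
  refine ⟨c₁ + 77, by positivity, ?_⟩
  intro n S d s t hn hSn hd2 hdn hS
  have hn1 : 1 ≤ n := by omega
  have hnR : (4 : ℝ) ≤ n := by exact_mod_cast hn
  have hlog2 : (2 : ℝ) ≤ Real.logb 2 n := by
    rw [Real.le_logb_iff_rpow_le (by norm_num) (by linarith)]
    have : (2 : ℝ) ^ (2 : ℝ) = 4 := by
      rw [show (2 : ℝ) = ((2 : ℕ) : ℝ) by norm_num, Real.rpow_natCast]
      norm_num
    rw [this]
    exact hnR
  have hnl : ((Nat.log 2 n : ℕ) : ℝ) ≤ Real.logb 2 n := Real.natLog_le_logb n 2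
  have hSb : 3 * (2 * lgn n + 3) + 1 ≤ S := by
    have h1 : (77 : ℝ) * Real.logb 2 n ≤ S := by
      refine le_trans ?_ hS
      nlinarith
    have h2 : ((3 * (2 * lgn n + 3) + 1 : ℕ) : ℝ) ≤ S := by
      unfold lgn
      push_cast
      nlinarith
    exact_mod_cast h2
  have hm1 := mm_pos hSb
  obtain ⟨M, out, T, hT1, hT2, hM1, hM2⟩ :=
    upper_explicit (m := mm n S) (J := JJ n S d) (lg := lgn n) (d := d) (QQ n S) s t
      (by unfold lgn; omega) hm1 (fun j hj => hm_par hn1 hdn hj) (hd_par hn1 hdn hm1)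
  refine ⟨_, regs_le hn1 hdn hSb, M, out, T, hT1, hM1, hM2, ?_⟩
  have h3 := hnum n S d T hn hSn hd2 hdn hSb hT1 hT2
  refine h3.trans ?_
  have hSpos : (0 : ℝ) < S := by
    have : 0 < S := by omega
    exact_mod_cast this
  have hSnR : (S : ℝ) ≤ n := by exact_mod_cast hSn
  have hlam : 0 ≤ lam n S := by
    unfold lam
    refine Real.logb_nonneg (by norm_num) ?_
    rw [le_div_iff₀ hSpos]
    linarith
  have hd' : (0 : ℝ) ≤ Real.logb 2 d := by
    refine Real.logb_nonneg (by norm_num) ?_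
    have : 1 ≤ d := by omega
    exact_mod_cast this
  have hkap : 0 ≤ kap n S d := by
    unfold kap
    exact le_min hd' hlam
  have hll : 0 ≤ Real.logb 2 (Real.logb 2 n) :=
    Real.logb_nonneg (by norm_num) (by linarith)
  have herr : 0 ≤ err n S d := by
    unfold err
    have := mul_nonneg hkap hll
    linarith
  nlinarith

end MTX
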