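import Mathlib

/-!
# MTX.Model (MP_e46137_lc): the definitions of the final statement
-/

namespace SharpTS

open Classical Finset

/-- A monotone machine for digraphs on `Fin n` with `S` bits of memory (nonuniform).  In step `t`
with memory content `σ` it reads all arcs incident to the vertex `v t σ` and replaces the content of
the memory by `next t σ G`.  The maps `next t` are arbitrary, except that they are monotone in the
memory and in the digraph, and `next t σ G` depends only on the arcs of `G` incident to `v t σ`. -/
structure Mach (n S : ℕ) where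
  init : Fin S → Bool
  v : ℕ → (Fin S → Bool) → Fin n
  next : ℕ → (Fin S → Bool) → (Fin n → Fin n → Bool) → (Fin S → Bool)
  mono : ∀ t (σ σ' : Fin S → Bool) (G G' : Fin n → Fin n → Bool), σ ≤ σ' →
    (∀ u, G (v t σ) u ≤ G' (v t σ) u ∧ G u (v t σ) ≤ G' u (v t σ)) → next t σ G ≤ next t σ' G'

/-- the memory after `t` steps on the digraph `G` -/
def Mach.run {n S : ℕ} (M : Mach n S) (G : Fin n → Fin n → Bool) : ℕ → Fin S → Bool
  | 0 => M.init
  | t + 1 => M.next t (M.run G t) G

/-- `G` has a walk with exactly `l` arcs from `u` to `v` -/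
def HasWalk {V : Type} (G : V → V → Bool) : ℕ → V → V → Prop
  | 0, u, v => u = v
  | l + 1, u, v => ∃ w, HasWalk G l u w ∧ G w v = true

/-- `v` is reachable from `u` in the digraph `G` -/
def Reach {V : Type} (G : V → V → Bool) (u v : V) : Prop :=
  Relation.ReflTransGen (fun a b => G a b = true) u v

/-- After `T` steps the output bit is `true` on the digraphs with a walk of at most `l` arcs from
`s` to `t` and `false` on the digraphs in which `t` is not reachable from `s`. -/
def Decides {n S : ℕ} (M : Mach n S) (out : Fin S) (T l : ℕ) (s t : Fin n) : Prop :=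
  ∀ G : Fin n → Fin n → Bool,
    ((∃ l' ≤ l, HasWalk G l' s t) → M.run G T out = true) ∧
    (¬ Reach G s t → M.run G T out = false)

/-- A probabilistic machine (a finite probability space `Ω`, `p` of machines) does the same with
error at most `1 / 3`, and only on undirected graphs. -/
def DecidesP {n S : ℕ} {Ω : Type} [Fintype Ω] (p : Ω → ℝ) (M : Ω → Mach n S)
    (out : Ω → Fin S) (T l : ℕ) (s t : Fin n) : Prop :=
  ∀ G : Fin n → Fin n → Bool, (∀ a b, G a b = G b a) →
    ((∃ l' ≤ l, HasWalk G l' s t) →
      2 / 3 ≤ ∑ ω ∈ univ.filter (fun ω => (M ω).run G T (out ω) = true), p ω) ∧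
    (¬ Reach G s t →
      ∑ ω ∈ univ.filter (fun ω => (M ω).run G T (out ω) = true), p ω ≤ 1 / 3)

/-- A straight line program: in every step a constant, one input bit, the `and` or the `or` of two
memory bits is written to one memory bit (a monotone circuit of width `S`). -/
def Mach.Simple {n S : ℕ} (M : Mach n S) : Prop := ∀ t, ∃ i : Fin S,
  (∃ b, ∀ σ G, M.next t σ G = Function.update σ i b) ∨
  (∃ u v, ∀ σ G, M.next t σ G = Function.update σ i (G u v)) ∨
  (∃ j l, ∀ σ G, M.next t σ G = Function.update σ i (σ j && σ l)) ∨
  (∃ j l, ∀ σ G, M.next t σ G = Function.update σ i (σ j || σ l))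

/-- `log (n / S)` -/
noncomputable def lam (n S : ℕ) : ℝ := Real.logb 2 ((n : ℝ) / S)

/-- `min (log d) (log (n / S))` -/
noncomputable def kap (n S d : ℕ) : ℝ := min (Real.logb 2 d) (lam n S)

/-- the exponent `κ log (n / S) - κ ^ 2 / 2` -/
noncomputable def phi (n S d : ℕ) : ℝ := kap n S d * lam n S - kap n S d ^ 2 / 2

/-- the error `log n + κ log log n` -/
noncomputable def err (n S d : ℕ) : ℝ :=
  Real.logb 2 n + kap n S d * Real.logb 2 (Real.logb 2 n)

end SharpTS
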