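import Pool.Agent.Lib.MTX.Model

/-!
# MTX.ModelA (MP_e46137_lc): random paths and random cuts
-/

namespace SharpTS

/-- the vertices `s, P 0, …, P (r - 1), t` of the path through `P` -/
def pathVertex {n r : ℕ} (s t : Fin n) (P : Fin r → Fin n) : ℕ → Fin n
  | 0 => s
  | i + 1 => if h : i < r then P ⟨i, h⟩ else t

open Classical in
/-- the undirected path with the vertices `s, P 0, …, P (r - 1), t` -/
noncomputable def pathGraph {n r : ℕ} (s t : Fin n) (P : Fin r → Fin n) (u v : Fin n) : Bool :=
  decide (∃ q ≤ r, (u = pathVertex s t P q ∧ v = pathVertex s t P (q + 1)) ∨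
    (v = pathVertex s t P q ∧ u = pathVertex s t P (q + 1)))

/-- the graph consisting of two cliques, one on `C` and one on the complement of `C` -/
def cutGraph {n : ℕ} (C : Finset (Fin n)) (u v : Fin n) : Bool := decide (u ∈ C ↔ v ∈ C)

open Classical in
/-- the sequences of `r` distinct vertices different from `s` and `t` -/
noncomputable def seqs (n r : ℕ) (s t : Fin n) : Finset (Fin r → Fin n) :=
  Finset.univ.filter (fun P => Function.Injective P ∧ ∀ i, P i ≠ s ∧ P i ≠ t)

/-- the sets of vertices which contain `s` but not `t` -/
def cuts (n : ℕ) (s t : Fin n) : Finset (Finset (Fin n)) :=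
  Finset.univ.filter (fun C => s ∈ C ∧ t ∉ C)

/-- the probability that the bit `out` of the machine is `true` after `T` steps on a uniformly
random path with `d` edges from `s` to `t` -/
noncomputable def accPath {n S : ℕ} (M : Mach n S) (out : Fin S) (T d : ℕ) (s t : Fin n) : ℝ :=
  (((seqs n (d - 1) s t).filter (fun P => M.run (pathGraph s t P) T out = true)).card : ℝ) /
    (seqs n (d - 1) s t).card

/-- the probability that the bit `out` of the machine is `true` after `T` steps on the graph
consisting of two cliques which separate `s` from `t`, for a uniformly random cut -/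
noncomputable def accCut {n S : ℕ} (M : Mach n S) (out : Fin S) (T : ℕ) (s t : Fin n) : ℝ :=
  (((cuts n s t).filter (fun C => M.run (cutGraph C) T out = true)).card : ℝ) /
    (cuts n s t).card

open Classical in
/-- the probability that the output bit of a probabilistic machine (the machine `M ω` is used with
probability `p ω`) is `true` after `T` steps on `G` -/
noncomputable def accProb {n S : ℕ} {Ω : Type} [Fintype Ω] (p : Ω → ℝ) (M : Ω → Mach n S)
    (out : Ω → Fin S) (T : ℕ) (G : Fin n → Fin n → Bool) : ℝ :=
  ∑ ω ∈ Finset.univ.filter (fun ω => (M ω).run G T (out ω) = true), p ω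

/-- The probabilistic machine distinguishes with gap `δ` the undirected graphs with a walk of at most
`d` edges from `s` to `t` from the undirected graphs in which `t` is not reachable from `s`: the
acceptance probability on each of the former exceeds that on each of the latter by at least `δ`. -/
def GapP {n S : ℕ} {Ω : Type} [Fintype Ω] (p : Ω → ℝ) (M : Ω → Mach n S) (out : Ω → Fin S)
    (T d : ℕ) (s t : Fin n) (δ : ℝ) : Prop :=
  ∀ G G' : Fin n → Fin n → Bool, (∀ a b, G a b = G b a) → (∀ a b, G' a b = G' b a) →
    (∃ l ≤ d, HasWalk G l s t) → ¬ Reach G' s t →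
    accProb p M out T G' + δ ≤ accProb p M out T G

end SharpTS
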