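import Pool.Agent.Lib.MTX.Final
import Pool.Agent.Lib.MTX.ModelA
import Pool.Agent.Lib.MTZ.Final
import Pool.Agent.Lib.MTC.Gap

/-!
# MTX.FinalA (MP_e46137_lc): sharp time-space tradeoff, with the correlation bound
-/

namespace MTX

open SharpTS

namespace FinalAAux

/-- the two forms of adaptive machines -/
def toZ {n S : ℕ} (M : SharpTS.Mach n S) : MTZ.Mach n S where
  init := M.init
  v := M.v
  next := M.next
  mono := fun t σ σ' G G' h hG => M.mono t σ σ' G G' h fun u => ⟨hG _ _, hG _ _⟩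
  loc := fun t σ G G' h => le_antisymm
    (M.mono t σ σ G G' le_rfl fun u => ⟨(h u).1.le, (h u).2.le⟩)
    (M.mono t σ σ G' G le_rfl fun u => ⟨(h u).1.ge, (h u).2.ge⟩)

theorem toZ_run {n S : ℕ} (M : SharpTS.Mach n S) (G : Fin n → Fin n → Bool) (t : ℕ) :
    (toZ M).run G t = M.run G t := by
  induction t with
  | zero => rfl
  | succ t ih =>
    show M.next t ((toZ M).run G t) G = M.next t (M.run G t) G
    rw [ih]

theorem pathVertex_eq {n r : ℕ} (s t : Fin n) (P : Fin r → Fin n) (i : ℕ) :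
    pathVertex s t P i = MTS.walkVertex s t P i := by
  cases i with
  | zero => rfl
  | succ i => rfl

theorem pathGraph_eq {n r : ℕ} (s t : Fin n) (P : Fin r → Fin n) :
    pathGraph s t P = MTS.pathGraph s t P := by
  funext u v
  unfold pathGraph MTS.pathGraph
  simp only [pathVertex_eq]

theorem accPath_eq {n S : ℕ} (M : SharpTS.Mach n S) (out : Fin S) (T d : ℕ) (s t : Fin n) :
    accPath M out T d s t = MTC.accP (fun G => M.run G T out) (d - 1) s t := by
  unfold accPath MTC.accP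
  simp only [pathGraph_eq]
  rfl

theorem accCut_eq {n S : ℕ} (M : SharpTS.Mach n S) (out : Fin S) (T : ℕ) (s t : Fin n) :
    accCut M out T s t = MTC.accC (fun G => M.run G T out) s t := rfl

theorem phi_double {n S d : ℕ} (hn : 4 ≤ n) (hS : 1 ≤ S) (h2S : S + S ≤ n) (hd : 2 ≤ d) :
    MTX.phi n S d ≤ MTX.phi n (S + S) d + 1 + MTX.kap n S d ∧
      MTX.err n (S + S) d ≤ MTX.err n S d := by
  have hn0 : (4 : ℝ) ≤ n := by exact_mod_cast hn
  have hS0 : (1 : ℝ) ≤ S := by exact_mod_cast hS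
  have hD : (1 : ℝ) ≤ Real.logb 2 d := by
    have hd0 : (2 : ℝ) ≤ d := by exact_mod_cast hd
    rw [Real.le_logb_iff_rpow_le (by norm_num) (by linarith), Real.rpow_one]
    exact hd0
  have hlam : MTX.lam n (S + S) = MTX.lam n S - 1 := by
    show Real.logb 2 ((n : ℝ) / ((S + S : ℕ) : ℝ)) = Real.logb 2 ((n : ℝ) / S) - 1
    have e1 : ((n : ℝ) / ((S + S : ℕ) : ℝ)) = (n / S) / 2 := by
      push_cast
      field_simp
      ring
    rw [e1, Real.logb_div (by positivity) (by norm_num), Real.logb_self_eq_one (by norm_num)]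
  have hlam1 : 1 ≤ MTX.lam n S := by
    show 1 ≤ Real.logb 2 ((n : ℝ) / S)
    rw [Real.le_logb_iff_rpow_le (by norm_num) (by positivity), Real.rpow_one,
      le_div_iff₀ (by linarith)]
    have : ((S + S : ℕ) : ℝ) ≤ n := by exact_mod_cast h2S
    push_cast at this
    linarith
  constructor
  · have h3 := MTZ.FinalAux.phi_step hD hlam1
    show min (Real.logb 2 d) (MTX.lam n S) * MTX.lam n S -
        min (Real.logb 2 d) (MTX.lam n S) ^ 2 / 2 ≤
      (min (Real.logb 2 d) (MTX.lam n (S + S)) * MTX.lam n (S + S) -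
        min (Real.logb 2 d) (MTX.lam n (S + S)) ^ 2 / 2) + 1 + min (Real.logb 2 d) (MTX.lam n S)
    rw [hlam]
    exact h3
  · show Real.logb 2 n + min (Real.logb 2 d) (MTX.lam n (S + S)) * Real.logb 2 (Real.logb 2 n) ≤
      Real.logb 2 n + min (Real.logb 2 d) (MTX.lam n S) * Real.logb 2 (Real.logb 2 n)
    have h5 := MTX.loglog_ge hn
    rw [hlam]
    have h6 : min (Real.logb 2 d) (MTX.lam n S - 1) ≤ min (Real.logb 2 d) (MTX.lam n S) :=
      min_le_min le_rfl (by linarith)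
    have h7 := mul_le_mul_of_nonneg_right h6 (by linarith : (0 : ℝ) ≤ Real.logb 2 (Real.logb 2 n))
    linarith

/-- `Nat.log 2 n + 1 ≤ 2 logb 2 n` -/
theorem log_le {n : ℕ} (hn : 4 ≤ n) : ((Nat.log 2 n + 1 : ℕ) : ℝ) ≤ 2 * Real.logb 2 n := by
  have h1 : ((Nat.log 2 n : ℕ) : ℝ) ≤ Real.logb 2 n := by
    rw [Real.le_logb_iff_rpow_le (by norm_num) (by exact_mod_cast (by omega : 0 < n)),
      Real.rpow_natCast]
    exact_mod_cast Nat.pow_log_le_self 2 (by omega : n ≠ 0)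
  have h2 : (1 : ℝ) ≤ Real.logb 2 n := by
    rw [Real.le_logb_iff_rpow_le (by norm_num) (by exact_mod_cast (by omega : 0 < n)),
      Real.rpow_one]
    exact_mod_cast (by omega : 2 ≤ n)
  push_cast
  linarith

end FinalAAux

open FinalAAux

/-- **Correlation bound** for adaptive machines. -/
theorem adv : ∃ c : ℝ, 0 < c ∧ ∀ (n S d T : ℕ) (s t : Fin n), 4 ≤ n → 1 ≤ S → S ≤ n →
    2 ≤ d → d ≤ n → s ≠ t → c * Real.logb 2 n ^ 7 * S * d ≤ n →
    ∀ (M : SharpTS.Mach n S) (out : Fin S),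
      accPath M out T d s t - accCut M out T s t ≤
        T * (2 : ℝ) ^ (-(SharpTS.phi n S d - c * SharpTS.err n S d)) := by
  obtain ⟨c, hc, hL⟩ := MTC.adv_obl
  refine ⟨c + 10 ^ 12, by positivity, ?_⟩
  intro n S d T s t hn hS hSn hd hdn hst hC M out
  have hS0 : (1 : ℝ) ≤ S := by exact_mod_cast hS
  have hd0 : (2 : ℝ) ≤ d := by exact_mod_cast hd
  have hlog2 : (2 : ℝ) ≤ Real.logb 2 n := by
    rw [Real.le_logb_iff_rpow_le (by norm_num) (by exact_mod_cast (by omega : 0 < n))]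
    have : (4 : ℝ) ≤ n := by exact_mod_cast hn
    norm_num
    linarith
  have hl := log_le hn
  -- the condition
  have hC2 : 10 ^ 9 * (Nat.log 2 n + 1) ^ 7 * (S + S) * d ≤ n := by
    have h1 : (((Nat.log 2 n + 1 : ℕ) : ℝ)) ^ 7 ≤ (2 * Real.logb 2 n) ^ 7 :=
      pow_le_pow_left₀ (by positivity) hl 7
    have h2 : ((10 ^ 9 * (Nat.log 2 n + 1) ^ 7 * (S + S) * d : ℕ) : ℝ) ≤ (n : ℝ) := by
      refine le_trans ?_ hC
      calc ((10 ^ 9 * (Nat.log 2 n + 1) ^ 7 * (S + S) * d : ℕ) : ℝ)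
          = (2 * 10 ^ 9) * (((Nat.log 2 n + 1 : ℕ) : ℝ)) ^ 7 * S * d := by
            push_cast
            ring
        _ ≤ (2 * 10 ^ 9) * (2 * Real.logb 2 n) ^ 7 * S * d := by gcongr
        _ = (256 * 10 ^ 9) * Real.logb 2 n ^ 7 * S * d := by ring
        _ ≤ (c + 10 ^ 12) * Real.logb 2 n ^ 7 * S * d := by
            gcongr
            linarith
    exact_mod_cast h2
  have h2S : S + S ≤ n := by
    refine le_trans ?_ hC2
    have h1 : 1 ≤ 10 ^ 9 * (Nat.log 2 n + 1) ^ 7 := by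
      have : 1 ≤ (Nat.log 2 n + 1) ^ 7 := Nat.one_le_pow _ _ (by omega)
      omega
    calc S + S = 1 * (S + S) * 1 := by ring
      _ ≤ 10 ^ 9 * (Nat.log 2 n + 1) ^ 7 * (S + S) * d :=
        Nat.mul_le_mul (Nat.mul_le_mul_right _ h1) (by omega)
  obtain ⟨M', out', hsim⟩ := MTZ.exists_sim (toZ M) out
  have hrun : (fun G => M'.run G (T * (n + 1)) out') = fun G => M.run G T out := by
    funext G
    rw [hsim, toZ_run]
  have hmain := hL n (S + S) d (T * (n + 1)) s t hn (by omega) h2S hd hdn hst hC2 M' out'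
  rw [hrun] at hmain
  rw [accPath_eq, accCut_eq]
  refine hmain.trans ?_
  obtain ⟨h1, h2⟩ := phi_double hn hS h2S hd
  have h3 := MTZ.FinalAux.err_ge (d := d) hn hS hSn (by omega)
  have hκ0 : 0 ≤ MTZ.kap n S d := MTX.kap_nonneg hS hSn (by omega)
  have e1 : MTZ.kap n S d = MTX.kap n S d := rfl
  have e2 : MTZ.err n S d = MTX.err n S d := rfl
  have e3 : SharpTS.phi n S d = MTX.phi n S d := rfl
  have e4 : SharpTS.err n S d = MTX.err n S d := rfl
  rw [e1, e2] at h3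
  rw [e1] at hκ0
  rw [e3, e4]
  have hn1 : ((n : ℝ) + 1) ≤ (2 : ℝ) ^ (2 * Real.logb 2 n) := by
    have hnpos : (0 : ℝ) < n := by exact_mod_cast (by omega : 0 < n)
    have h4 : (2 : ℝ) ^ (2 * Real.logb 2 n) = (n : ℝ) ^ 2 := by
      rw [mul_comm, Real.rpow_mul (by norm_num), Real.rpow_logb (by norm_num) (by norm_num) hnpos]
      norm_num
    rw [h4]
    have : (4 : ℝ) ≤ n := by exact_mod_cast hn
    nlinarith
  have h5 : c * MTX.err n (S + S) d ≤ c * MTX.err n S d := mul_le_mul_of_nonneg_left h2 hc.le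
  have hexp : 2 * Real.logb 2 n + -(MTX.phi n (S + S) d - c * MTX.err n (S + S) d) ≤
      -(MTX.phi n S d - (c + 10 ^ 12) * MTX.err n S d) := by nlinarith
  calc ((T * (n + 1) : ℕ) : ℝ) * (2 : ℝ) ^ (-(MTX.phi n (S + S) d - c * MTX.err n (S + S) d))
      = T * (((n : ℝ) + 1) * (2 : ℝ) ^ (-(MTX.phi n (S + S) d - c * MTX.err n (S + S) d))) := by
        push_cast
        ring
    _ ≤ T * ((2 : ℝ) ^ (2 * Real.logb 2 n) *
          (2 : ℝ) ^ (-(MTX.phi n (S + S) d - c * MTX.err n (S + S) d))) := by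
        gcongr
    _ = T * (2 : ℝ) ^ (2 * Real.logb 2 n +
          -(MTX.phi n (S + S) d - c * MTX.err n (S + S) d)) := by
        rw [Real.rpow_add (by norm_num)]
    _ ≤ T * (2 : ℝ) ^ (-(MTX.phi n S d - (c + 10 ^ 12) * MTX.err n S d)) := by
        apply mul_le_mul_of_nonneg_left _ (Nat.cast_nonneg _)
        exact Real.rpow_le_rpow_of_exponent_le (by norm_num) hexp

theorem gap_toGap {n S : ℕ} {Ω : Type} [Fintype Ω] {p : Ω → ℝ} {M : Ω → SharpTS.Mach n S}
    {out : Ω → Fin S} {T d : ℕ} {s t : Fin n} {δ : ℝ} (h : GapP p M out T d s t δ) :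
    MTC.Gap p (fun ω G => (M ω).run G T (out ω)) d s t δ := by
  intro G G' hG hG' hw hr
  obtain ⟨l, hl, hw⟩ := hw
  exact h G G' hG hG' ⟨l, hl, (MTX.FinalAux.hasWalk_eq G l s t).2 hw⟩ hr

/-- **Lower bound** for probabilistic adaptive machines with gap `δ`. -/
theorem gap : ∃ c : ℝ, 0 < c ∧ ∀ (n S d T : ℕ) (s t : Fin n), 4 ≤ n → 1 ≤ S → S ≤ n →
    2 ≤ d → d ≤ n → s ≠ t →
    ∀ (Ω : Type) [Fintype Ω] (p : Ω → ℝ), (∀ ω, 0 ≤ p ω) → ∑ ω, p ω = 1 →
    ∀ (M : Ω → SharpTS.Mach n S) (out : Ω → Fin S) (δ : ℝ), 0 < δ → GapP p M out T d s t δ →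
      SharpTS.phi n S d - c * SharpTS.err n S d ≤ Real.logb 2 (T / δ) := by
  obtain ⟨c, hc, hL⟩ := MTC.gap_obl
  refine ⟨c + 4, by positivity, ?_⟩
  intro n S d T s t hn hS hSn hd hdn hst Ω _ p hp0 hp1 M out δ hδ hgap
  have hgap' := gap_toGap hgap
  have e3 : SharpTS.phi n S d = MTX.phi n S d := rfl
  have e4 : SharpTS.err n S d = MTX.err n S d := rfl
  rw [e3, e4]
  obtain ⟨hδ1, hconst⟩ := MTC.GapAux.gap_basic hp0 hp1 (by omega : 1 ≤ d) hst hgap'
  have hT : 1 ≤ T := by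
    rcases Nat.eq_zero_or_pos T with h | h
    · exfalso
      subst h
      have := hconst (fun ω => ⟨(M ω).init (out ω), fun _ => rfl⟩)
      linarith
    · exact h
  have hTpos : (1 : ℝ) ≤ T := by exact_mod_cast hT
  have h1δ : (1 : ℝ) ≤ T / δ := by
    rw [le_div_iff₀ hδ]
    linarith
  have hlog0 : 0 ≤ Real.logb 2 (T / δ) := Real.logb_nonneg (by norm_num) h1δ
  have h3 := MTZ.FinalAux.err_ge (d := d) hn hS hSn (by omega)
  have e1 : MTZ.kap n S d = MTX.kap n S d := rfl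
  have e2 : MTZ.err n S d = MTX.err n S d := rfl
  rw [e1, e2] at h3
  have hκ0 : 0 ≤ MTX.kap n S d := MTX.kap_nonneg hS hSn (by omega)
  have hnR : (4 : ℝ) ≤ n := by exact_mod_cast hn
  have hS0 : (1 : ℝ) ≤ S := by exact_mod_cast hS
  have hlog2 : (2 : ℝ) ≤ Real.logb 2 n := by
    rw [Real.le_logb_iff_rpow_le (by norm_num) (by linarith)]
    norm_num
    linarith
  by_cases h2S : S + S ≤ n
  · choose M' out' hsim using fun ω => MTZ.exists_sim (toZ (M ω)) (out ω)
    have hrun : (fun ω G => (M' ω).run G (T * (n + 1)) (out' ω)) =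
        fun ω G => (M ω).run G T (out ω) := by
      funext ω G
      rw [hsim, toZ_run]
    have hgap2 : MTC.Gap p (fun ω G => (M' ω).run G (T * (n + 1)) (out' ω)) d s t δ := by
      rw [hrun]
      exact hgap'
    have hmain := hL n (S + S) d (T * (n + 1)) s t hn (by omega) h2S hd hdn hst Ω p hp0 hp1 M' out'
      δ hδ hgap2
    obtain ⟨h1, h2⟩ := phi_double hn hS h2S hd
    have h5 : c * MTX.err n (S + S) d ≤ c * MTX.err n S d := mul_le_mul_of_nonneg_left h2 hc.le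
    have h6 : Real.logb 2 (((T * (n + 1) : ℕ) : ℝ) / δ) ≤
        Real.logb 2 (T / δ) + 2 * Real.logb 2 n := by
      have e5 : ((T * (n + 1) : ℕ) : ℝ) / δ = (T / δ) * ((n : ℝ) + 1) := by
        push_cast
        ring
      rw [e5, Real.logb_mul (by positivity) (by positivity)]
      have h7 : Real.logb 2 ((n : ℝ) + 1) ≤ Real.logb 2 ((n : ℝ) ^ 2) := by
        apply Real.logb_le_logb_of_le (by norm_num) (by positivity)
        nlinarith
      rw [Real.logb_pow] at h7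
      push_cast at h7
      linarith
    nlinarith
  · -- `n < 2 S`
    have hlam : MTX.lam n S ≤ 1 := by
      show Real.logb 2 ((n : ℝ) / S) ≤ 1
      rw [Real.logb_le_iff_le_rpow (by norm_num) (by positivity), Real.rpow_one,
        div_le_iff₀ (by linarith)]
      have : (n : ℝ) ≤ ((S + S : ℕ) : ℝ) := by exact_mod_cast (by omega : n ≤ S + S)
      push_cast at this
      linarith
    have hlam0 : 0 ≤ MTX.lam n S := MTX.lam_nonneg hS hSn
    have h1 : MTX.phi n S d ≤ MTX.kap n S d := by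
      unfold MTX.phi
      nlinarith [sq_nonneg (MTX.kap n S d)]
    nlinarith

/-- The correlation bound, the lower bound for probabilistic machines and the upper bound by
straight line programs. -/
theorem finalA : ∃ c : ℝ, 0 < c ∧ ∀ (n S d : ℕ) (s t : Fin n), 4 ≤ n → 1 ≤ S → S ≤ n → 2 ≤ d →
    d ≤ n → s ≠ t →
    (∀ (T : ℕ) (Ω : Type) [Fintype Ω] (p : Ω → ℝ), (∀ ω, 0 ≤ p ω) → ∑ ω, p ω = 1 →
      ∀ (M : Ω → SharpTS.Mach n S) (out : Ω → Fin S) (δ : ℝ), 0 < δ → GapP p M out T d s t δ →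
      SharpTS.phi n S d - c * SharpTS.err n S d ≤ Real.logb 2 (T / δ)) ∧
    (c * Real.logb 2 n ^ 7 * S * d ≤ n → ∀ (T : ℕ) (M : SharpTS.Mach n S) (out : Fin S),
      accPath M out T d s t - accCut M out T s t ≤
        T * (2 : ℝ) ^ (-(SharpTS.phi n S d - c * SharpTS.err n S d))) ∧
    (c * Real.logb 2 n ≤ S → ∃ S' ≤ S, ∃ (M : SharpTS.Mach n S') (out : Fin S') (T : ℕ),
      1 ≤ T ∧ M.Simple ∧ SharpTS.Decides M out T d s t ∧
      Real.logb 2 T ≤ SharpTS.phi n S d + c * SharpTS.err n S d) ∧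
    SharpTS.phi n S n = SharpTS.lam n S ^ 2 / 2 := by
  obtain ⟨c₁, hc₁, h1⟩ := adv
  obtain ⟨c₂, hc₂, h2⟩ := final
  obtain ⟨c₃, hc₃, h3⟩ := gap
  obtain ⟨c, hc⟩ : ∃ c, c = max (max c₁ c₂) c₃ := ⟨_, rfl⟩
  have hle1 : c₁ ≤ c := by rw [hc]; exact (le_max_left _ _).trans (le_max_left _ _)
  have hle2 : c₂ ≤ c := by rw [hc]; exact (le_max_right _ _).trans (le_max_left _ _)
  have hle3 : c₃ ≤ c := by rw [hc]; exact le_max_right _ _
  refine ⟨c, by linarith, ?_⟩
  intro n S d s t hn hS hSn hd hdn hst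
  have he : 0 ≤ SharpTS.err n S d := MTX.err_nonneg hn hS hSn (by omega)
  have hlog : 0 ≤ Real.logb 2 (n : ℝ) :=
    Real.logb_nonneg (by norm_num) (by exact_mod_cast (by omega : 1 ≤ n))
  obtain ⟨-, h4, h5⟩ := h2 n S d s t hn hS hSn hd hdn hst
  have k1 : c₁ * SharpTS.err n S d ≤ c * SharpTS.err n S d :=
    mul_le_mul_of_nonneg_right hle1 he
  have k2 : c₂ * SharpTS.err n S d ≤ c * SharpTS.err n S d :=
    mul_le_mul_of_nonneg_right hle2 he
  have k3 : c₃ * SharpTS.err n S d ≤ c * SharpTS.err n S d :=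
    mul_le_mul_of_nonneg_right hle3 he
  refine ⟨?_, ?_, ?_, h5⟩
  · intro T Ω _ p hp0 hp1 M out δ hδ hM
    have := h3 n S d T s t hn hS hSn hd hdn hst Ω p hp0 hp1 M out δ hδ hM
    linarith
  · intro hC T M out
    refine (h1 n S d T s t hn hS hSn hd hdn hst ?_ M out).trans ?_
    · refine le_trans ?_ hC
      gcongr
    · apply mul_le_mul_of_nonneg_left _ (Nat.cast_nonneg _)
      apply Real.rpow_le_rpow_of_exponent_le (by norm_num)
      linarith
  · intro hS2
    obtain ⟨S', hS', M, out, T, hT, hM1, hM2, hM3⟩ := h4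
      ((mul_le_mul_of_nonneg_right hle2 hlog).trans hS2)
    exact ⟨S', hS', M, out, T, hT, hM1, hM2, by linarith⟩

end MTX
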