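import Pool.Agent.Lib.MTX.Basic
import Pool.Agent.Lib.MTQ.MinE

/-!
# MTX.Ext (MP_e46137_lc): few minimal extensions (helper60; import your quasi lemma here)
-/

namespace MTX

open Classical Finset

variable {N : ℕ}

namespace ExtAux

theorem join_eq (D A : PC N) : MTQ.join D A = join D A := by
  funext v
  show (D v).or (A v) = if D v = none then A v else D v
  cases D v <;> simp

theorem minExt_iff (F : Finset (PC N)) (D A : PC N) : MinExt F D A ↔ MTQ.MinExt F D A := by
  unfold MinExt MTQ.MinExt Disj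
  simp only [join_eq]
  constructor
  · rintro ⟨h1, h2, h3⟩
    exact ⟨fun v hv => (h1 v).resolve_left hv, h2, h3⟩
  · rintro ⟨h1, h2, h3⟩
    exact ⟨fun v => or_iff_not_imp_left.2 (h1 v), h2, h3⟩

theorem size_eq (U : PC N) : MTQ.size U = size U := by
  unfold MTQ.size size
  congr

theorem closed_of {w θ : ℕ} {F : Finset (PC N)} (hF : ClosedW w θ F) :
    MTQ.Closed (V := Fin N) w θ F := by
  refine ⟨fun U hU => ?_, fun U hU h => ?_⟩
  · rw [size_eq]
    exact hF.1 U hU
  · rw [size_eq] at hU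
    refine hF.2 U hU (le_trans (card_le_card fun χ hχ => ?_) h)
    have h1 := (mem_filter.1 hχ).2
    have h2 : MTQ.Agree U χ ∧ ¬ MTQ.Hits F χ := ⟨h1.1, h1.2⟩
    simp only [mem_filter]
    exact ⟨by simp, h2⟩

end ExtAux

open ExtAux

/-- A set `D` outside a closed family has at most `(2 B) ^ a` minimal extensions of size `a`. -/
theorem ext_card {w θ L B : ℕ} {F : Finset (PC N)} (hF : ClosedW w θ F) (hL : 1 ≤ L)
    (hθ : 2 ^ N ≤ θ * 2 ^ L) (hB : 4 * w * L ≤ B) {D : PC N} (hD : D ∉ F) {a : ℕ} (ha : 1 ≤ a)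
    (haw : size D + a ≤ w) :
    (univ.filter (fun A : PC N => MinExt F D A ∧ size A = a)).card ≤ (2 * B) ^ a := by
  have h := MTQ.minExt_card (V := Fin N) (closed_of hF) (L := L) (a := a) (B₁ := B)
    (by rw [Fintype.card_fin, mul_comm]; exact hθ) hL hB (D := D) (by rw [size_eq]; exact haw)
  refine le_trans (card_le_card fun A hA => ?_) h
  have hA' := (mem_filter.1 hA).2
  have h1 : MTQ.MinExt F D A ∧ MTQ.size A = a := ⟨(minExt_iff F D A).1 hA'.1, by
    rw [size_eq]; exact hA'.2⟩
  simp only [mem_filter]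
  exact ⟨by simp, h1⟩

end MTX
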