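import Pool.Agent.Lib.MTX.AMach
import Pool.Agent.Lib.MTX.Ext

/-!
# MTX.CoreA (MP_e46137_lc): the vertex sets of the small minimal extensions
-/

namespace MTX

open Classical Finset

variable {r N S : ℕ}

/-- the vertex sets of the minimal extensions (of size `1, …, w₁`) of the assigned vertices -/
noncomputable def covSet (w₁ : ℕ) (F : Fin S → Finset (PC N)) (ρ : PA r N) (x : ℕ) :
    Finset (Finset (Fin N)) :=
  (univ.filter (fun A : PC N => 1 ≤ size A ∧ size A ≤ w₁ ∧
    ∃ i, colr ρ x ∉ F i ∧ MinExt (F i) (colr ρ x) A)).image supp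

/-- `supp A` has `size A` elements; union over `i : Fin S` of `ext_card`. -/
theorem covSet_card {w w₁ θ L a : ℕ} (F : Fin S → Finset (PC N)) (hF : ∀ i, ClosedW w θ (F i))
    (hL : 1 ≤ L) (hθ : 2 ^ N ≤ θ * 2 ^ L) (ρ : PA r N) (x : ℕ) (ha : 1 ≤ a)
    (hw : asz ρ + a ≤ w) :
    ((covSet w₁ F ρ x).filter (fun A => A.card = a)).card ≤ S * (8 * w * L) ^ a := by
  have h1 : (covSet w₁ F ρ x).filter (fun A => A.card = a) ⊆
      ((univ.filter (fun i : Fin S => colr ρ x ∉ F i)).biUnion (fun i => univ.filter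
        (fun A : PC N => MinExt (F i) (colr ρ x) A ∧ size A = a))).image supp := by
    intro B hB
    obtain ⟨hB1, hB2⟩ := mem_filter.1 hB
    obtain ⟨A, hA, rfl⟩ := mem_image.1 hB1
    obtain ⟨-, -, -, i, hi, hmin⟩ := mem_filter.1 hA
    refine mem_image.2 ⟨A, mem_biUnion.2 ⟨i, mem_filter.2 ⟨mem_univ _, hi⟩,
      mem_filter.2 ⟨mem_univ _, hmin, hB2⟩⟩, rfl⟩
  refine (card_le_card h1).trans (card_image_le.trans (card_biUnion_le.trans ?_))
  have h2 : ∀ i ∈ univ.filter (fun i : Fin S => colr ρ x ∉ F i),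
      (univ.filter (fun A : PC N => MinExt (F i) (colr ρ x) A ∧ size A = a)).card ≤
        (8 * w * L) ^ a := by
    intro i hi
    have h3 := ext_card (hF i) hL hθ (le_refl (4 * w * L)) (mem_filter.1 hi).2 ha
      (le_trans (Nat.add_le_add_right (size_colr_le ρ x) a) hw)
    have h4 : 2 * (4 * w * L) = 8 * w * L := by ring
    rwa [h4] at h3
  refine (sum_le_card_nsmul _ _ _ h2).trans ?_
  rw [smul_eq_mul]
  apply Nat.mul_le_mul_right
  refine (card_le_card (filter_subset _ _)).trans ?_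
  rw [card_univ, Fintype.card_fin]

theorem covSet_disj (w₁ : ℕ) (F : Fin S → Finset (PC N)) (ρ : PA r N) (x : ℕ) :
    ∀ A ∈ covSet w₁ F ρ x, ∀ j v, ρ j = some v → v ∉ A := by
  intro B hB j v hj hv
  obtain ⟨A, hA, rfl⟩ := mem_image.1 hB
  obtain ⟨-, -, -, i, hi, hmin⟩ := mem_filter.1 hA
  rcases hmin.1 v with h | h
  · exact colr_ne_none hj x h
  · exact (mem_filter.1 hv).2 h

end MTX
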