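import Pool.Agent.Lib.MTX.Embed

/-!
# MTX.EmbedP (MP_e46137_lc): probabilistic machines
-/

namespace MTX

open Classical Finset SharpTS

theorem pathG_symm {n r N : ℕ} (y : Fin N → Fin n) (s t : Fin n) (P : Pth r N) (a b : Fin n) :
    pathG y s t P a b = pathG y s t P b a := by
  unfold pathG
  exact decide_eq_decide.2 (exists_congr fun q => and_congr_right fun _ => or_comm)

theorem cutG_symm {n N : ℕ} (y : Fin N → Fin n) (s : Fin n) (χ : Col N) (a b : Fin n) :
    cutG y s χ a b = cutG y s χ b a := by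
  unfold cutG
  exact decide_eq_decide.2 eq_comm

theorem pathG_walk {n r N : ℕ} (y : Fin N → Fin n) (s t : Fin n) (P : Pth r N) :
    SharpTS.HasWalk (pathG y s t P) (r + 1) s t := by
  have h1 : ∀ i ≤ r + 1, SharpTS.HasWalk (pathG y s t P) i s (vx y s t P i) := by
    intro i
    induction i with
    | zero =>
      intro _
      show s = vx y s t P 0
      simp [vx]
    | succ i ih =>
      intro hi
      refine ⟨vx y s t P i, ih (by omega), ?_⟩
      unfold pathG
      exact decide_eq_true ⟨i, by omega, Or.inl ⟨rfl, rfl⟩⟩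
  have h2 := h1 (r + 1) le_rfl
  have h3 : vx y s t P (r + 1) = t := by simp [vx]
  rwa [h3] at h2

theorem cutG_not_reach {n N : ℕ} (y : Fin N → Fin n) {s t : Fin n} (hst : s ≠ t)
    (hyt : ∀ u, y u ≠ t) (χ : Col N) : ¬ SharpTS.Reach (cutG y s χ) s t := by
  intro h
  have h1 : ∀ v, SharpTS.Reach (cutG y s χ) s v → side y s χ v = true := by
    intro v hv
    unfold SharpTS.Reach at hv
    induction hv with
    | refl =>
      unfold side
      exact decide_eq_true (Or.inl rfl)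
    | tail _ hbc ih =>
      unfold cutG at hbc
      rw [← of_decide_eq_true hbc]
      exact ih
  have h2 := h1 t h
  unfold side at h2
  rcases of_decide_eq_true h2 with h3 | ⟨u, hu, _⟩
  · exact hst h3.symm
  · exact hyt u hu

namespace EmbedPAux

theorem avg {Ω X : Type*} [Fintype Ω] [Fintype X] (p : Ω → ℝ) (acc : Ω → X → Bool) :
    ∑ ω, p ω * ((univ.filter (fun x => acc ω x = true)).card : ℝ) =
      ∑ x, ∑ ω ∈ univ.filter (fun ω => acc ω x = true), p ω := by
  have h1 : ∀ ω, p ω * ((univ.filter (fun x => acc ω x = true)).card : ℝ) =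
      ∑ x, if acc ω x = true then p ω else 0 := by
    intro ω
    rw [← sum_filter, sum_const, nsmul_eq_mul, mul_comm]
  rw [sum_congr rfl fun ω _ => h1 ω, sum_comm]
  exact sum_congr rfl fun x _ => by rw [sum_filter]

end EmbedPAux

/-- Average over `Ω`: some machine has advantage at least `1 / 3` between the uniformly random path
and the uniformly random cut; `explicit1` with `N = n - 2`, `r = 2 ^ k - 1`, and a bijection `y` of
`Fin (n - 2)` with the vertices different from `s`, `t`. -/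
theorem explicit {n S w w₁ k θ L T : ℕ} (hk : 1 ≤ k) {s t : Fin n} (hst : s ≠ t)
    {Ω : Type} [Fintype Ω] (p : Ω → ℝ) (hp0 : ∀ ω, 0 ≤ p ω) (hp1 : ∑ ω, p ω = 1)
    (M : Ω → SharpTS.Mach n S) (out : Ω → Fin S) (hM : DecidesP p M out T (2 ^ k) s t)
    (hw : (k + 1) * w₁ + 4 ≤ w) (hL : 1 ≤ L) (hθ : 2 ^ (n - 2) ≤ θ * 2 ^ L)
    (hθ' : θ < 2 ^ (n - 2 - w))
    (herr : 24 * (T * (S * ((2 * (n - 2) + 1) ^ w * θ))) ≤ 2 ^ (n - 2))
    (hN : 16 * (8 * w * L) * S * 2 ^ k + 2 ^ k + 1 ≤ n)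
    (hbad : 24 * T * (S + 2 ^ k) ≤ 4 ^ w₁) :
    (n - 1 - 2 ^ k) ^ (k - 1) ≤
      T * Nat.clog 2 T ^ (k - 1) * (8 * (8 * w * L) * S) ^ (k - 1) * 2 ^ (k * (k + 1) / 2 + 1) := by
  have hΩ : ∃ ω, 0 < p ω := by
    by_contra hcon
    push Not at hcon
    have h1 : ∑ ω, p ω ≤ 0 := Finset.sum_nonpos fun ω _ => hcon ω
    rw [hp1] at h1
    exact absurd h1 (by norm_num)
  obtain ⟨ω₀, hω₀⟩ := hΩ
  have hS : 0 < S := (Nat.zero_le _).trans_lt (out ω₀).isLt
  have h2k : 1 ≤ 2 ^ k := Nat.one_le_two_pow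
  have hprod : 0 < 16 * (8 * w * L) * S * 2 ^ k := by
    have hw0 : 0 < w := by omega
    positivity
  have hcard : ((univ.erase s).erase t : Finset (Fin n)).card = n - 2 := by
    rw [card_erase_of_mem (mem_erase.2 ⟨hst.symm, mem_univ _⟩), card_erase_of_mem (mem_univ _),
      card_univ, Fintype.card_fin]
    omega
  set y : Fin (n - 2) → Fin n := fun u => ((univ.erase s).erase t).orderEmbOfFin hcard u with hy
  have hyinj : Function.Injective y := (((univ.erase s).erase t).orderEmbOfFin hcard).injective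
  have hymem : ∀ u, y u ∈ (univ.erase s).erase t := fun u => Finset.orderEmbOfFin_mem _ hcard u
  have hyt : ∀ u, y u ≠ t := fun u => (mem_erase.1 (hymem u)).1
  have hys : ∀ u, y u ≠ s := fun u => (mem_erase.1 (mem_erase.1 (hymem u)).2).1
  obtain ⟨r, hr⟩ : ∃ r, r + 1 = 2 ^ k := ⟨2 ^ k - 1, by omega⟩
  have hrN : r < n - 2 := by omega
  have hNr : n - 1 - 2 ^ k = n - 2 - r := by omega
  -- a machine with advantage
  have hA : 2 / 3 * (Fintype.card (Pth r (n - 2)) : ℝ) ≤ ∑ ω, p ω *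
      ((univ.filter (fun P : Pth r (n - 2) =>
        (M ω).run (pathG y s t P) T (out ω) = true)).card : ℝ) := by
    rw [EmbedPAux.avg p (fun ω (P : Pth r (n - 2)) => (M ω).run (pathG y s t P) T (out ω))]
    calc _ = ∑ _P : Pth r (n - 2), (2 / 3 : ℝ) := by
          rw [sum_const, card_univ, nsmul_eq_mul, mul_comm]
      _ ≤ _ := sum_le_sum fun P _ => (hM (pathG y s t P) (pathG_symm y s t P)).1
          ⟨2 ^ k, le_rfl, hr ▸ pathG_walk y s t P⟩
  have hB : ∑ ω, p ω * ((univ.filter (fun χ : Col (n - 2) =>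
        (M ω).run (cutG y s χ) T (out ω) = true)).card : ℝ) ≤ 1 / 3 * (2 : ℝ) ^ (n - 2) := by
    rw [EmbedPAux.avg p (fun ω (χ : Col (n - 2)) => (M ω).run (cutG y s χ) T (out ω))]
    calc _ ≤ ∑ _χ : Col (n - 2), (1 / 3 : ℝ) :=
          sum_le_sum fun χ _ => (hM (cutG y s χ) (cutG_symm y s χ)).2
            (cutG_not_reach y hst hyt χ)
      _ = _ := by
          rw [sum_const, card_univ, nsmul_eq_mul, mul_comm]
          simp
  obtain ⟨ω, hω⟩ : ∃ ω, (Fintype.card (Pth r (n - 2)) : ℝ) * 2 ^ (n - 2) +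
        3 * ((univ.filter (fun χ : Col (n - 2) =>
          (M ω).run (cutG y s χ) T (out ω) = true)).card : ℝ) *
          (Fintype.card (Pth r (n - 2)) : ℝ) ≤
      3 * ((univ.filter (fun P : Pth r (n - 2) =>
        (M ω).run (pathG y s t P) T (out ω) = true)).card : ℝ) * 2 ^ (n - 2) := by
    by_contra hcon
    push Not at hcon
    have hpos : 0 < ∑ ω, p ω * ((Fintype.card (Pth r (n - 2)) : ℝ) * 2 ^ (n - 2) +
        3 * ((univ.filter (fun χ : Col (n - 2) =>
          (M ω).run (cutG y s χ) T (out ω) = true)).card : ℝ) *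
          (Fintype.card (Pth r (n - 2)) : ℝ) -
      3 * ((univ.filter (fun P : Pth r (n - 2) =>
        (M ω).run (pathG y s t P) T (out ω) = true)).card : ℝ) * 2 ^ (n - 2)) := by
      refine sum_pos' (fun ω _ => mul_nonneg (hp0 ω) (sub_pos.2 (hcon ω)).le)
        ⟨ω₀, mem_univ _, mul_pos hω₀ (sub_pos.2 (hcon ω₀))⟩
    have hsum : ∑ ω, p ω * ((Fintype.card (Pth r (n - 2)) : ℝ) * 2 ^ (n - 2) +
        3 * ((univ.filter (fun χ : Col (n - 2) =>
          (M ω).run (cutG y s χ) T (out ω) = true)).card : ℝ) *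
          (Fintype.card (Pth r (n - 2)) : ℝ) -
      3 * ((univ.filter (fun P : Pth r (n - 2) =>
        (M ω).run (pathG y s t P) T (out ω) = true)).card : ℝ) * 2 ^ (n - 2)) =
        (∑ ω, p ω) * ((Fintype.card (Pth r (n - 2)) : ℝ) * 2 ^ (n - 2)) +
        3 * (Fintype.card (Pth r (n - 2)) : ℝ) * (∑ ω, p ω * ((univ.filter
          (fun χ : Col (n - 2) => (M ω).run (cutG y s χ) T (out ω) = true)).card : ℝ)) -
        3 * 2 ^ (n - 2) * (∑ ω, p ω * ((univ.filter (fun P : Pth r (n - 2) =>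
          (M ω).run (pathG y s t P) T (out ω) = true)).card : ℝ)) := by
      rw [sum_mul, mul_sum, mul_sum, ← sum_add_distrib, ← sum_sub_distrib]
      exact sum_congr rfl fun ω _ => by ring
    rw [hsum, hp1, one_mul] at hpos
    have hc0 : (0 : ℝ) ≤ (Fintype.card (Pth r (n - 2)) : ℝ) := Nat.cast_nonneg _
    have h20 : (0 : ℝ) < (2 : ℝ) ^ (n - 2) := by positivity
    have h3 := mul_le_mul_of_nonneg_left hB (mul_nonneg (by norm_num : (0 : ℝ) ≤ 3) hc0)
    have h4 := mul_le_mul_of_nonneg_left hA (mul_nonneg (by norm_num : (0 : ℝ) ≤ 3) h20.le)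
    nlinarith
  have hfin := explicit1 (n := n) (r := r) (N := n - 2) (S := S) (w := w) (w₁ := w₁) (k := k)
    (θ := θ) (L := L) (T := T) hk hr hst y hyinj hys hyt (M ω) (out ω)
    (by exact_mod_cast hω) hw hL hθ hθ' herr hrN
    (by rw [hr]; omega) (by rw [Nat.add_assoc, hr]; exact hbad)
  rw [hNr]
  exact hfin

end MTX
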