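import Pool.Agent.Lib.MTB.LandA

/-!
# MTX.USeeds (MP_e46137_lc): families of milestones (compare MTB.LandA)
-/

namespace MTX

open Classical

namespace USeedsAux

open MTB MTB.LandAAux

theorem bad_level {n m w l K : ℕ} (hn : 1 ≤ n) (hK : 1 ≤ K)
    (hm : K * n * (n - w) ^ m ≤ n ^ m) (hK2 : 2 ≤ K) (p : ℕ → Fin n)
    (hp : Set.InjOn p (Set.Iic l)) :
    K * (Finset.univ.filter (fun R : Fin m → Fin n => ¬ Meets w l p R)).card ≤ n ^ m := by
  have hl := length_le p hp
  have hw : 1 ≤ w := by
    rcases Nat.eq_zero_or_pos w with h0 | h0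
    · exfalso
      subst h0
      rw [Nat.sub_zero] at hm
      have h1 : 0 < n ^ m := pow_pos (by omega) m
      have h2 : 2 * 1 ≤ K * n := Nat.mul_le_mul hK2 hn
      nlinarith
    · exact h0
  have hbad : (Finset.univ.filter (fun R : Fin m → Fin n => ¬ Meets w l p R)).card ≤
      n * (n - w) ^ m := by
    have h1 : (Finset.univ.filter (fun R : Fin m → Fin n => ¬ Meets w l p R)) ⊆
        (Finset.range (l + 2 - w)).biUnion (fun a => Finset.univ.filter
          (fun R : Fin m → Fin n => ∀ i b, a ≤ b → b < a + w → R i ≠ p b)) := by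
      intro R hR
      have hR' := (Finset.mem_filter.1 hR).2
      unfold Meets at hR'
      push Not at hR'
      obtain ⟨a, ha, hno⟩ := hR'
      refine Finset.mem_biUnion.2 ⟨a, Finset.mem_range.2 (by omega),
        Finset.mem_filter.2 ⟨Finset.mem_univ _, fun i b h2 h3 => hno i b h2 h3⟩⟩
    refine (Finset.card_le_card h1).trans (Finset.card_biUnion_le.trans ?_)
    have h2 : ∑ a ∈ Finset.range (l + 2 - w), (Finset.univ.filter
        (fun R : Fin m → Fin n => ∀ i b, a ≤ b → b < a + w → R i ≠ p b)).card ≤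
        ∑ _a ∈ Finset.range (l + 2 - w), (n - w) ^ m := by
      refine Finset.sum_le_sum fun a ha => card_miss p hp a ?_
      have := Finset.mem_range.1 ha
      omega
    refine h2.trans ?_
    rw [Finset.sum_const, Finset.card_range, smul_eq_mul]
    exact Nat.mul_le_mul_right _ (by omega)
  calc K * (Finset.univ.filter (fun R : Fin m → Fin n => ¬ Meets w l p R)).card
      ≤ K * (n * (n - w) ^ m) := Nat.mul_le_mul_left _ hbad
    _ = K * n * (n - w) ^ m := by ring
    _ ≤ n ^ m := hm

theorem card_coord {ι : Type} [Fintype ι] {β : ι → Type} [∀ i, Fintype (β i)]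
    (j : ι) (B : Finset (β j)) :
    (Finset.univ.filter (fun f : (i : ι) → β i => f j ∈ B)).card * Fintype.card (β j) =
      B.card * Fintype.card ((i : ι) → β i) := by
  have h1 : (Finset.univ.filter (fun f : (i : ι) → β i => f j ∈ B)) =
      Fintype.piFinset (fun i => Function.update (fun i => (Finset.univ : Finset (β i))) j B i) := by
    ext f
    simp only [Finset.mem_filter, Finset.mem_univ, true_and, Fintype.mem_piFinset]
    constructor
    · intro h i
      by_cases hi : i = j
      · subst hi; rw [Function.update_self]; exact h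
      · rw [Function.update_of_ne hi]; exact Finset.mem_univ _
    · intro h
      have := h j
      rwa [Function.update_self] at this
  rw [h1, Fintype.card_piFinset, Fintype.card_pi,
    Fintype.prod_eq_mul_prod_compl j, Fintype.prod_eq_mul_prod_compl j, Function.update_self]
  have h2 : ∏ i ∈ {j}ᶜ, (Function.update (fun i => (Finset.univ : Finset (β i))) j B i).card =
      ∏ i ∈ {j}ᶜ, Fintype.card (β i) := by
    refine Finset.prod_congr rfl fun i hi => ?_
    have hi' : i ≠ j := by simpa using hi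
    rw [Function.update_of_ne hi', Finset.card_univ]
  rw [h2]
  ring

theorem half_all {ι : Type} [Fintype ι] {β : ι → Type} [∀ i, Fintype (β i)]
    [∀ i, Nonempty (β i)] (ok : (i : ι) → β i → Prop) (N : ℕ) (hN : Fintype.card ι = N)
    (hN1 : 1 ≤ N)
    (h : ∀ j, 2 * N * (Finset.univ.filter (fun R : β j => ¬ ok j R)).card ≤ Fintype.card (β j)) :
    Fintype.card ((i : ι) → β i) ≤
      2 * (Finset.univ.filter (fun f : (i : ι) → β i => ∀ j, ok j (f j))).card := by
  set A := Fintype.card ((i : ι) → β i) with hA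
  have hlev : ∀ j : ι, 2 * N * (Finset.univ.filter
      (fun f : (i : ι) → β i => ¬ ok j (f j))).card ≤ A := by
    intro j
    have h2 := card_coord j (Finset.univ.filter (fun R : β j => ¬ ok j R))
    have h3 : (Finset.univ.filter (fun f : (i : ι) → β i =>
        f j ∈ Finset.univ.filter (fun R : β j => ¬ ok j R))) =
        Finset.univ.filter (fun f : (i : ι) → β i => ¬ ok j (f j)) := by
      ext f
      simp only [Finset.mem_filter, Finset.mem_univ, true_and]
    have h3' := congrArg Finset.card h3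
    have h2' : (Finset.univ.filter (fun f : (i : ι) → β i => ¬ ok j (f j))).card *
        Fintype.card (β j) = (Finset.univ.filter (fun R : β j => ¬ ok j R)).card * A := by
      rw [← h3', hA, ← h2]
    have h5 : 0 < Fintype.card (β j) := Fintype.card_pos
    refine Nat.le_of_mul_le_mul_right ?_ h5
    calc _ = 2 * N * ((Finset.univ.filter
        (fun f : (i : ι) → β i => ¬ ok j (f j))).card * Fintype.card (β j)) := by ring
      _ = (2 * N * (Finset.univ.filter (fun R : β j => ¬ ok j R)).card) * A := by rw [h2']; ring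
      _ ≤ Fintype.card (β j) * A := Nat.mul_le_mul_right _ (h j)
      _ = A * Fintype.card (β j) := by ring
  have hbad : (Finset.univ.filter (fun f : (i : ι) → β i => ¬ ∀ j, ok j (f j))).card ≤
      ∑ j : ι, (Finset.univ.filter (fun f : (i : ι) → β i => ¬ ok j (f j))).card := by
    refine (Finset.card_le_card ?_).trans Finset.card_biUnion_le
    intro f hf
    have hf' := (Finset.mem_filter.1 hf).2
    push Not at hf'
    obtain ⟨j, hj⟩ := hf'
    exact Finset.mem_biUnion.2 ⟨j, Finset.mem_univ _,
      Finset.mem_filter.2 ⟨Finset.mem_univ _, hj⟩⟩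
  have hsum : 2 * N * ∑ j : ι, (Finset.univ.filter
      (fun f : (i : ι) → β i => ¬ ok j (f j))).card ≤ N * A := by
    rw [Finset.mul_sum]
    refine (Finset.sum_le_sum fun j _ => hlev j).trans ?_
    rw [Finset.sum_const, Finset.card_univ, hN, smul_eq_mul]
  have h3 := Finset.card_filter_add_card_filter_not
    (s := (Finset.univ : Finset ((i : ι) → β i))) (fun f => ∀ j, ok j (f j))
  rw [Finset.card_univ, ← hA] at h3
  have h4 : N * (2 * (Finset.univ.filter
      (fun f : (i : ι) → β i => ¬ ∀ j, ok j (f j))).card) ≤ N * A := by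
    refine le_trans ?_ hsum
    calc _ = 2 * N * (Finset.univ.filter
      (fun f : (i : ι) → β i => ¬ ∀ j, ok j (f j))).card := by ring
      _ ≤ _ := Nat.mul_le_mul_left _ hbad
  have h5 := Nat.le_of_mul_le_mul_left h4 hN1
  have h6 : (Finset.univ.filter (fun f : (i : ι) → β i => ¬ (fun f => ∀ j, ok j (f j)) f)).card ≤
    (Finset.univ.filter (fun f : (i : ι) → β i => ¬ ∀ j, ok j (f j))).card := by
    refine Finset.card_le_card fun f hf => ?_
    have h7 := (Finset.mem_filter.1 hf).2
    exact Finset.mem_filter.2 ⟨Finset.mem_univ _, h7⟩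
  omega

theorem half_all' {ι : Type} [Fintype ι] {β : ι → Type} [∀ i, Fintype (β i)]
    [∀ i, Nonempty (β i)] (ok : (i : ι) → β i → Prop) (N : ℕ) (hN : Fintype.card ι = N)
    (hN1 : 1 ≤ N)
    (h : ∀ j, 2 * N * (Finset.univ.filter (fun R : β j => ¬ ok j R)).card ≤ Fintype.card (β j))
    (inst : Fintype ((i : ι) → β i)) (dec : DecidablePred (fun f : (i : ι) → β i => ∀ j, ok j (f j))) :
    @Fintype.card _ inst ≤
      2 * (@Finset.filter _ (fun f : (i : ι) → β i => ∀ j, ok j (f j)) dec
        (@Finset.univ _ inst)).card := by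
  have h0 := half_all ok N hN hN1 h
  have e1 : inst = Pi.instFintype := Subsingleton.elim _ _
  subst e1
  refine h0.trans (Nat.mul_le_mul_left _ (Finset.card_le_card fun f hf => ?_))
  simp only [Finset.mem_filter, Finset.mem_univ, true_and] at hf ⊢
  exact hf

end USeedsAux

open USeedsAux

/-- For every path at most a fraction `1 / (2 (J + 1))` of the lists of level `j` are bad (proof of
`MTB.half_good`), so at least half of the families `(R j)_{j ≤ J}`, which range over the finite type
`(j : Fin (J + 1)) → Fin (z j) → Fin n`, are good at all levels; `MTB.exists_cover_list` as in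
`MTB.exists_landmarks`. -/
theorem exists_seeds {n J : ℕ} (z w : ℕ → ℕ) (hn : 1 ≤ n)
    (hm : ∀ j ≤ J, 2 * (J + 1) * n * (n - w j) ^ z j ≤ n ^ z j) :
    ∃ R : Fin ((n + 1) ^ 2) → (j : ℕ) → Fin (z j) → Fin n, ∀ (l : ℕ) (p : ℕ → Fin n),
      Set.InjOn p (Set.Iic l) → ∃ x, ∀ j ≤ J, MTB.Meets (w j) l p (R x j) := by
  have : NeZero n := ⟨by omega⟩
  let ext : (Fin n → Fin n) → ℕ → Fin n := fun q a => if h : a < n then q ⟨a, h⟩ else q 0
  let T : Finset (Fin n × (Fin n → Fin n)) :=
    Finset.univ.filter (fun x => Set.InjOn (ext x.2) (Set.Iic (x.1 : ℕ)))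
  have hT : T.card < 2 ^ ((n + 1) ^ 2) := by
    have h1 : T.card ≤ n ^ (n + 1) := by
      refine (Finset.card_le_univ T).trans ?_
      rw [Fintype.card_prod, Fintype.card_fun, Fintype.card_fin, pow_succ, mul_comm]
    have h2 : n ^ (n + 1) < (2 ^ (n + 1)) ^ (n + 1) := by
      refine Nat.pow_lt_pow_left ?_ (by omega)
      exact lt_trans Nat.lt_two_pow_self (Nat.pow_lt_pow_right (by norm_num) (Nat.lt_succ_self n))
    rw [← pow_mul] at h2
    rw [pow_two]
    exact lt_of_le_of_lt h1 h2
  obtain ⟨c, hc⟩ := MTB.exists_cover_list (α := (j : Fin (J + 1)) → Fin (z j) → Fin n) T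
    (fun R x => ∀ j : Fin (J + 1), MTB.Meets (w j) (x.1 : ℕ) (ext x.2) (R j))
    (fun x hx => by
      have hinj := (Finset.mem_filter.1 hx).2
      exact half_all' (β := fun j : Fin (J + 1) => Fin (z j) → Fin n)
        (fun j R => MTB.Meets (w j) (x.1 : ℕ) (ext x.2) R) (J + 1) (Fintype.card_fin _)
        (by omega) (fun j => by
          have h1 := bad_level (K := 2 * (J + 1)) hn (by omega) (hm j (by omega)) (by omega)
            (ext x.2) hinj
          rw [Fintype.card_fun, Fintype.card_fin, Fintype.card_fin]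
          exact h1) _ _)
    ((n + 1) ^ 2) hT
  have hc' : ∃ R : Fin ((n + 1) ^ 2) → (j : ℕ) → Fin (z j) → Fin n,
      ∀ x (j : ℕ) (h : j < J + 1), R x j = c x ⟨j, h⟩ :=
    ⟨fun x j => if h : j < J + 1 then (c x ⟨j, h⟩ : Fin (z j) → Fin n) else (fun _ => 0 : Fin (z j) → Fin n),
      fun x j h => dif_pos h⟩
  obtain ⟨R, hR⟩ := hc'
  refine ⟨R, fun l p hp => ?_⟩
  have hl := MTB.LandAAux.length_le p hp
  have hext : ∀ a, a ≤ l → ext (fun i => p i) a = p a := by
    intro a ha
    have h : a < n := by omega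
    show (if h : a < n then p ((⟨a, h⟩ : Fin n) : ℕ) else p ((0 : Fin n) : ℕ)) = p a
    rw [dif_pos h]
  have hmem : ((⟨l, by omega⟩ : Fin n), fun i : Fin n => p i) ∈ T := by
    refine Finset.mem_filter.2 ⟨Finset.mem_univ _, ?_⟩
    intro a ha b hb hab
    have ha' : a ≤ l := ha
    have hb' : b ≤ l := hb
    have hab' : ext (fun i => p i) a = ext (fun i => p i) b := hab
    rw [hext a ha', hext b hb'] at hab'
    exact hp (Set.mem_Iic.2 ha') (Set.mem_Iic.2 hb') hab'
  obtain ⟨x, hx⟩ := hc _ hmem
  refine ⟨x, fun j hj => ?_⟩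
  have hj' : j < J + 1 := by omega
  rw [hR x j hj']
  intro a ha
  obtain ⟨i, b, h1, h2, h3⟩ := hx ⟨j, hj'⟩ a ha
  refine ⟨i, b, h1, h2, ?_⟩
  have h4 : ext (fun i => p i) b = p b := hext b (by
    have : b < a + w j := h2
    omega)
  exact h3.trans h4

/-- `(1 - w / n) ^ z ≤ exp (- w z / n) ≤ exp (- b) ≤ 2 ^ (- b)` -/
theorem pow_sub_le {n w z b : ℕ} (hn : 1 ≤ n) (h : b * n ≤ w * z) :
    2 ^ b * (n - w) ^ z ≤ n ^ z := by
  rcases Nat.eq_zero_or_pos z with hz | hz
  · subst hz
    have hb : b = 0 := by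
      rw [Nat.mul_zero] at h
      rcases Nat.mul_eq_zero.1 (Nat.le_zero.1 h) with h1 | h1
      · exact h1
      · omega
    subst hb
    simp
  rcases Nat.lt_or_ge w n with hw | hw
  · have hnR : (0 : ℝ) < n := by exact_mod_cast hn
    have hsub : ((n - w : ℕ) : ℝ) = (n : ℝ) - w := by
      rw [Nat.cast_sub hw.le]
    have hfac : ((n : ℝ) - w) ≤ n * Real.exp (-(w / n)) := by
      have h1 := Real.one_sub_le_exp_neg ((w : ℝ) / n)
      have h2 : (n : ℝ) * (1 - w / n) = n - w := by field_simp
      rw [← h2]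
      exact mul_le_mul_of_nonneg_left h1 hnR.le
    have hnn : (0 : ℝ) ≤ (n : ℝ) - w := by
      have : (w : ℝ) ≤ n := by exact_mod_cast hw.le
      linarith
    have hpow : ((n : ℝ) - w) ^ z ≤ n ^ z * Real.exp (-(b : ℝ)) := by
      calc ((n : ℝ) - w) ^ z ≤ (n * Real.exp (-(w / n))) ^ z :=
            pow_le_pow_left₀ hnn hfac z
        _ = n ^ z * Real.exp (-(w / n) * z) := by
            rw [mul_pow, ← Real.exp_nat_mul]
            ring_nf
        _ ≤ n ^ z * Real.exp (-(b : ℝ)) := by
            refine mul_le_mul_of_nonneg_left ?_ (by positivity)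
            refine Real.exp_le_exp.2 ?_
            have h3 : (b : ℝ) * n ≤ w * z := by exact_mod_cast h
            have h4 : (b : ℝ) ≤ w * z / n := by
              rw [le_div_iff₀ hnR]; exact h3
            have h5 : -((w : ℝ) / n) * z = -(w * z / n) := by ring
            rw [h5]
            linarith
    have h2b : (2 : ℝ) ^ b ≤ Real.exp b := by
      have h6 : (2 : ℝ) ≤ Real.exp 1 := by
        have := Real.add_one_le_exp (1 : ℝ)
        linarith
      calc (2 : ℝ) ^ b ≤ (Real.exp 1) ^ b := pow_le_pow_left₀ (by norm_num) h6 b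
        _ = Real.exp b := by rw [← Real.exp_nat_mul, mul_one]
    have hfin : ((2 ^ b * (n - w) ^ z : ℕ) : ℝ) ≤ ((n ^ z : ℕ) : ℝ) := by
      push_cast
      rw [hsub]
      calc (2 : ℝ) ^ b * ((n : ℝ) - w) ^ z
          ≤ Real.exp b * (n ^ z * Real.exp (-(b : ℝ))) := by
            refine mul_le_mul h2b hpow (by positivity) (by positivity)
        _ = n ^ z * (Real.exp b * Real.exp (-(b : ℝ))) := by ring
        _ = n ^ z := by rw [← Real.exp_add, add_neg_cancel, Real.exp_zero, mul_one]
    exact_mod_cast hfin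
  · have h0 : n - w = 0 := by omega
    rw [h0, zero_pow (by omega), mul_zero]
    exact Nat.zero_le _

end MTX
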