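import Pool.Agent.Lib.MTX.UIter
import Pool.Agent.Lib.MTX.USeeds

/-!
# MTX.UExpl (MP_e46137_lc): the upper bound with explicit parameters
-/

namespace MTX

open Classical MTB

namespace UExplAux

theorem seq_of_hasWalk {n : ℕ} (G : Fin n → Fin n → Bool) (s : Fin n) (l : ℕ) :
    ∀ t, HasWalk G l s t →
    ∃ p : ℕ → Fin n, p 0 = s ∧ p l = t ∧ ∀ a < l, G (p a) (p (a + 1)) = true := by
  induction l with
  | zero =>
    intro t h
    exact ⟨fun _ => s, rfl, h, fun a ha => absurd ha (Nat.not_lt_zero a)⟩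
  | succ l ih =>
    intro t h
    obtain ⟨w, hw, hG⟩ := h
    obtain ⟨p, h0, h1, h2⟩ := ih w hw
    refine ⟨fun a => if a ≤ l then p a else t, ?_, ?_, ?_⟩
    · simp only [Nat.zero_le, if_true]
      exact h0
    · have : ¬ l + 1 ≤ l := by omega
      simp only [this, if_false]
    · intro a ha
      by_cases hal : a + 1 ≤ l
      · have h3 : a ≤ l := by omega
        simp only [hal, h3, if_true]
        exact h2 a (by omega)
      · have h3 : a = l := by omega
        subst h3
        have h4 : ¬ a + 1 ≤ a := by omega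
        simp only [h4, if_false, le_refl, if_true]
        rw [h1]
        exact hG

/-- a walk with `d` arcs gives an injective path with at most `d` arcs -/
theorem exists_short {n d : ℕ} (G : Fin n → Fin n → Bool) (s t : Fin n) (h : HasWalk G d s t) :
    ∃ (l : ℕ) (p : ℕ → Fin n), l ≤ d ∧ Set.InjOn p (Set.Iic l) ∧ p 0 = s ∧ p l = t ∧
      ∀ a < l, G (p a) (p (a + 1)) = true := by
  have hex : ∃ l, ∃ p : ℕ → Fin n, p 0 = s ∧ p l = t ∧ ∀ a < l, G (p a) (p (a + 1)) = true :=
    ⟨d, seq_of_hasWalk G s d t h⟩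
  obtain ⟨p, h0, h1, h2⟩ := Nat.find_spec hex
  have hmin := fun m hm => Nat.find_min (H := hex) (m := m) hm
  have hle : Nat.find hex ≤ d := Nat.find_min' hex (seq_of_hasWalk G s d t h)
  set l := Nat.find hex with hl
  refine ⟨l, p, hle, ?_, h0, h1, h2⟩
  have key : ∀ a b, a < b → b ≤ l → p a ≠ p b := by
    intro a b hab hbl heq
    apply hmin (l - (b - a)) (by omega)
    refine ⟨fun c => if c ≤ a then p c else p (c + (b - a)), ?_, ?_, ?_⟩
    · simp only [Nat.zero_le, if_true]
      exact h0
    · by_cases hc : l - (b - a) ≤ a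
      · have hbl' : b = l := by omega
        have hca : l - (b - a) = a := by omega
        simp only [hc, if_true]
        rw [hca, heq, hbl', h1]
      · simp only [hc, if_false]
        have : l - (b - a) + (b - a) = l := by omega
        rw [this, h1]
    · intro c hc
      by_cases hc1 : c + 1 ≤ a
      · have hc2 : c ≤ a := by omega
        simp only [hc1, hc2, if_true]
        exact h2 c (by omega)
      · by_cases hc2 : c ≤ a
        · have hca : c = a := by omega
          subst hca
          simp only [hc1, hc2, if_true, if_false]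
          have : c + 1 + (b - c) = b + 1 := by omega
          rw [this, heq]
          exact h2 b (by omega)
        · simp only [hc1, hc2, if_false]
          have : c + 1 + (b - a) = c + (b - a) + 1 := by omega
          rw [this]
          exact h2 _ (by omega)
  intro a ha b hb hab
  rw [Set.mem_Iic] at ha hb
  rcases lt_trichotomy a b with h3 | h3 | h3
  · exact absurd hab (key a b h3 hb)
  · exact h3
  · exact absurd hab.symm (key b a h3 ha)

end UExplAux

open UExplAux

/-- Rows of `m + 2` registers.  `exists_seeds` with `z j = Q j * (m + 2)`, `w j = ell lg j / lg + 1`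
for `j < J`, `z J = m`, and `w J = ell lg J` (second case of `hd`) or `w J = n + 1` (first case:
`0 ^ m = 0`, `1 ≤ m`).  `C x j c i = R x j (finProdFinEquiv (c, i))`, landmarks = `R x J` completed by
`s` and `t`.  Completeness: a walk with at most `d` arcs gives an injective path `p` with
`l ≤ d` (shortest walk; `MTB.LandB.exists_simple` gives an injective path, take the shortest one or
repeat its proof), a good family `x` for it, and either `l ≤ ell J` (`Rel_complete`) or
`Rel_hops`.  Soundness: `Rel_hops_sound`. -/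
theorem upper_explicit {n m J lg d : ℕ} (Q : ℕ → ℕ) (s t : Fin n) (hlg : 1 ≤ lg) (hm1 : 1 ≤ m)
    (hm : ∀ j < J, 2 * (J + 1) * n * (n - (ell lg j / lg + 1)) ^ (Q j * (m + 2)) ≤
      n ^ (Q j * (m + 2)))
    (hd : d ≤ ell lg J ∨ 2 * (J + 1) * n * (n - ell lg J) ^ m ≤ n ^ m) :
    ∃ (M : Mach n ((2 * J + 3) * (m + 2) + 1)) (out : Fin ((2 * J + 3) * (m + 2) + 1)) (T : ℕ),
      1 ≤ T ∧
      T ≤ ((n + 1) ^ 2 + 1) * (m + 3) *
        (20 * (m + 2) ^ 2 * (∏ j ∈ Finset.range J, (4 * Q j + 1)) + 20 * (m + 2)) ∧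
      M.Simple ∧ Decides M out T d s t := by
  have hn : 1 ≤ n := by
    have := s.2
    omega
  -- the parameters of the families
  obtain ⟨z, hz⟩ : ∃ z : ℕ → ℕ, z = fun j => if j < J then Q j * (m + 2) else m := ⟨_, rfl⟩
  obtain ⟨w, hw⟩ : ∃ w : ℕ → ℕ, w = fun j => if j < J then ell lg j / lg + 1 else
      if d ≤ ell lg J then n + 1 else ell lg J := ⟨_, rfl⟩
  have hz1 : ∀ j, j < J → z j = Q j * (m + 2) := fun j hj => by rw [hz]; exact if_pos hj
  have hz2 : z J = m := by rw [hz]; exact if_neg (lt_irrefl J)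
  have hw1 : ∀ j, j < J → w j = ell lg j / lg + 1 := fun j hj => by rw [hw]; exact if_pos hj
  have hw2 : w J = if d ≤ ell lg J then n + 1 else ell lg J := by
    rw [hw]; exact if_neg (lt_irrefl J)
  obtain ⟨R, hR⟩ := exists_seeds (n := n) (J := J) z w hn (by
    intro j hj
    rcases Nat.lt_or_ge j J with h | h
    · rw [hz1 j h, hw1 j h]
      exact hm j h
    · have hjJ : j = J := le_antisymm hj h
      subst hjJ
      rw [hz2, hw2]
      by_cases hdl : d ≤ ell lg j
      · rw [if_pos hdl]
        have h0 : n - (n + 1) = 0 := by omega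
        rw [h0, zero_pow (by omega), mul_zero]
        exact Nat.zero_le _
      · rw [if_neg hdl]
        exact hd.resolve_left hdl)
  -- the milestones
  obtain ⟨C, hC⟩ : ∃ C : Fin ((n + 1) ^ 2) → (j : ℕ) → Fin (Q j) → Fin (m + 2) → Fin n,
      ∀ x j (_ : j < J) (i : Fin (z j)), ∃ c i', C x j c i' = R x j i := by
    refine ⟨fun x j c i' => if h : j < J then
      R x j (Fin.cast (hz1 j h).symm (finProdFinEquiv (c, i'))) else s, ?_⟩
    intro x j hj i
    refine ⟨(finProdFinEquiv.symm (Fin.cast (hz1 j hj) i)).1,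
      (finProdFinEquiv.symm (Fin.cast (hz1 j hj) i)).2, ?_⟩
    refine (dif_pos hj).trans ?_
    congr 1
    rw [Prod.mk.eta, Equiv.apply_symm_apply]
    rfl
  -- the landmarks
  let L : Fin ((n + 1) ^ 2) → Fin (m + 2) → Fin n := fun x =>
    (Fin.cons s (Fin.cons t (fun i : Fin m => R x J (Fin.cast hz2.symm i))) : Fin (m + 2) → Fin n)
  obtain ⟨M, out, T, hT1, hT, hS, hrun⟩ := exists_iter_mach (m := m + 2) (by omega : 0 < n) C J L
    0 1
  have hsound : ∀ G, M.run G T out = true → Reach G s t := by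
    intro G hG
    obtain ⟨x, hx⟩ := (hrun G).1 hG
    exact Rel_hops_sound (C x) G (L x) 0 1 hx
  refine ⟨M, out, T, hT1, hT, hS, ?_⟩
  intro G
  constructor
  · rintro ⟨d', hd', hwalk⟩
    obtain ⟨l, p, hl, hinj, h0, h1, hp⟩ := exists_short G s t hwalk
    obtain ⟨x, hx⟩ := hR l p hinj
    have hCx : ∀ j < J, ∀ a, a + (ell lg j / lg + 1) ≤ l + 1 →
        ∃ c i b, a ≤ b ∧ b < a + (ell lg j / lg + 1) ∧ C x j c i = p b := by
      intro j hj a ha
      obtain ⟨i, b, e1, e2, e3⟩ := hx j hj.le a (by rw [hw1 j hj]; exact ha)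
      rw [hw1 j hj] at e2
      obtain ⟨c, i', e4⟩ := hC x j hj i
      exact ⟨c, i', b, e1, e2, e4.trans e3⟩
    refine (hrun G).2 ⟨x, ?_⟩
    by_cases hdl : d ≤ ell lg J
    · refine Relation.ReflTransGen.single ?_
      have h2 := Rel_complete hlg (C x) G p hp hCx J le_rfl 0 l (Nat.zero_le _) le_rfl (by omega)
      rw [h0, h1] at h2
      exact h2
    · refine Rel_hops hlg (C x) G p hp hCx (L x) 0 1 h0.symm h1.symm ?_
      intro a ha
      obtain ⟨i, b, e1, e2, e3⟩ := hx J le_rfl a (by rw [hw2, if_neg hdl]; exact ha)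
      rw [hw2, if_neg hdl] at e2
      exact ⟨(Fin.cast hz2 i).succ.succ, b, e1, e2, e3⟩
  · intro hG
    by_contra h1
    exact hG (hsound G (by simpa using h1))

end MTX
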