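import Pool.Agent.Lib.MTX.Reveal
import Pool.Agent.Lib.MTX.AMach

/-!
# MTX.BadA (MP_e46137_lc): few paths contain a large minimal member
-/

namespace MTX

open Classical Finset

variable {r N S : ℕ}

private theorem geom_tail {μ : ℝ} (hμ0 : 0 ≤ μ) (hμ1 : μ ≤ 1 / 2) (m w : ℕ) :
    ∑ a ∈ Icc (m + 1) w, μ ^ a ≤ 2 * μ ^ (m + 1) := by
  have h1 : ∑ a ∈ Icc (m + 1) w, μ ^ a = ∑ b ∈ range (w + 1 - (m + 1)), μ ^ (m + 1 + b) := by
    rw [← Finset.sum_Ico_eq_sum_range]
    rfl
  rw [h1]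
  have h2 : ∀ b ∈ range (w + 1 - (m + 1)), μ ^ (m + 1 + b) ≤ μ ^ (m + 1) * (1 / 2) ^ b := by
    intro b _
    rw [pow_add]
    exact mul_le_mul_of_nonneg_left (pow_le_pow_left₀ hμ0 hμ1 b) (pow_nonneg hμ0 _)
  refine (sum_le_sum h2).trans ?_
  rw [← mul_sum, mul_comm]
  exact mul_le_mul_of_nonneg_right (sum_geometric_two_le _) (pow_nonneg hμ0 _)

private theorem through_card (W : PC N) {a : ℕ} (ha : 1 ≤ a) (hW : size W = a) :
    ((univ.filter (fun P : Pth r N => ∀ v ∈ supp W, ∃ j, P j = v)).card : ℝ) *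
      ((N - r : ℕ) : ℝ) ^ a ≤ (r : ℝ) ^ a * (Fintype.card (Pth r N) : ℝ) := by
  have hcard : (supp W).card = a := hW
  have hne : (supp W).Nonempty := by
    rw [← card_pos, hcard]
    exact ha
  set ρ : PA r N := fun _ => none with hρ
  have hOm : Om ρ = (univ : Finset (Pth r N)) := by
    unfold Om
    refine filter_true_of_mem fun P _ j v h => ?_
    rw [hρ] at h
    exact absurd h (by simp)
  have h := reveal_plain (r := r) (N := N) (ρ := ρ) hne
    (E := univ.filter (fun P : Pth r N => ∀ v ∈ supp W, ∃ j, P j = v))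
    (by rw [hOm]; exact filter_subset _ _)
    (fun j v h => by rw [hρ] at h; exact absurd h (by simp))
    (fun P hP => (mem_filter.1 hP).2) (Γ := 1) zero_le_one
    (fun pos hinj hnone => by
      rw [one_mul]
      have h1 : (univ.filter (fun P : Pth r N => ∀ v ∈ supp W, ∃ j, P j = v)).filter
          (fun P => ∀ v ∈ supp W, P (pos v) = v) ⊆ Om (ext ρ (supp W) pos) := by
        intro P hP
        rw [mem_om_ext ρ hinj hnone, hOm]
        exact ⟨mem_univ _, (mem_filter.1 hP).2⟩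
      exact_mod_cast card_le_card h1)
  rw [hcard, one_mul, hOm, card_univ] at h
  exact h

/-- A minimal member `W` is a minimal extension of the empty colouring (`minExt_emp`; the empty
colouring is not a member since `1 ≤ size W`), so there are at most `B ^ a` of size `a` in each
family, `w₁ < a ≤ w`; the paths containing its `a` vertices are at most a fraction
`(r / (N - r)) ^ a` (`reveal_plain` with `ρ = none`, `E` = these paths, `Γ = 1`).
`∑_{a > w₁} μ ^ a ≤ 2 μ ^ (w₁ + 1)`. -/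
theorem bad1_card {w w₁ θ B : ℕ} {μ : ℝ} (F : Fin S → Finset (PC N))
    (hF : ∀ i, ClosedW w θ (F i))
    (hext : ∀ i D, D ∉ F i → ∀ a, 1 ≤ a → size D + a ≤ w →
      (univ.filter (fun A : PC N => MinExt (F i) D A ∧ size A = a)).card ≤ B ^ a)
    (hrN : r < N) (hμ : (B : ℝ) * r ≤ μ * ((N - r : ℕ) : ℝ)) (hμ0 : 0 ≤ μ) (hμ1 : μ ≤ 1 / 2) :
    ((bad1 w₁ F : Finset (Pth r N)).card : ℝ) ≤
      S * (2 * μ ^ (w₁ + 1)) * (Fintype.card (Pth r N) : ℝ) := by
  have hNr : (0 : ℝ) < ((N - r : ℕ) : ℝ) := by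
    have : 0 < N - r := Nat.sub_pos_of_lt hrN
    exact_mod_cast this
  let M : Fin S → ℕ → Finset (PC N) := fun i a =>
    univ.filter (fun A : PC N => MinExt (F i) (emp N) A ∧ size A = a)
  let E : PC N → Finset (Pth r N) := fun W =>
    univ.filter (fun P : Pth r N => ∀ v ∈ supp W, ∃ j, P j = v)
  let G : Fin S → Finset (Pth r N) := fun i =>
    if emp N ∈ F i then ∅ else (Icc (w₁ + 1) w).biUnion fun a => (M i a).biUnion E
  have hsub : (bad1 w₁ F : Finset (Pth r N)) ⊆ univ.biUnion G := by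
    intro P hP
    obtain ⟨q, hq, i, W, hW, hWP, hsz⟩ := (mem_filter.1 hP).2
    have hemp : emp N ∉ F i := by
      intro h
      have h1 := hW.2 _ h (fun v c hc => by simp [emp] at hc)
      rw [← h1, size_emp] at hsz
      omega
    refine mem_biUnion.2 ⟨i, mem_univ _, ?_⟩
    simp only [G, if_neg hemp]
    refine mem_biUnion.2 ⟨size W, mem_Icc.2 ⟨hsz, (hF i).1 W hW.1⟩, ?_⟩
    refine mem_biUnion.2 ⟨W, mem_filter.2 ⟨mem_univ _, minExt_emp hW, rfl⟩, ?_⟩
    refine mem_filter.2 ⟨mem_univ _, fun v hv => ?_⟩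
    obtain ⟨c, hc⟩ := Option.ne_none_iff_exists'.1 (mem_filter.1 hv).2
    obtain ⟨j, hj, -⟩ := (sub_UP_iff P q W).1 hWP v c hc
    exact ⟨j, hj⟩
  have hG : ∀ i, ((G i).card : ℝ) ≤ 2 * μ ^ (w₁ + 1) * (Fintype.card (Pth r N) : ℝ) := by
    intro i
    by_cases hemp : emp N ∈ F i
    · simp only [G, if_pos hemp, card_empty, Nat.cast_zero]
      positivity
    · simp only [G, if_neg hemp]
      have h1 : (((Icc (w₁ + 1) w).biUnion fun a => (M i a).biUnion E).card : ℝ) ≤
          ∑ a ∈ Icc (w₁ + 1) w, (((M i a).biUnion E).card : ℝ) := by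
        exact_mod_cast (card_biUnion_le :
          ((Icc (w₁ + 1) w).biUnion fun a => (M i a).biUnion E).card ≤ _)
      refine h1.trans ?_
      have h2 : ∀ a ∈ Icc (w₁ + 1) w, (((M i a).biUnion E).card : ℝ) ≤
          μ ^ a * (Fintype.card (Pth r N) : ℝ) := by
        intro a ha
        rw [mem_Icc] at ha
        have ha1 : 1 ≤ a := by omega
        have hMc : ((M i a).card : ℝ) ≤ (B : ℝ) ^ a := by
          have := hext i (emp N) hemp a ha1 (by rw [size_emp]; omega)
          exact_mod_cast this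
        have h3 : (((M i a).biUnion E).card : ℝ) ≤ ∑ W ∈ M i a, ((E W).card : ℝ) := by
          exact_mod_cast (card_biUnion_le : ((M i a).biUnion E).card ≤ _)
        refine h3.trans ?_
        have hpow : (0 : ℝ) < ((N - r : ℕ) : ℝ) ^ a := pow_pos hNr a
        set C : ℝ := (Fintype.card (Pth r N) : ℝ) with hC
        have hC0 : 0 ≤ C := Nat.cast_nonneg _
        have h4 : ∀ W ∈ M i a, ((E W).card : ℝ) ≤ (r : ℝ) ^ a * C / ((N - r : ℕ) : ℝ) ^ a := by
          intro W hW
          rw [le_div_iff₀ hpow]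
          exact through_card W ha1 (mem_filter.1 hW).2.2
        refine (sum_le_sum h4).trans ?_
        rw [sum_const, nsmul_eq_mul]
        have h5 : (0 : ℝ) ≤ (r : ℝ) ^ a * C / ((N - r : ℕ) : ℝ) ^ a := by positivity
        refine (mul_le_mul_of_nonneg_right hMc h5).trans ?_
        rw [mul_div_assoc', div_le_iff₀ hpow]
        have h6 : ((B : ℝ) * r) ^ a ≤ (μ * ((N - r : ℕ) : ℝ)) ^ a :=
          pow_le_pow_left₀ (by positivity) hμ a
        rw [mul_pow, mul_pow] at h6
        calc (B : ℝ) ^ a * ((r : ℝ) ^ a * C) = ((B : ℝ) ^ a * (r : ℝ) ^ a) * C := by ring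
          _ ≤ (μ ^ a * ((N - r : ℕ) : ℝ) ^ a) * C := mul_le_mul_of_nonneg_right h6 hC0
          _ = μ ^ a * C * ((N - r : ℕ) : ℝ) ^ a := by ring
      refine (sum_le_sum h2).trans ?_
      rw [← sum_mul]
      exact mul_le_mul_of_nonneg_right (geom_tail hμ0 hμ1 w₁ w) (Nat.cast_nonneg _)
  have h7 : ((bad1 w₁ F : Finset (Pth r N)).card : ℝ) ≤ ∑ i : Fin S, ((G i).card : ℝ) := by
    have := (card_le_card hsub).trans card_biUnion_le
    exact_mod_cast this
  refine h7.trans ((sum_le_sum fun i _ => hG i).trans ?_)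
  rw [sum_const, card_univ, Fintype.card_fin, nsmul_eq_mul]
  exact le_of_eq (by ring)

end MTX
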