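import Pool.Agent.Lib.MTX.Reveal
import Pool.Agent.Lib.MTX.AMach

/-!
# MTX.BadB (MP_e46137_lc): few paths where the greedy union becomes large
-/

namespace MTX

open Classical Finset

variable {r N S : ℕ}

/-- the paths of `bad2` for a fixed `q` and given assigned vertices -/
noncomputable def badq (w₁ : ℕ) (F : Fin S → Finset (PC N)) (q : ℕ) (ρ : PA r N) :
    Finset (Pth r N) :=
  (Om ρ).filter (fun P => (∀ i W, IsMin (F i) W → Sub W (UP P q) → size W ≤ w₁) ∧
    ∀ D, Sub D (UP P q) → size D ≤ 2 * w₁ → ∃ i, (∃ W ∈ F i, Sub W (UP P q)) ∧ D ∉ F i)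

namespace BadBAux

theorem mem_badq {w₁ : ℕ} {F : Fin S → Finset (PC N)} {q : ℕ} {ρ : PA r N} {P : Pth r N} :
    P ∈ badq w₁ F q ρ ↔ P ∈ Om ρ ∧ (∀ i W, IsMin (F i) W → Sub W (UP P q) → size W ≤ w₁) ∧
      ∀ D, Sub D (UP P q) → size D ≤ 2 * w₁ → ∃ i, (∃ W ∈ F i, Sub W (UP P q)) ∧ D ∉ F i := by
  unfold badq
  rw [mem_filter]

theorem geo (m : ℕ) : ∑ a ∈ Icc 1 m, (1 / 4 : ℝ) ^ a ≤ 1 - (1 / 4 : ℝ) ^ m := by
  induction m with
  | zero => simp
  | succ m ih =>
    rw [sum_Icc_succ_top (by omega)]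
    have h : (0 : ℝ) ≤ (1 / 4 : ℝ) ^ m := by positivity
    rw [pow_succ]
    linarith

theorem coef {S a : ℕ} (hS : 1 ≤ S) (ha : 1 ≤ a) :
    (S : ℝ) * (1 / (4 * (S : ℝ))) ^ a ≤ (1 / 4 : ℝ) ^ a := by
  have hS' : (1 : ℝ) ≤ S := by exact_mod_cast hS
  have hS0 : (0 : ℝ) < S := by linarith
  have h1 : (1 / (4 * (S : ℝ))) ^ a = (1 / 4 : ℝ) ^ a * (1 / (S : ℝ)) ^ a := by
    rw [← mul_pow]
    congr 1
    field_simp
  have h2 : (S : ℝ) * (1 / (S : ℝ)) ^ a ≤ 1 := by
    obtain ⟨b, rfl⟩ : ∃ b, a = b + 1 := ⟨a - 1, by omega⟩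
    have h3 : (1 / (S : ℝ)) ^ b ≤ 1 := pow_le_one₀ (by positivity) (by
      rw [div_le_one hS0]
      exact hS')
    calc (S : ℝ) * (1 / (S : ℝ)) ^ (b + 1) = (1 / (S : ℝ)) ^ b := by
          rw [pow_succ]
          field_simp
      _ ≤ 1 := h3
  have h4 : (0 : ℝ) ≤ (1 / 4 : ℝ) ^ a := by positivity
  calc (S : ℝ) * (1 / (4 * (S : ℝ))) ^ a = (1 / 4 : ℝ) ^ a * ((S : ℝ) * (1 / (S : ℝ)) ^ a) := by
        rw [h1]
        ring
    _ ≤ (1 / 4 : ℝ) ^ a * 1 := mul_le_mul_of_nonneg_left h2 h4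
    _ = _ := mul_one _

/-- the step: the paths of `badq` above a fixed minimal extension `A` -/
theorem one_ext {w₁ : ℕ} {μ : ℝ} (F : Fin S → Finset (PC N)) {B : ℕ}
    (hrN : r < N) (hμ0 : 0 < μ) (q : ℕ) (ρ : PA r N) {A : PC N} {a : ℕ} (ha : 1 ≤ a)
    (hAs : size A = a) (hdisj : Disj (colr ρ q) A)
    (ih : ∀ ρ' : PA r N, asz ρ' = asz ρ + a → ((badq w₁ F q ρ').card : ℝ) ≤
      (4 * (S : ℝ) * μ) ^ (w₁ - (asz ρ + a)) * ((Om ρ').card : ℝ)) :
    (((badq w₁ F q ρ).filter (fun P => Sub A (UP P q))).card : ℝ) * ((N - r : ℕ) : ℝ) ^ a ≤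
      (4 * (S : ℝ) * μ) ^ (w₁ - (asz ρ + a)) * (r : ℝ) ^ a * ((Om ρ).card : ℝ) := by
  have hsc : (supp A).card = a := hAs
  have hne : (supp A).Nonempty := by
    rw [← card_pos]
    omega
  have h := reveal_plain (ρ := ρ) (A := supp A) hne
    (E := (badq w₁ F q ρ).filter (fun P => Sub A (UP P q))) ?_ ?_ ?_
    (Γ := (4 * (S : ℝ) * μ) ^ (w₁ - (asz ρ + a))) (by positivity) ?_
  · rw [hsc] at h
    exact h
  · intro P hP
    exact (mem_badq.1 (mem_filter.1 hP).1).1
  · intro j v hjv hv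
    have h1 := colr_ne_none hjv q
    rcases hdisj v with h2 | h2
    · exact h1 h2
    · exact (mem_filter.1 hv).2 h2
  · intro P hP v hv
    have h1 := (sub_UP_iff P q A).1 (mem_filter.1 hP).2
    obtain ⟨c, hc⟩ := Option.ne_none_iff_exists'.1 (mem_filter.1 hv).2
    obtain ⟨j, hj, -⟩ := h1 v c hc
    exact ⟨j, hj⟩
  · intro pos hinj hnone
    have h1 := ih (ext ρ (supp A) pos) (by rw [asz_ext ρ hinj hnone, hsc])
    refine le_trans ?_ h1
    have h2 : ((badq w₁ F q ρ).filter (fun P => Sub A (UP P q))).filter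
        (fun P => ∀ v ∈ supp A, P (pos v) = v) ⊆ badq w₁ F q (ext ρ (supp A) pos) := by
      intro P hP
      rw [mem_filter, mem_filter, mem_badq] at hP
      obtain ⟨⟨⟨h3, h4, h5⟩, -⟩, h6⟩ := hP
      rw [mem_badq]
      exact ⟨(mem_om_ext ρ hinj hnone P).2 ⟨h3, h6⟩, h4, h5⟩
    exact_mod_cast card_le_card h2

end BadBAux

open BadBAux

/-- Induction on `w₁ - asz ρ` (truncated).  `w₁ ≤ asz ρ`: trivial.  Otherwise, for `P ∈ badq ρ`, put
`D = colr ρ q` (size `≤ asz ρ < w₁`, below `UP P q`): some family `F i` has a member below `UP P q`,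
hence a minimal member `W` of size `≤ w₁`, and `D ∉ F i`; `join D W ∈ F i` (`ClosedW.up`, size
`≤ 2 w₁ ≤ w`), so there is a minimal extension `A` of `D`, `Sub A W`, `1 ≤ size A ≤ w₁`.  For fixed
`i` and `A` (at most `S * B ^ a` with `size A = a`) `reveal_plain` with `supp A`, `E` = the paths
`P ∈ badq ρ` with `Sub A (UP P q)`, and `Γ = x ^ (w₁ - (asz ρ + a))`, `x = 4 S μ` (the paths of `E`
through the positions `pos` belong to `badq (ext ρ (supp A) pos)`).  The sum is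
`≤ ∑_{a ≥ 1} S μ ^ a x ^ (w₁ - asz ρ - a) ≤ x ^ (w₁ - asz ρ) ∑_{a ≥ 1} S (1 / (4 S)) ^ a` because
`x ≤ 1`. -/
theorem badq_card {w w₁ θ B : ℕ} {μ : ℝ} (F : Fin S → Finset (PC N))
    (hF : ∀ i, ClosedW w θ (F i)) (hS : 1 ≤ S) (hw : 2 * w₁ ≤ w)
    (hext : ∀ i D, D ∉ F i → ∀ a, 1 ≤ a → size D + a ≤ w →
      (univ.filter (fun A : PC N => MinExt (F i) D A ∧ size A = a)).card ≤ B ^ a)
    (hrN : r < N) (hμ : (B : ℝ) * r ≤ μ * ((N - r : ℕ) : ℝ)) (hμ0 : 0 < μ)
    (hμ1 : 4 * (S : ℝ) * μ ≤ 1) (q : ℕ) (ρ : PA r N) :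
    ((badq w₁ F q ρ).card : ℝ) ≤ (4 * (S : ℝ) * μ) ^ (w₁ - asz ρ) * ((Om ρ).card : ℝ) := by
  set x : ℝ := 4 * (S : ℝ) * μ with hx
  have hS' : (1 : ℝ) ≤ S := by exact_mod_cast hS
  have hS0 : (0 : ℝ) < S := by linarith
  have hx0 : 0 < x := by positivity
  have hNr : (0 : ℝ) < ((N - r : ℕ) : ℝ) := by
    have : 0 < N - r := by omega
    exact_mod_cast this
  induction hn : w₁ - asz ρ using Nat.strong_induction_on generalizing ρ with
  | _ n ih =>
    rcases Nat.eq_zero_or_pos n with h0 | hpos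
    · subst h0
      rw [pow_zero, one_mul]
      exact_mod_cast card_le_card (fun P hP => (mem_badq.1 hP).1)
    · set D : PC N := colr ρ q with hD
      have hDs : size D ≤ asz ρ := size_colr_le ρ q
      have hDw : size D < w₁ := by omega
      let 𝒜 : Fin S → ℕ → Finset (PC N) := fun i a =>
        univ.filter (fun A : PC N => MinExt (F i) D A ∧ size A = a)
      let E : PC N → Finset (Pth r N) := fun A =>
        (badq w₁ F q ρ).filter (fun P => Sub A (UP P q))
      let I : Finset (Fin S) := univ.filter (fun i => D ∉ F i)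
      have hcov : badq w₁ F q ρ ⊆ I.biUnion (fun i => (Icc 1 w₁).biUnion
          (fun a => (𝒜 i a).biUnion E)) := by
        intro P hP
        obtain ⟨h1, h2, h3⟩ := mem_badq.1 hP
        have hDP : Sub D (UP P q) := colr_sub h1 q
        obtain ⟨i, ⟨W, hWF, hWP⟩, hDF⟩ := h3 D hDP (by omega)
        obtain ⟨W', hW', hW'W⟩ := exists_min hWF
        have hW'P : Sub W' (UP P q) := sub_trans hW'W hWP
        have hW's := h2 i W' hW' hW'P
        have hjoin : join D W' ∈ F i := by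
          refine (hF i).up hW'.1 (sub_join_right hDP hW'P) ?_
          have := size_join_le D W'
          omega
        obtain ⟨A, hA, hAW, hA1⟩ := exists_minExt hDF hjoin
        have hAs := size_mono hAW
        rw [mem_biUnion]
        refine ⟨i, mem_filter.2 ⟨mem_univ _, hDF⟩, ?_⟩
        rw [mem_biUnion]
        refine ⟨size A, mem_Icc.2 ⟨hA1, by omega⟩, ?_⟩
        rw [mem_biUnion]
        exact ⟨A, mem_filter.2 ⟨mem_univ _, hA, rfl⟩,
          mem_filter.2 ⟨hP, sub_trans hAW hW'P⟩⟩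
      have hone : ∀ i ∈ I, ∀ a ∈ Icc 1 w₁, (((𝒜 i a).biUnion E).card : ℝ) ≤
          x ^ n * (1 / (4 * (S : ℝ))) ^ a * ((Om ρ).card : ℝ) := by
        intro i hi a ha
        rw [mem_Icc] at ha
        have hDF : D ∉ F i := (mem_filter.1 hi).2
        have hEA : ∀ A ∈ 𝒜 i a, ((E A).card : ℝ) ≤
            x ^ (w₁ - (asz ρ + a)) * (r : ℝ) ^ a * ((Om ρ).card : ℝ) /
              ((N - r : ℕ) : ℝ) ^ a := by
          intro A hA
          obtain ⟨-, hA1, hA2⟩ := mem_filter.1 hA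
          rw [le_div_iff₀ (by positivity)]
          refine one_ext F (B := B) hrN hμ0 q ρ ha.1 hA2 hA1.1 ?_
          intro ρ' hρ'
          have := ih (w₁ - asz ρ') (by omega) ρ' rfl
          rw [hρ'] at this
          exact this
        have hcA : ((𝒜 i a).card : ℝ) ≤ (B : ℝ) ^ a := by
          have := hext i D hDF a ha.1 (by omega)
          exact_mod_cast this
        calc (((𝒜 i a).biUnion E).card : ℝ) ≤ ∑ A ∈ 𝒜 i a, ((E A).card : ℝ) := by
              exact_mod_cast card_biUnion_le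
          _ ≤ ∑ _A ∈ 𝒜 i a, x ^ (w₁ - (asz ρ + a)) * (r : ℝ) ^ a * ((Om ρ).card : ℝ) /
              ((N - r : ℕ) : ℝ) ^ a := sum_le_sum hEA
          _ = ((𝒜 i a).card : ℝ) * (x ^ (w₁ - (asz ρ + a)) * (r : ℝ) ^ a *
              ((Om ρ).card : ℝ) / ((N - r : ℕ) : ℝ) ^ a) := by
              rw [sum_const, nsmul_eq_mul]
          _ ≤ (B : ℝ) ^ a * (x ^ (w₁ - (asz ρ + a)) * (r : ℝ) ^ a *
              ((Om ρ).card : ℝ) / ((N - r : ℕ) : ℝ) ^ a) :=
              mul_le_mul_of_nonneg_right hcA (by positivity)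
          _ = (((B : ℝ) * r) ^ a / ((N - r : ℕ) : ℝ) ^ a) * (x ^ (w₁ - (asz ρ + a)) *
              ((Om ρ).card : ℝ)) := by
              rw [mul_pow]
              ring
          _ ≤ μ ^ a * (x ^ (w₁ - (asz ρ + a)) * ((Om ρ).card : ℝ)) := by
              refine mul_le_mul_of_nonneg_right ?_ (by positivity)
              rw [div_le_iff₀ (by positivity), ← mul_pow]
              exact pow_le_pow_left₀ (by positivity) hμ a
          _ = (x ^ (w₁ - (asz ρ + a)) * x ^ a) * (1 / (4 * (S : ℝ))) ^ a *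
              ((Om ρ).card : ℝ) := by
              have h1 : μ ^ a = x ^ a * (1 / (4 * (S : ℝ))) ^ a := by
                rw [← mul_pow, hx]
                congr 1
                field_simp
              rw [h1]
              ring
          _ ≤ x ^ n * (1 / (4 * (S : ℝ))) ^ a * ((Om ρ).card : ℝ) := by
              refine mul_le_mul_of_nonneg_right (mul_le_mul_of_nonneg_right ?_
                (by positivity)) (by positivity)
              rw [← pow_add]
              exact pow_le_pow_of_le_one hx0.le hμ1 (by omega)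
      calc ((badq w₁ F q ρ).card : ℝ)
          ≤ ((I.biUnion (fun i => (Icc 1 w₁).biUnion (fun a => (𝒜 i a).biUnion E))).card : ℝ) := by
            exact_mod_cast card_le_card hcov
        _ ≤ ∑ i ∈ I, (((Icc 1 w₁).biUnion (fun a => (𝒜 i a).biUnion E)).card : ℝ) := by
            exact_mod_cast card_biUnion_le
        _ ≤ ∑ i ∈ I, ∑ a ∈ Icc 1 w₁, (((𝒜 i a).biUnion E).card : ℝ) := by
            refine sum_le_sum fun i _ => ?_
            exact_mod_cast card_biUnion_le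
        _ ≤ ∑ i ∈ I, ∑ a ∈ Icc 1 w₁, x ^ n * (1 / (4 * (S : ℝ))) ^ a * ((Om ρ).card : ℝ) :=
            sum_le_sum fun i hi => sum_le_sum fun a ha => hone i hi a ha
        _ = (I.card : ℝ) * ∑ a ∈ Icc 1 w₁, x ^ n * (1 / (4 * (S : ℝ))) ^ a *
              ((Om ρ).card : ℝ) := by
            rw [sum_const, nsmul_eq_mul]
        _ ≤ (S : ℝ) * ∑ a ∈ Icc 1 w₁, x ^ n * (1 / (4 * (S : ℝ))) ^ a *
              ((Om ρ).card : ℝ) := by
            refine mul_le_mul_of_nonneg_right ?_ (sum_nonneg fun a _ => by positivity)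
            have : I.card ≤ S := by
              have := card_filter_le (univ : Finset (Fin S)) (fun i => D ∉ F i)
              rw [card_univ, Fintype.card_fin] at this
              exact this
            exact_mod_cast this
        _ = (∑ a ∈ Icc 1 w₁, (S : ℝ) * (1 / (4 * (S : ℝ))) ^ a) * (x ^ n *
              ((Om ρ).card : ℝ)) := by
            rw [mul_sum, sum_mul]
            refine sum_congr rfl fun a _ => ?_
            ring
        _ ≤ 1 * (x ^ n * ((Om ρ).card : ℝ)) := by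
            refine mul_le_mul_of_nonneg_right ?_ (by positivity)
            calc ∑ a ∈ Icc 1 w₁, (S : ℝ) * (1 / (4 * (S : ℝ))) ^ a
                ≤ ∑ a ∈ Icc 1 w₁, (1 / 4 : ℝ) ^ a :=
                  sum_le_sum fun a ha => coef hS (mem_Icc.1 ha).1
              _ ≤ 1 - (1 / 4 : ℝ) ^ w₁ := geo w₁
              _ ≤ 1 := by
                  have : (0 : ℝ) ≤ (1 / 4 : ℝ) ^ w₁ := by positivity
                  linarith
        _ = x ^ n * ((Om ρ).card : ℝ) := one_mul _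

theorem bad2_card {w w₁ θ B : ℕ} {μ : ℝ} (F : Fin S → Finset (PC N))
    (hF : ∀ i, ClosedW w θ (F i)) (hS : 1 ≤ S) (hw : 2 * w₁ ≤ w)
    (hext : ∀ i D, D ∉ F i → ∀ a, 1 ≤ a → size D + a ≤ w →
      (univ.filter (fun A : PC N => MinExt (F i) D A ∧ size A = a)).card ≤ B ^ a)
    (hrN : r < N) (hμ : (B : ℝ) * r ≤ μ * ((N - r : ℕ) : ℝ)) (hμ0 : 0 < μ)
    (hμ1 : 4 * (S : ℝ) * μ ≤ 1) :
    ((bad2 w₁ F : Finset (Pth r N)).card : ℝ) ≤
      (r + 1) * (4 * (S : ℝ) * μ) ^ w₁ * (Fintype.card (Pth r N) : ℝ) := by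
  have h0 : ∀ q : ℕ, ((badq w₁ F q (fun _ => none : PA r N)).card : ℝ) ≤
      (4 * (S : ℝ) * μ) ^ w₁ * (Fintype.card (Pth r N) : ℝ) := by
    intro q
    have h1 := badq_card F hF hS hw hext hrN hμ hμ0 hμ1 q (fun _ => none : PA r N)
    have h2 : asz (fun _ => none : PA r N) = 0 := by
      unfold asz
      simp
    have h3 : (Om (fun _ => none : PA r N)) = univ := by
      ext P
      unfold Om
      simp
    rw [h2, h3, card_univ, Nat.sub_zero] at h1
    exact h1
  have hcov : (bad2 w₁ F : Finset (Pth r N)) ⊆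
      (range (r + 1)).biUnion (fun q => badq w₁ F q (fun _ => none : PA r N)) := by
    intro P hP
    unfold bad2 at hP
    rw [mem_filter] at hP
    obtain ⟨-, h1, q, hq, h2⟩ := hP
    rw [mem_biUnion]
    refine ⟨q, mem_range.2 (by omega), mem_badq.2 ⟨?_, ?_, h2⟩⟩
    · unfold Om
      simp
    · intro i W hW hWP
      by_contra hcon
      refine h1 (mem_filter.2 ⟨mem_univ _, q, hq, i, W, hW, hWP, by omega⟩)
  calc ((bad2 w₁ F : Finset (Pth r N)).card : ℝ)
      ≤ (((range (r + 1)).biUnion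
          (fun q => badq w₁ F q (fun _ => none : PA r N))).card : ℝ) := by
        exact_mod_cast card_le_card hcov
    _ ≤ ∑ q ∈ range (r + 1), ((badq w₁ F q (fun _ => none : PA r N)).card : ℝ) := by
        exact_mod_cast card_biUnion_le
    _ ≤ ∑ _q ∈ range (r + 1), (4 * (S : ℝ) * μ) ^ w₁ * (Fintype.card (Pth r N) : ℝ) :=
        sum_le_sum fun q _ => h0 q
    _ = (r + 1) * (4 * (S : ℝ) * μ) ^ w₁ * (Fintype.card (Pth r N) : ℝ) := by
        rw [sum_const, card_range, nsmul_eq_mul]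
        push_cast
        ring

end MTX
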