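import Mathlib

/-!
# MTX.Basic (MP_e46137_lc): partial colourings, closed families, paths through unlayered vertices

`N` inner vertices.  A path is an injective sequence of `r` inner vertices (positions
`0, …, r - 1`); it has `r + 1` arcs `0, …, r`, the arc `q` joins the positions `q - 1` and `q`
(position `-1` is the source, position `r` the target).
-/

namespace MTX

open Classical Finset

/-- a path: `r` different inner vertices -/
abbrev Pth (r N : ℕ) := Fin r ↪ Fin N

/-- a colouring of all inner vertices (`true`: side of the source, `false`: side of the target) -/
abbrev Col (N : ℕ) := Fin N → Bool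

/-- a partial colouring -/
abbrev PC (N : ℕ) := Fin N → Option Bool

variable {r N : ℕ}

/-- number of coloured vertices -/
noncomputable def size (U : PC N) : ℕ := (univ.filter (fun v => U v ≠ none)).card

/-- the set of coloured vertices -/
noncomputable def supp (U : PC N) : Finset (Fin N) := univ.filter (fun v => U v ≠ none)

/-- the colouring `χ` extends the partial colouring `U` -/
def Agree (U : PC N) (χ : Col N) : Prop := ∀ v c, U v = some c → χ v = c

/-- `χ` extends a member of the family -/
def Hits (F : Finset (PC N)) (χ : Col N) : Prop := ∃ U ∈ F, Agree U χ

/-- `U` is a part of `W` -/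
def Sub (U W : PC N) : Prop := ∀ v c, U v = some c → W v = some c

/-- Closed families of partial colourings of size at most `w`: if at most `θ` colourings extend `U`
(of size at most `w`) and no member of `F`, then `U ∈ F`. -/
def ClosedW (w θ : ℕ) (F : Finset (PC N)) : Prop :=
  (∀ U ∈ F, size U ≤ w) ∧
  ∀ U, size U ≤ w →
    (univ.filter (fun χ : Col N => Agree U χ ∧ ¬ Hits F χ)).card ≤ θ → U ∈ F

/-- the nowhere defined colouring -/
def emp (N : ℕ) : PC N := fun _ => none

/-- union; the first colouring has priority -/
def join (D A : PC N) : PC N := fun v => if D v = none then A v else D v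

/-- no common coloured vertex -/
def Disj (D A : PC N) : Prop := ∀ v, D v = none ∨ A v = none

/-- minimal members -/
def IsMin (F : Finset (PC N)) (W : PC N) : Prop := W ∈ F ∧ ∀ U ∈ F, Sub U W → U = W

/-- `A` is a minimal extension of `D` inside the family `F` -/
def MinExt (F : Finset (PC N)) (D A : PC N) : Prop :=
  Disj D A ∧ join D A ∈ F ∧ ∀ A', Sub A' A → join D A' ∈ F → A' = A

/-- the path `P` coloured with its first `q` vertices on the side of the source -/
noncomputable def UP (P : Pth r N) (q : ℕ) : PC N := fun v =>
  if ∃ j : Fin r, (j : ℕ) < q ∧ P j = v then some true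
  else if ∃ j : Fin r, P j = v then some false else none

/-- partial assignments of vertices to positions -/
abbrev PA (r N : ℕ) := Fin r → Option (Fin N)

/-- the paths through the assigned vertices -/
noncomputable def Om (ρ : PA r N) : Finset (Pth r N) :=
  univ.filter (fun P => ∀ j v, ρ j = some v → P j = v)

/-- number of assigned positions -/
noncomputable def asz (ρ : PA r N) : ℕ := (univ.filter (fun j => ρ j ≠ none)).card

/-- the assigned vertices coloured: positions `< q` true, the others false -/
noncomputable def colr (ρ : PA r N) (q : ℕ) : PC N := fun v =>
  if ∃ j : Fin r, (j : ℕ) < q ∧ ρ j = some v then some true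
  else if ∃ j : Fin r, ρ j = some v then some false else none

end MTX
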