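import Pool.Agent.Lib.MTX.Join

/-!
# MTX.Clos (MP_e46137_lc): closed families (compare MTB.Clos, same proofs without layers)
-/

namespace MTX

open Classical Finset

variable {N : ℕ}

namespace ClosAux

theorem size_update (U : PC N) (j : Fin N) (hj : U j ≠ none) :
    size (Function.update U j none) + 1 = size U := by
  unfold size
  have h1 : (univ.filter (fun i => Function.update U j none i ≠ none)) =
      (univ.filter (fun i => U i ≠ none)).erase j := by
    ext i
    rw [mem_erase, mem_filter, mem_filter]
    by_cases hi : i = j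
    · subst hi
      simp
    · rw [Function.update_of_ne hi]
      simp [hi]
  have h2 : j ∈ univ.filter (fun i => U i ≠ none) := mem_filter.2 ⟨mem_univ _, hj⟩
  rw [h1, card_erase_of_mem h2]
  have := card_pos.2 ⟨j, h2⟩
  omega

/-- colour one vertex or do nothing -/
noncomputable def put (o : Option (Fin N × Bool)) (U : PC N) : PC N :=
  match o with
  | none => U
  | some p => Function.update U p.1 (some p.2)

end ClosAux

open ClosAux

/-- There are at most `(2 N + 1) ^ w` partial colourings of size at most `w`. -/
theorem card_small (w : ℕ) :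
    (univ.filter (fun U : PC N => size U ≤ w)).card ≤ (2 * N + 1) ^ w := by
  induction w with
  | zero =>
    rw [pow_zero, card_le_one]
    intro U hU V hV
    have key : ∀ W : PC N, W ∈ univ.filter (fun U : PC N => size U ≤ 0) → ∀ j, W j = none := by
      intro W hW j
      by_contra hj
      have h1 := (mem_filter.1 hW).2
      have h2 := size_update W j hj
      omega
    funext j
    rw [key U hU j, key V hV j]
  | succ w ih =>
    have h1 : (univ.filter (fun U : PC N => size U ≤ w + 1)) ⊆
        ((univ : Finset (Option (Fin N × Bool))) ×ˢ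
          (univ.filter (fun U : PC N => size U ≤ w))).image (fun q => put q.1 q.2) := by
      intro U hU
      have hU' := (mem_filter.1 hU).2
      rw [mem_image]
      by_cases h0 : size U ≤ w
      · exact ⟨(none, U), mem_product.2 ⟨mem_univ _, mem_filter.2 ⟨mem_univ _, h0⟩⟩, rfl⟩
      · have h2 : ∃ j, U j ≠ none := by
          by_contra hno
          push Not at hno
          apply h0
          have h3 : (univ.filter (fun j => U j ≠ none)) = ∅ := by
            rw [filter_eq_empty_iff]
            intro j _
            simp [hno j]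
          have h4 : size U = 0 := by
            unfold size
            rw [h3, card_empty]
          omega
        obtain ⟨j, hj⟩ := h2
        obtain ⟨x, hx⟩ := Option.ne_none_iff_exists'.1 hj
        refine ⟨(some (j, x), Function.update U j none), mem_product.2 ⟨mem_univ _,
          mem_filter.2 ⟨mem_univ _, ?_⟩⟩, ?_⟩
        · have := size_update U j hj
          show size (Function.update U j none) ≤ w
          omega
        · show Function.update (Function.update U j none) j (some x) = U
          rw [Function.update_idem, ← hx, Function.update_eq_self]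
    have h2 := (card_le_card h1).trans card_image_le
    rw [card_product] at h2
    have h3 : (univ : Finset (Option (Fin N × Bool))).card = 2 * N + 1 := by
      rw [card_univ, Fintype.card_option, Fintype.card_prod, Fintype.card_fin, Fintype.card_bool]
      ring
    rw [h3] at h2
    rw [pow_succ, mul_comm]
    exact h2.trans (Nat.mul_le_mul_left _ ih)

/-- Hint: among all families `F'` of partial colourings of size `≤ w` which contain `F` and satisfy
`#{χ | Hits F' χ ∧ ¬ Hits F χ} + F.card * θ ≤ F'.card * θ` take one with the largest number of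
members; a partial colouring which violates closedness could be added. -/
theorem exists_closedW (w θ : ℕ) (F : Finset (PC N)) (hF : ∀ U ∈ F, size U ≤ w) :
    ∃ F', F ⊆ F' ∧ ClosedW w θ F' ∧
    (univ.filter (fun χ : Col N => Hits F' χ ∧ ¬ Hits F χ)).card ≤ (2 * N + 1) ^ w * θ := by
  have hF0 : F ∈ (univ : Finset (Finset (PC N))).filter (fun F' => F ⊆ F' ∧
      (∀ U ∈ F', size U ≤ w) ∧
      (univ.filter (fun χ : Col N => Hits F' χ ∧ ¬ Hits F χ)).card + F.card * θ
        ≤ F'.card * θ) := by
    rw [mem_filter]
    refine ⟨mem_univ _, Subset.refl _, hF, ?_⟩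
    have h0 : (univ.filter (fun χ : Col N => Hits F χ ∧ ¬ Hits F χ)) = ∅ := by
      rw [filter_eq_empty_iff]
      intro χ _ h
      exact h.2 h.1
    rw [h0, card_empty, zero_add]
  obtain ⟨F', hF', hmax⟩ := exists_max_image _ (fun F' : Finset (PC N) => F'.card) ⟨F, hF0⟩
  rw [mem_filter] at hF'
  obtain ⟨-, hsub, hsz, hcard⟩ := hF'
  refine ⟨F', hsub, ⟨hsz, ?_⟩, ?_⟩
  · intro U hUw hU
    by_contra hUF
    have hins : insert U F' ∈ (univ : Finset (Finset (PC N))).filter (fun F' => F ⊆ F' ∧
        (∀ U ∈ F', size U ≤ w) ∧
        (univ.filter (fun χ : Col N => Hits F' χ ∧ ¬ Hits F χ)).card + F.card * θ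
          ≤ F'.card * θ) := by
      rw [mem_filter]
      refine ⟨mem_univ _, hsub.trans (subset_insert _ _), ?_, ?_⟩
      · intro W hW
        rcases mem_insert.1 hW with rfl | hW
        · exact hUw
        · exact hsz W hW
      have h1 : (univ.filter (fun χ : Col N => Hits (insert U F') χ ∧ ¬ Hits F χ)) ⊆
          (univ.filter (fun χ : Col N => Hits F' χ ∧ ¬ Hits F χ)) ∪
          (univ.filter (fun χ : Col N => Agree U χ ∧ ¬ Hits F' χ)) := by
        intro χ hχ
        rw [mem_filter] at hχ
        rw [mem_union, mem_filter, mem_filter]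
        by_cases hh : Hits F' χ
        · exact Or.inl ⟨mem_univ _, hh, hχ.2.2⟩
        · refine Or.inr ⟨mem_univ _, ?_, hh⟩
          obtain ⟨W, hW, hWχ⟩ := hχ.2.1
          rcases mem_insert.1 hW with rfl | hW
          · exact hWχ
          · exact absurd ⟨W, hW, hWχ⟩ hh
      have h2 := (card_le_card h1).trans (card_union_le _ _)
      rw [card_insert_of_notMem hUF, add_mul, one_mul]
      omega
    have h3 := hmax _ hins
    rw [card_insert_of_notMem hUF] at h3
    omega
  · have h4 : F'.card ≤ (2 * N + 1) ^ w := by
      refine le_trans (card_le_card ?_) (card_small (N := N) w)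
      intro U hU
      exact mem_filter.2 ⟨mem_univ _, hsz U hU⟩
    calc _ ≤ F'.card * θ := (Nat.le_add_right _ _).trans hcard
      _ ≤ _ := Nat.mul_le_mul_right _ h4

theorem ClosedW.up {w θ : ℕ} {F : Finset (PC N)} (hF : ClosedW w θ F) {U W : PC N} (hU : U ∈ F)
    (h : Sub U W) (hW : size W ≤ w) : W ∈ F := by
  refine hF.2 W hW ?_
  have h0 : (univ.filter (fun χ : Col N => Agree W χ ∧ ¬ Hits F χ)) = ∅ := by
    rw [filter_eq_empty_iff]
    rintro χ - ⟨h1, h2⟩
    exact h2 ⟨U, hU, fun j x hx => h1 j x (h j x hx)⟩
  rw [h0, card_empty]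
  exact Nat.zero_le _

theorem exists_min {F : Finset (PC N)} {U : PC N} (hU : U ∈ F) : ∃ W, IsMin F W ∧ Sub W U := by
  obtain ⟨W, hW, hmin⟩ := exists_min_image (F.filter fun W => Sub W U)
    (fun W => (univ.filter (fun j => (W j).isSome)).card)
    ⟨U, mem_filter.2 ⟨hU, fun _ _ h => h⟩⟩
  rw [mem_filter] at hW
  refine ⟨W, ⟨hW.1, fun V hV hVW => ?_⟩, hW.2⟩
  have h1 := hmin V (mem_filter.2 ⟨hV, fun j x hx => hW.2 j x (hVW j x hx)⟩)
  have hsub : (univ.filter (fun j => (V j).isSome)) ⊆
      (univ.filter (fun j => (W j).isSome)) := by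
    intro j hj
    rw [mem_filter] at hj ⊢
    obtain ⟨x, hx⟩ := Option.isSome_iff_exists.1 hj.2
    exact ⟨mem_univ _, Option.isSome_iff_exists.2 ⟨x, hVW j x hx⟩⟩
  have heq := eq_of_subset_of_card_le hsub h1
  funext j
  rcases hj : V j with _ | x
  · by_contra hne
    have hW1 : (W j).isSome := Option.isSome_iff_ne_none.2 fun h => hne h.symm
    have hmem : j ∈ (univ.filter (fun j => (V j).isSome)) := by
      rw [heq, mem_filter]
      exact ⟨mem_univ _, hW1⟩
    rw [mem_filter, hj] at hmem
    exact absurd hmem.2 (by simp)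
  · exact (hVW j x hj).symm

theorem agree_card {w : ℕ} (U : PC N) (hU : size U ≤ w) :
    2 ^ (N - w) ≤ (univ.filter (fun χ : Col N => Agree U χ)).card := by
  have h1 : (univ.filter (fun χ : Col N => Agree U χ)) =
      Fintype.piFinset (fun j => univ.filter (fun b : Bool => ∀ c, U j = some c → b = c)) := by
    ext χ
    rw [mem_filter, Fintype.mem_piFinset]
    constructor
    · intro h j
      rw [mem_filter]
      exact ⟨mem_univ _, h.2 j⟩
    · intro h
      refine ⟨mem_univ _, fun j => ?_⟩
      exact (mem_filter.1 (h j)).2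
  have h2 : ∀ j, 2 ^ (1 - (if U j ≠ none then 1 else 0)) ≤
      (univ.filter (fun b : Bool => ∀ c, U j = some c → b = c)).card := by
    intro j
    rcases hj : U j with _ | x
    · have h3 : (univ.filter (fun b : Bool => ∀ c, (none : Option Bool) = some c → b = c)) =
          univ := by
        rw [filter_true_of_mem]
        intro b _ c hc
        exact absurd hc (by simp)
      rw [h3, card_univ, Fintype.card_bool]
      exact Nat.pow_le_pow_right (by norm_num) (Nat.sub_le _ _) |>.trans (by norm_num)
    · have h4 : x ∈ (univ.filter (fun b : Bool => ∀ c, (some x : Option Bool) = some c → b = c)) := by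
        rw [mem_filter]
        refine ⟨mem_univ _, fun c hc => ?_⟩
        simpa using hc
      have h5 := card_pos.2 ⟨x, h4⟩
      simpa using h5
  have h8 : N - w ≤ ∑ j : Fin N, (1 - (if U j ≠ none then 1 else 0)) := by
    have h9 : ∑ j : Fin N, (if U j ≠ none then 1 else 0) = size U := by
      unfold size
      rw [card_filter]
    have h10 : ∑ _j : Fin N, 1 = N := by
      rw [sum_const, card_univ, Fintype.card_fin, smul_eq_mul, mul_one]
    have h11 : ∑ _j : Fin N, 1 ≤ ∑ j : Fin N, (1 - (if U j ≠ none then 1 else 0)) +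
        ∑ j : Fin N, (if U j ≠ none then 1 else 0) := by
      rw [← sum_add_distrib]
      exact sum_le_sum fun j _ => by omega
    rw [h9, h10] at h11
    omega
  rw [h1, Fintype.card_piFinset]
  calc 2 ^ (N - w) ≤ 2 ^ ∑ j : Fin N, (1 - (if U j ≠ none then 1 else 0)) :=
        Nat.pow_le_pow_right (by norm_num) h8
    _ = ∏ j : Fin N, 2 ^ (1 - (if U j ≠ none then 1 else 0)) := by
        rw [prod_pow_eq_pow_sum]
    _ ≤ _ := prod_le_prod' fun j _ => h2 j

theorem closedW_all (w θ : ℕ) : ClosedW w θ (univ.filter (fun U : PC N => size U ≤ w)) := by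
  refine ⟨fun U hU => (mem_filter.1 hU).2, fun U hU _ => ?_⟩
  exact mem_filter.2 ⟨mem_univ _, hU⟩

theorem closedW_empty {w θ : ℕ} (h : θ < 2 ^ (N - w)) : ClosedW w θ (∅ : Finset (PC N)) := by
  refine ⟨fun U hU => absurd hU (notMem_empty _), fun U hUw hU => ?_⟩
  exfalso
  have h1 : (univ.filter (fun χ : Col N => Agree U χ ∧ ¬ Hits (∅ : Finset (PC N)) χ)) =
      univ.filter (fun χ : Col N => Agree U χ) := by
    refine filter_congr fun χ _ => ?_
    constructor
    · exact fun h => h.1
    · intro h
      refine ⟨h, ?_⟩
      rintro ⟨W, hW, -⟩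
      exact absurd hW (notMem_empty _)
  rw [h1] at hU
  have h2 := agree_card U hUw
  omega

end MTX
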