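import Pool.Agent.Lib.MTX.Basic

/-!
# MTX.Cond (MP_e46137_lc): fixing the vertices at some positions
-/

namespace MTX

open Classical Finset

variable {r N : ℕ}

namespace CondAux

theorem update_inj (P : Pth r N) (j : Fin r) {u : Fin N} (hu : ∀ i, P i ≠ u) :
    Function.Injective (Function.update P j u) := by
  intro a b hab
  by_cases ha : a = j
  · by_cases hb : b = j
    · rw [ha, hb]
    · rw [ha, Function.update_self, Function.update_of_ne hb] at hab
      exact absurd hab.symm (hu b)
  · by_cases hb : b = j
    · rw [hb, Function.update_self, Function.update_of_ne ha] at hab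
      exact absurd hab (hu a)
    · rw [Function.update_of_ne ha, Function.update_of_ne hb] at hab
      exact P.injective hab

/-- the path `P` with the vertex at position `j` replaced by `u` -/
noncomputable def repl (P : Pth r N) (j : Fin r) (u : Fin N) : Pth r N :=
  if h : Function.Injective (Function.update P j u) then ⟨_, h⟩ else P

theorem repl_apply {P : Pth r N} {j : Fin r} {u : Fin N} (hu : ∀ i, P i ≠ u) (i : Fin r) :
    repl P j u i = Function.update (P : Fin r → Fin N) j u i := by
  rw [repl, dif_pos (update_inj P j hu)]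
  rfl

theorem mem_Om {ρ : PA r N} {P : Pth r N} : P ∈ Om ρ ↔ ∀ j v, ρ j = some v → P j = v := by
  rw [Om, mem_filter]
  exact ⟨fun h => h.2, fun h => ⟨mem_univ _, h⟩⟩

end CondAux

open CondAux

/-- One more position: `(P, u) ↦ P` with the vertex at position `j` replaced by `u ∉ range P` is an
injective map from `Om (update ρ j v) × {u | u ∉ range P}` to `Om ρ`. -/
theorem om_update (ρ : PA r N) {j : Fin r} (hj : ρ j = none) (v : Fin N) :
    (Om (Function.update ρ j (some v))).card * (N - r) ≤ (Om ρ).card := by
  have hc : ((Om (Function.update ρ j (some v))).sigma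
      (fun P => ((univ : Finset (Fin r)).map P)ᶜ)).card
      = (Om (Function.update ρ j (some v))).card * (N - r) := by
    rw [card_sigma, sum_congr rfl (fun P _ => by
      rw [card_compl, card_map, card_univ, Fintype.card_fin, Fintype.card_fin]), sum_const,
      smul_eq_mul]
  rw [← hc]
  have hu : ∀ x ∈ (Om (Function.update ρ j (some v))).sigma
      (fun P => ((univ : Finset (Fin r)).map P)ᶜ), ∀ i, x.1 i ≠ x.2 := by
    intro x hx i hi
    rw [mem_sigma, mem_compl, mem_map] at hx
    exact hx.2 ⟨i, mem_univ _, hi⟩
  have hv : ∀ x ∈ (Om (Function.update ρ j (some v))).sigma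
      (fun P => ((univ : Finset (Fin r)).map P)ᶜ), x.1 j = v := by
    intro x hx
    rw [mem_sigma] at hx
    exact mem_Om.1 hx.1 j v (Function.update_self ..)
  refine card_le_card_of_injOn (fun x => repl x.1 j x.2) ?_ ?_
  · intro x hx
    have hx' := (mem_sigma.1 hx).1
    refine mem_Om.2 (fun i w hi => ?_)
    have hij : i ≠ j := by
      rintro rfl
      rw [hj] at hi
      exact absurd hi (by simp)
    change repl x.1 j x.2 i = w
    rw [repl_apply (hu x hx), Function.update_of_ne hij]
    exact mem_Om.1 hx' i w (by rw [Function.update_of_ne hij]; exact hi)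
  · intro x hx y hy hxy
    have hxy' : ∀ i, repl x.1 j x.2 i = repl y.1 j y.2 i := fun i =>
      DFunLike.congr_fun hxy i
    have h2 : x.2 = y.2 := by
      have h := hxy' j
      rw [repl_apply (hu x hx), repl_apply (hu y hy), Function.update_self,
        Function.update_self] at h
      exact h
    have h1 : x.1 = y.1 := by
      apply DFunLike.ext
      intro i
      by_cases hij : i = j
      · rw [hij, hv x hx, hv y hy]
      · have h := hxy' i
        rw [repl_apply (hu x hx), repl_apply (hu y hy), Function.update_of_ne hij,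
          Function.update_of_ne hij] at h
        exact h
    cases x
    cases y
    dsimp only at h1 h2
    subst h1
    subst h2
    rfl

/-- the assignment `ρ` completed by `pos v ↦ v` for `v ∈ A` -/
noncomputable def ext (ρ : PA r N) (A : Finset (Fin N)) (pos : Fin N → Fin r) : PA r N :=
  fun j => if h : ∃ v ∈ A, pos v = j then some h.choose else ρ j

theorem ext_pos (ρ : PA r N) {A : Finset (Fin N)} {pos : Fin N → Fin r}
    (hinj : Set.InjOn pos A) {v : Fin N} (hv : v ∈ A) : ext ρ A pos (pos v) = some v := by
  have h : ∃ w ∈ A, pos w = pos v := ⟨v, hv, rfl⟩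
  rw [ext, dif_pos h]
  exact congrArg some (hinj h.choose_spec.1 hv h.choose_spec.2)

theorem ext_of_notMem (ρ : PA r N) {A : Finset (Fin N)} {pos : Fin N → Fin r} {j : Fin r}
    (hj : ∀ v ∈ A, pos v ≠ j) : ext ρ A pos j = ρ j := by
  rw [ext, dif_neg]
  rintro ⟨v, hv, h⟩
  exact hj v hv h

theorem asz_ext (ρ : PA r N) {A : Finset (Fin N)} {pos : Fin N → Fin r}
    (hinj : Set.InjOn pos A) (hnone : ∀ v ∈ A, ρ (pos v) = none) :
    asz (ext ρ A pos) = asz ρ + A.card := by
  have h1 : (univ.filter (fun j => ext ρ A pos j ≠ none))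
      = univ.filter (fun j => ρ j ≠ none) ∪ A.image pos := by
    ext j
    rw [mem_union, mem_filter, mem_filter, mem_image]
    by_cases hj : ∃ v ∈ A, pos v = j
    · obtain ⟨v, hv, rfl⟩ := hj
      constructor
      · intro _
        exact Or.inr ⟨v, hv, rfl⟩
      · intro _
        refine ⟨mem_univ _, ?_⟩
        rw [ext_pos ρ hinj hv]
        exact Option.some_ne_none v
    · rw [ext_of_notMem ρ (fun v hv h => hj ⟨v, hv, h⟩)]
      exact ⟨fun h => Or.inl h, fun h => h.elim id (fun h => absurd h hj)⟩
  rw [asz, asz, h1, card_union_of_disjoint, card_image_of_injOn hinj]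
  rw [disjoint_left]
  intro j hj1 hj2
  obtain ⟨v, hv, rfl⟩ := mem_image.1 hj2
  exact (mem_filter.1 hj1).2 (hnone v hv)

theorem mem_om_ext (ρ : PA r N) {A : Finset (Fin N)} {pos : Fin N → Fin r}
    (hinj : Set.InjOn pos A) (hnone : ∀ v ∈ A, ρ (pos v) = none) (P : Pth r N) :
    P ∈ Om (ext ρ A pos) ↔ P ∈ Om ρ ∧ ∀ v ∈ A, P (pos v) = v := by
  constructor
  · intro h
    refine ⟨mem_Om.2 (fun j v hj => ?_), fun v hv => mem_Om.1 h _ _ (ext_pos ρ hinj hv)⟩
    apply mem_Om.1 h
    rw [ext_of_notMem ρ, hj]
    rintro w hw rfl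
    rw [hnone w hw] at hj
    exact absurd hj (by simp)
  · rintro ⟨h1, h2⟩
    refine mem_Om.2 (fun j v hj => ?_)
    by_cases h : ∃ w ∈ A, pos w = j
    · obtain ⟨w, hw, rfl⟩ := h
      rw [ext_pos ρ hinj hw] at hj
      rw [h2 w hw]
      exact Option.some_injective _ hj
    · rw [ext_of_notMem ρ (fun w hw h' => h ⟨w, hw, h'⟩)] at hj
      exact mem_Om.1 h1 j v hj

/-- Induction on `A` with `om_update`. -/
theorem om_ext (ρ : PA r N) {A : Finset (Fin N)} {pos : Fin N → Fin r}
    (hinj : Set.InjOn pos A) (hnone : ∀ v ∈ A, ρ (pos v) = none) :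
    (Om (ext ρ A pos)).card * (N - r) ^ A.card ≤ (Om ρ).card := by
  induction A using Finset.induction_on with
  | empty =>
    have h : ext ρ ∅ pos = ρ := funext (fun j => ext_of_notMem ρ (fun v hv => by simp at hv))
    rw [h, card_empty, pow_zero, mul_one]
  | insert a A ha ih =>
    have hinj' : Set.InjOn pos A := hinj.mono (by
      intro x hx
      exact mem_insert_of_mem hx)
    have hnone' : ∀ v ∈ A, ρ (pos v) = none := fun v hv => hnone v (mem_insert_of_mem hv)
    have hne : ∀ v ∈ A, pos v ≠ pos a := by
      intro v hv h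
      have := hinj (mem_insert_of_mem hv) (mem_insert_self a A) h
      exact ha (this ▸ hv)
    have hup : ext ρ (insert a A) pos = Function.update (ext ρ A pos) (pos a) (some a) := by
      funext j
      by_cases hj : j = pos a
      · rw [hj, Function.update_self, ext_pos ρ hinj (mem_insert_self a A)]
      · rw [Function.update_of_ne hj]
        by_cases h : ∃ w ∈ A, pos w = j
        · obtain ⟨w, hw, rfl⟩ := h
          rw [ext_pos ρ hinj (mem_insert_of_mem hw), ext_pos ρ hinj' hw]
        · rw [ext_of_notMem ρ (fun w hw h' => h ⟨w, hw, h'⟩), ext_of_notMem]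
          intro w hw h'
          rcases mem_insert.1 hw with rfl | hw'
          · exact hj h'.symm
          · exact h ⟨w, hw', h'⟩
    have h1 : ext ρ A pos (pos a) = none := by
      rw [ext_of_notMem ρ hne, hnone a (mem_insert_self a A)]
    rw [hup, card_insert_of_notMem ha, pow_succ', ← mul_assoc]
    exact (Nat.mul_le_mul_right _ (om_update _ h1 a)).trans (ih hinj' hnone')

end MTX
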