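import Pool.Agent.Lib.MTX.CountB

/-!
# MTX.Count (MP_e46137_lc): the recursion over time windows
-/

namespace MTX

open Classical Finset

variable {r N : ℕ}

/-- Induction on `τ` (strong), inside on `h` (strong).  `τ = 0`: `EJ` is empty (the arc `x`).
`h ≤ 1`, `τ ≥ 1`: the right side is at least `card (Om ρ)`.  `h ≥ 2`, `τ = 1`: `EJ` is empty (`hstep`:
at most two arcs are passed in one step).  `h ≥ 2`, `τ ≥ 2`, `c = t₁ + τ / 2`: a path of `EJ` has at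
time `c` all arcs passed (`EJ` of the window `t₁, c`), or none (`EJ` of `c, t₁ + τ`), or it is
mixed: `mixed_card` with `t₂ = t₁ + τ`, `C = τ * clog 2 τ ^ (h - 2)` and the induction hypothesis for
`h' < h` (`h' - 1 ≤ h - 2`, `1 ≤ clog 2 τ`).
`clog 2 (τ / 2), clog 2 (τ - τ / 2) ≤ clog 2 τ - 1` and `(x - 1) ^ (h - 1) + x ^ (h - 2) ≤
x ^ (h - 1)` for `x ≥ 1`. -/
theorem count_window {T k w₁ B S : ℕ} (hB : 1 ≤ B) (hS : 1 ≤ S)
    (hrN : r < N) (hμ : 8 * B * r ≤ N - r) (hκ : 8 * B * S * 2 ^ k ≤ N - r)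
    (good : Finset (Pth r N)) (Z : ℕ → Pth r N → Set ℕ)
    (hstep : ∀ t < T, ∀ P ∈ good, ∃ q₀, ∀ q ≤ r, q ∈ Z (t + 1) P → q ∈ Z t P ∨ q = q₀ ∨ q = q₀ + 1)
    (Cov : ℕ → PA r N → ℕ → Finset (Finset (Fin N)))
    (hcov : ∀ t < T, ∀ (ρ : PA r N) (x a : ℕ), asz ρ ≤ k * w₁ → 1 ≤ a → a ≤ w₁ →
      ((Cov t ρ x).filter (fun A => A.card = a)).card ≤ S * B ^ a)
    (hdis : ∀ t (ρ : PA r N) (x : ℕ), ∀ A ∈ Cov t ρ x, ∀ j v, ρ j = some v → v ∉ A)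
    (hmix : ∀ t < T, ∀ (ρ : PA r N) (x y : ℕ), asz ρ ≤ k * w₁ → y ≤ r →
      (∀ j : Fin r, x ≤ (j : ℕ) → (j : ℕ) < y → ρ j = none) →
      ∀ P ∈ good, P ∈ Om ρ → ∀ q q', x ≤ q ∧ q ≤ y → x ≤ q' ∧ q' ≤ y → q ∉ Z t P → q' ∈ Z t P →
      ∃ A ∈ Cov t ρ x, 1 ≤ A.card ∧ A.card ≤ w₁ ∧ (∀ v ∈ A, ∃ j, P j = v) ∧
        ∃ j : Fin r, x ≤ (j : ℕ) ∧ (j : ℕ) < y ∧ P j ∈ A) :
    ∀ (τ h t₁ x : ℕ) (ρ : PA r N), t₁ + τ ≤ T → h ≤ k → asz ρ ≤ (k - h) * w₁ →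
      x + 2 ^ h ≤ r + 1 → Free ρ x h →
      ((EJ good Z ρ x h t₁ (t₁ + τ)).card : ℝ) ≤
        τ * (Nat.clog 2 τ : ℝ) ^ (h - 1) * Fk (8 * B * S / ((N - r : ℕ) : ℝ)) h *
          ((Om ρ).card : ℝ) := by
  intro τ
  induction τ using Nat.strong_induction_on with
  | _ τ ihτ =>
  intro h
  induction h using Nat.strong_induction_on with
  | _ h ihh =>
  intro t₁ x ρ hτT hhk hρ hx hfree
  have hB' : (1 : ℝ) ≤ B := by exact_mod_cast hB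
  have hS' : (1 : ℝ) ≤ S := by exact_mod_cast hS
  have hNr : (0 : ℝ) < ((N - r : ℕ) : ℝ) := by
    have : 0 < N - r := Nat.sub_pos_of_lt hrN
    exact_mod_cast this
  have hκ0 : (0 : ℝ) < 8 * B * S / ((N - r : ℕ) : ℝ) :=
    div_pos (by nlinarith) hNr
  have hF : 0 < Fk (8 * B * S / ((N - r : ℕ) : ℝ)) h := Fk_pos hκ0 h
  have hOm : (0 : ℝ) ≤ ((Om ρ).card : ℝ) := Nat.cast_nonneg _
  have h2h : 1 ≤ 2 ^ h := Nat.one_le_two_pow
  rcases Nat.eq_zero_or_pos τ with rfl | hτ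
  · have hE : EJ good Z ρ x h t₁ (t₁ + 0) = ∅ := by
      unfold EJ
      rw [filter_eq_empty_iff]
      rintro P - ⟨-, h1, h2⟩
      exact h1 x le_rfl (by omega) (h2 x le_rfl (by omega))
    rw [hE]
    simp
  rcases Nat.lt_or_ge h 2 with hh | hh
  · have hF1 : Fk (8 * B * S / ((N - r : ℕ) : ℝ)) h = 1 := by
      interval_cases h <;> rfl
    have h1 : h - 1 = 0 := by omega
    rw [hF1, h1, pow_zero, mul_one, mul_one]
    have hsub : EJ good Z ρ x h t₁ (t₁ + τ) ⊆ Om ρ := fun P hP => (mem_filter.1 hP).2.1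
    have hc : ((EJ good Z ρ x h t₁ (t₁ + τ)).card : ℝ) ≤ ((Om ρ).card : ℝ) := by
      exact_mod_cast card_le_card hsub
    have hτ' : (1 : ℝ) ≤ τ := by exact_mod_cast hτ
    nlinarith
  have h4 : 4 ≤ 2 ^ h := by
    calc 4 = 2 ^ 2 := by norm_num
      _ ≤ 2 ^ h := Nat.pow_le_pow_right (by norm_num) hh
  rcases Nat.lt_or_ge τ 2 with hτ2 | hτ2
  · obtain rfl : τ = 1 := by omega
    have hE : EJ good Z ρ x h t₁ (t₁ + 1) = ∅ := by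
      unfold EJ
      rw [filter_eq_empty_iff]
      rintro P hPg ⟨-, h1, h2⟩
      obtain ⟨q₀, hq₀⟩ := hstep t₁ (by omega) P hPg
      have e0 := hq₀ x (by omega) (h2 x (by omega) (by omega))
      have e1 := hq₀ (x + 1) (by omega) (h2 (x + 1) (by omega) (by omega))
      have e2 := hq₀ (x + 2) (by omega) (h2 (x + 2) (by omega) (by omega))
      have n0 := h1 x (by omega) (by omega)
      have n1 := h1 (x + 1) (by omega) (by omega)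
      have n2 := h1 (x + 2) (by omega) (by omega)
      have e0' := e0.resolve_left n0
      have e1' := e1.resolve_left n1
      have e2' := e2.resolve_left n2
      omega
    rw [hE]
    simp only [card_empty, Nat.cast_zero]
    positivity
  -- the main case
  set c := t₁ + τ / 2 with hc
  have hcT : c < T := by omega
  have hc2 : c + (τ - τ / 2) = t₁ + τ := by omega
  set E₀ := (EJ good Z ρ x h t₁ (t₁ + τ)).filter (fun P =>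
    (∃ q, (x ≤ q ∧ q < x + 2 ^ h) ∧ q ∉ Z c P) ∧ ∃ q, (x ≤ q ∧ q < x + 2 ^ h) ∧ q ∈ Z c P)
    with hE₀
  have hsub : EJ good Z ρ x h t₁ (t₁ + τ) ⊆
      EJ good Z ρ x h t₁ c ∪ (EJ good Z ρ x h c (t₁ + τ) ∪ E₀) := by
    intro P hP
    have hP' := hP
    unfold EJ at hP'
    rw [mem_filter] at hP'
    obtain ⟨hPg, hPO, h1, h2⟩ := hP'
    rw [mem_union, mem_union]
    by_cases hall : ∀ q, x ≤ q → q < x + 2 ^ h → q ∈ Z c P
    · exact Or.inl (mem_filter.2 ⟨hPg, hPO, h1, hall⟩)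
    · by_cases hnone : ∀ q, x ≤ q → q < x + 2 ^ h → q ∉ Z c P
      · exact Or.inr (Or.inl (mem_filter.2 ⟨hPg, hPO, hnone, h2⟩))
      · push Not at hall hnone
        obtain ⟨q, hq1, hq2, hq3⟩ := hall
        obtain ⟨q', hq1', hq2', hq3'⟩ := hnone
        exact Or.inr (Or.inr (mem_filter.2 ⟨hP, ⟨q, ⟨hq1, hq2⟩, hq3⟩, ⟨q', ⟨hq1', hq2'⟩, hq3'⟩⟩))
  have hL1 : 1 ≤ Nat.clog 2 τ := Nat.clog_pos (by norm_num) hτ2
  have hLb : Nat.clog 2 (τ - τ / 2) ≤ Nat.clog 2 τ - 1 := by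
    have h1 : Nat.clog 2 τ = Nat.clog 2 ((τ + 2 - 1) / 2) + 1 :=
      Nat.clog_of_two_le (by norm_num) hτ2
    have h2 : (τ + 2 - 1) / 2 = τ - τ / 2 := by omega
    rw [h2] at h1
    omega
  have hLa : Nat.clog 2 (τ / 2) ≤ Nat.clog 2 τ - 1 :=
    (Nat.clog_mono_right 2 (by omega)).trans hLb
  have hA := ihτ (τ / 2) (by omega) h t₁ x ρ (by omega) hhk hρ hx hfree
  have hBb := ihτ (τ - τ / 2) (by omega) h c x ρ (by omega) hhk hρ hx hfree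
  rw [hc2] at hBb
  rw [← hc] at hA
  have hmixed : (E₀.card : ℝ) ≤ ((τ : ℝ) * (Nat.clog 2 τ : ℝ) ^ (h - 2)) *
      Fk (8 * B * S / ((N - r : ℕ) : ℝ)) h * ((Om ρ).card : ℝ) := by
    refine mixed_card (k := k) (w₁ := w₁) (x := x) (t₁ := t₁) (t₂ := t₁ + τ)
      (by positivity) hB hS hrN hμ hκ good Z ρ (by omega) hhk hx hfree hρ ?_
      (Cov c ρ x) ?_ (hdis c ρ x) (filter_subset _ _) ?_
    · intro h' hh' ρ' x' hρ' hx' hfree'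
      refine (ihh h' hh' t₁ x' ρ' hτT (by omega) hρ' hx' hfree').trans ?_
      have hF' : 0 < Fk (8 * B * S / ((N - r : ℕ) : ℝ)) h' := Fk_pos hκ0 h'
      have hOm' : (0 : ℝ) ≤ ((Om ρ').card : ℝ) := Nat.cast_nonneg _
      have hpow : (Nat.clog 2 τ : ℝ) ^ (h' - 1) ≤ (Nat.clog 2 τ : ℝ) ^ (h - 2) := by
        refine pow_le_pow_right₀ (by exact_mod_cast hL1) (by omega)
      gcongr
    · intro a ha1 haw
      exact hcov c hcT ρ x a (hρ.trans (Nat.mul_le_mul_right _ (Nat.sub_le _ _))) ha1 haw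
    · intro P hP
      rw [hE₀, mem_filter] at hP
      obtain ⟨hPE, ⟨q, ⟨hq1, hq2⟩, hq3⟩, ⟨q', ⟨hq1', hq2'⟩, hq3'⟩⟩ := hP
      unfold EJ at hPE
      rw [mem_filter] at hPE
      obtain ⟨hPg, hPO, -, -⟩ := hPE
      obtain ⟨A, hA1, hA2, hA3, hA4, j, hj1, hj2, hj3⟩ := hmix c hcT ρ x (x + 2 ^ h - 1)
        (hρ.trans (Nat.mul_le_mul_right _ (Nat.sub_le _ _))) (by omega)
        (fun j hj1 hj2 => hfree j hj1 (by omega)) P hPg hPO q q' ⟨hq1, by omega⟩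
        ⟨hq1', by omega⟩ hq3 hq3'
      exact ⟨A, hA1, hA2, hA3, hA4, j, hj1, by omega, hj3⟩
  -- numbers
  have hnum : (Nat.clog 2 τ - 1) ^ (h - 1) + Nat.clog 2 τ ^ (h - 2) ≤ Nat.clog 2 τ ^ (h - 1) := by
    obtain ⟨m, hm⟩ : ∃ m, h = m + 2 := ⟨h - 2, by omega⟩
    obtain ⟨l, hl⟩ : ∃ l, Nat.clog 2 τ = l + 1 := ⟨Nat.clog 2 τ - 1, by omega⟩
    have e1 : h - 1 = m + 1 := by omega
    have e2 : h - 2 = m := by omega
    rw [e1, e2, hl, Nat.add_sub_cancel]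
    calc l ^ (m + 1) + (l + 1) ^ m = l ^ m * l + (l + 1) ^ m := by rw [pow_succ]
      _ ≤ (l + 1) ^ m * l + (l + 1) ^ m := by
          gcongr
          omega
      _ = (l + 1) ^ (m + 1) := by ring
  have hnumR : ((Nat.clog 2 τ - 1 : ℕ) : ℝ) ^ (h - 1) + (Nat.clog 2 τ : ℝ) ^ (h - 2) ≤
      (Nat.clog 2 τ : ℝ) ^ (h - 1) := by exact_mod_cast hnum
  have hcard : ((EJ good Z ρ x h t₁ (t₁ + τ)).card : ℝ) ≤
      ((EJ good Z ρ x h t₁ c).card : ℝ) + (((EJ good Z ρ x h c (t₁ + τ)).card : ℝ) +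
        (E₀.card : ℝ)) := by
    have h1 := (card_le_card hsub).trans ((card_union_le _ _).trans
      (Nat.add_le_add_left (card_union_le _ _) _))
    exact_mod_cast h1
  have hab : ((τ / 2 : ℕ) : ℝ) + ((τ - τ / 2 : ℕ) : ℝ) = τ := by
    rw [← Nat.cast_add]
    congr 1
    omega
  have hA' : ((EJ good Z ρ x h t₁ c).card : ℝ) ≤
      ((τ / 2 : ℕ) : ℝ) * ((Nat.clog 2 τ - 1 : ℕ) : ℝ) ^ (h - 1) *
        Fk (8 * B * S / ((N - r : ℕ) : ℝ)) h * ((Om ρ).card : ℝ) := by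
    refine hA.trans ?_
    gcongr
  have hB2 : ((EJ good Z ρ x h c (t₁ + τ)).card : ℝ) ≤
      ((τ - τ / 2 : ℕ) : ℝ) * ((Nat.clog 2 τ - 1 : ℕ) : ℝ) ^ (h - 1) *
        Fk (8 * B * S / ((N - r : ℕ) : ℝ)) h * ((Om ρ).card : ℝ) := by
    refine hBb.trans ?_
    gcongr
  calc ((EJ good Z ρ x h t₁ (t₁ + τ)).card : ℝ) ≤ _ := hcard
    _ ≤ _ := add_le_add hA' (add_le_add hB2 hmixed)
    _ = (((τ / 2 : ℕ) : ℝ) + ((τ - τ / 2 : ℕ) : ℝ)) * ((Nat.clog 2 τ - 1 : ℕ) : ℝ) ^ (h - 1) *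
          Fk (8 * B * S / ((N - r : ℕ) : ℝ)) h * ((Om ρ).card : ℝ) +
        (τ : ℝ) * (Nat.clog 2 τ : ℝ) ^ (h - 2) *
          Fk (8 * B * S / ((N - r : ℕ) : ℝ)) h * ((Om ρ).card : ℝ) := by ring
    _ = (τ : ℝ) * (((Nat.clog 2 τ - 1 : ℕ) : ℝ) ^ (h - 1) + (Nat.clog 2 τ : ℝ) ^ (h - 2)) *
          Fk (8 * B * S / ((N - r : ℕ) : ℝ)) h * ((Om ρ).card : ℝ) := by
        rw [hab]
        ring
    _ ≤ _ := by gcongr

/-- `count_window` for all good paths, all arcs, all steps (`τ = T`, `h = k`, `x = 0`,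
`ρ = fun _ => none`), and `Fk_closed`: `1 / 4 ≤ T clog(T) ^ (k - 1) Fk κ k`. -/
theorem count {T k w₁ B S : ℕ} (hk : 1 ≤ k) (hrk : r + 1 = 2 ^ k) (hB : 1 ≤ B) (hS : 1 ≤ S)
    (hrN : r < N) (hμ : 8 * B * r ≤ N - r) (hκ : 8 * B * S * 2 ^ k ≤ N - r)
    (good : Finset (Pth r N)) (hgood : Fintype.card (Pth r N) ≤ 4 * good.card)
    (Z : ℕ → Pth r N → Set ℕ)
    (h0 : ∀ P ∈ good, ∀ q ≤ r, q ∉ Z 0 P) (hT : ∀ P ∈ good, ∀ q ≤ r, q ∈ Z T P)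
    (hstep : ∀ t < T, ∀ P ∈ good, ∃ q₀, ∀ q ≤ r, q ∈ Z (t + 1) P → q ∈ Z t P ∨ q = q₀ ∨ q = q₀ + 1)
    (Cov : ℕ → PA r N → ℕ → Finset (Finset (Fin N)))
    (hcov : ∀ t < T, ∀ (ρ : PA r N) (x a : ℕ), asz ρ ≤ k * w₁ → 1 ≤ a → a ≤ w₁ →
      ((Cov t ρ x).filter (fun A => A.card = a)).card ≤ S * B ^ a)
    (hdis : ∀ t (ρ : PA r N) (x : ℕ), ∀ A ∈ Cov t ρ x, ∀ j v, ρ j = some v → v ∉ A)
    (hmix : ∀ t < T, ∀ (ρ : PA r N) (x y : ℕ), asz ρ ≤ k * w₁ → y ≤ r →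
      (∀ j : Fin r, x ≤ (j : ℕ) → (j : ℕ) < y → ρ j = none) →
      ∀ P ∈ good, P ∈ Om ρ → ∀ q q', x ≤ q ∧ q ≤ y → x ≤ q' ∧ q' ≤ y → q ∉ Z t P → q' ∈ Z t P →
      ∃ A ∈ Cov t ρ x, 1 ≤ A.card ∧ A.card ≤ w₁ ∧ (∀ v ∈ A, ∃ j, P j = v) ∧
        ∃ j : Fin r, x ≤ (j : ℕ) ∧ (j : ℕ) < y ∧ P j ∈ A) :
    (N - r) ^ (k - 1) ≤
      T * Nat.clog 2 T ^ (k - 1) * (8 * B * S) ^ (k - 1) * 2 ^ (k * (k + 1) / 2 + 1) := by
  have hB' : (1 : ℝ) ≤ B := by exact_mod_cast hB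
  have hS' : (1 : ℝ) ≤ S := by exact_mod_cast hS
  have hNr : (0 : ℝ) < ((N - r : ℕ) : ℝ) := by
    have : 0 < N - r := Nat.sub_pos_of_lt hrN
    exact_mod_cast this
  have h1 := count_window hB hS hrN hμ hκ good Z hstep Cov hcov hdis hmix T k 0 0
    (fun _ => none) (by omega) le_rfl (by simp [asz]) (by omega) (fun _ _ _ => rfl)
  have hOm : Om (fun _ => none : PA r N) = univ := by
    unfold Om
    rw [filter_true_of_mem]
    intro P _ j v hv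
    exact absurd hv (by simp)
  have hE : EJ good Z (fun _ => none) 0 k 0 (0 + T) = good := by
    unfold EJ
    rw [filter_true_of_mem]
    intro P hP
    refine ⟨by rw [hOm]; exact mem_univ _, fun q _ hq => h0 P hP q (by omega), fun q _ hq => ?_⟩
    rw [Nat.zero_add]
    exact hT P hP q (by omega)
  rw [hE, hOm, card_univ] at h1
  have : Nonempty (Pth r N) := ⟨Fin.castLEEmb hrN.le⟩
  have hpos : (0 : ℝ) < (Fintype.card (Pth r N) : ℝ) := by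
    exact_mod_cast Fintype.card_pos
  have hgood' : (Fintype.card (Pth r N) : ℝ) ≤ 4 * (good.card : ℝ) := by exact_mod_cast hgood
  have h2 : (Fintype.card (Pth r N) : ℝ) * 1 ≤ (Fintype.card (Pth r N) : ℝ) *
      (T * (Nat.clog 2 T : ℝ) ^ (k - 1) *
        (2 * Fk (8 * B * S / ((N - r : ℕ) : ℝ)) k) * 2) := by
    calc _ = (Fintype.card (Pth r N) : ℝ) := mul_one _
      _ ≤ 4 * (good.card : ℝ) := hgood'
      _ ≤ 4 * (T * (Nat.clog 2 T : ℝ) ^ (k - 1) * Fk (8 * B * S / ((N - r : ℕ) : ℝ)) k *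
            (Fintype.card (Pth r N) : ℝ)) := by gcongr
      _ = _ := by ring
  have h3 := le_of_mul_le_mul_left h2 hpos
  obtain ⟨m, rfl⟩ : ∃ m, k = m + 1 := ⟨k - 1, by omega⟩
  rw [Fk_closed, div_pow] at h3
  have h4 : ((N - r : ℕ) : ℝ) ^ m ≤ T * (Nat.clog 2 T : ℝ) ^ m * (8 * B * S) ^ m *
      2 ^ ((m + 1) * (m + 2) / 2 + 1) := by
    have hp : (0 : ℝ) < ((N - r : ℕ) : ℝ) ^ m := pow_pos hNr m
    have h5 := mul_le_mul_of_nonneg_left h3 hp.le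
    rw [mul_one] at h5
    refine h5.trans (le_of_eq ?_)
    rw [Nat.add_sub_cancel, pow_succ 2 ((m + 1) * (m + 2) / 2)]
    field_simp
  rw [Nat.add_sub_cancel]
  exact_mod_cast h4

end MTX
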