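import Pool.Agent.Lib.MTX.Reveal
import Pool.Agent.Lib.MTX.AMach

/-!
# MTX.EndC (MP_e46137_lc): the last step, for machines with errors
-/

namespace MTX

open Classical Finset

variable {r N : ℕ}

namespace EndCAux

/-- the paths through all the coloured vertices -/
private noncomputable def thr (r : ℕ) (W : PC N) : Finset (Pth r N) :=
  univ.filter (fun P => ∀ v ∈ supp W, ∃ j, P j = v)

private theorem thr_le (hrN : r < N) (W : PC N) (hW : 1 ≤ size W) :
    ((thr r W).card : ℝ) ≤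
      ((r : ℝ) / ((N - r : ℕ) : ℝ)) ^ size W * (Fintype.card (Pth r N) : ℝ) := by
  have hNr : (0 : ℝ) < ((N - r : ℕ) : ℝ) := by
    have : 0 < N - r := by omega
    exact_mod_cast this
  have hne : (supp W).Nonempty := card_pos.1 hW
  have hOm : Om (fun _ => none : PA r N) = univ := by
    ext P
    rw [Om, mem_filter]
    exact ⟨fun h => h.1, fun h => ⟨h, fun j v hj => absurd hj (by simp)⟩⟩
  have h := reveal_plain (ρ := (fun _ => none : PA r N)) hne (E := thr r W)
    (by rw [hOm]; exact subset_univ _) (fun j v hj => absurd hj (by simp))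
    (fun P hP => (mem_filter.1 hP).2) (Γ := 1) zero_le_one
    (fun pos h1 h2 => by
      rw [one_mul]
      refine Nat.cast_le.2 (card_le_card ?_)
      intro P hP
      rw [mem_om_ext _ h1 h2, hOm]
      exact ⟨mem_univ _, (mem_filter.1 hP).2⟩)
  rw [hOm, card_univ, one_mul] at h
  have h2 : (supp W).card = size W := rfl
  rw [h2] at h
  rw [div_pow, div_mul_eq_mul_div, le_div_iff₀ (pow_pos hNr _)]
  exact h

private theorem geo (a n : ℕ) (ha : 1 ≤ a) :
    ∑ i ∈ range n, ((1 : ℝ) / 4) ^ (a + i) ≤ (1 / 2) ^ a := by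
  have h1 : ∑ i ∈ range n, ((1 : ℝ) / 4) ^ i ≤ 4 / 3 := by
    have h2 := geom_sum_mul_neg ((1 : ℝ) / 4) n
    have h3 : (0 : ℝ) ≤ (1 / 4) ^ n := by positivity
    linarith
  have h4 : ∑ i ∈ range n, ((1 : ℝ) / 4) ^ (a + i) =
      (1 / 4) ^ a * ∑ i ∈ range n, ((1 : ℝ) / 4) ^ i := by
    rw [mul_sum]
    exact sum_congr rfl fun i _ => pow_add _ _ _
  have h5 : ((1 : ℝ) / 4) ^ a = (1 / 2) ^ a * (1 / 2) ^ a := by
    rw [← mul_pow]
    norm_num
  have h6 : ((1 : ℝ) / 2) ^ a ≤ 1 / 2 := by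
    calc ((1 : ℝ) / 2) ^ a ≤ (1 / 2) ^ 1 :=
          pow_le_pow_of_le_one (by norm_num) (by norm_num) ha
      _ = 1 / 2 := pow_one _
  have h7 : (0 : ℝ) ≤ (1 / 2) ^ a := by positivity
  rw [h4]
  calc ((1 : ℝ) / 4) ^ a * ∑ i ∈ range n, ((1 : ℝ) / 4) ^ i
      ≤ (1 / 4) ^ a * (4 / 3) := mul_le_mul_of_nonneg_left h1 (by positivity)
    _ = (1 / 2) ^ a * ((1 / 2) ^ a * (4 / 3)) := by rw [h5]; ring
    _ ≤ (1 / 2) ^ a * 1 := by
        apply mul_le_mul_of_nonneg_left _ h7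
        linarith
    _ = (1 / 2) ^ a := mul_one _

/-- the paths with a member below -/
private theorem below_le {w θ B a : ℕ} {μ : ℝ} (F : Finset (PC N)) (hF : ClosedW w θ F)
    (hext : ∀ D, D ∉ F → ∀ a, 1 ≤ a → size D + a ≤ w →
      (univ.filter (fun A : PC N => MinExt F D A ∧ size A = a)).card ≤ B ^ a)
    (hrN : r < N) (hμ : (B : ℝ) * r ≤ μ * ((N - r : ℕ) : ℝ)) (hμ1 : μ ≤ 1 / 4)
    (ha : 1 ≤ a) (hmin : ∀ W ∈ F, a ≤ size W) :
    ((univ.filter (fun P : Pth r N => ∃ q ≤ r, ∃ U ∈ F, Sub U (UP P q))).card : ℝ) ≤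
      (1 / 2) ^ a * (Fintype.card (Pth r N) : ℝ) := by
  have hNr : (0 : ℝ) < ((N - r : ℕ) : ℝ) := by
    have : 0 < N - r := by omega
    exact_mod_cast this
  have hemp : emp N ∉ F := by
    intro h
    have h1 := hmin _ h
    rw [size_emp] at h1
    omega
  set c : ℝ := (r : ℝ) / ((N - r : ℕ) : ℝ) with hc
  have hc0 : 0 ≤ c := by positivity
  have hBc : (B : ℝ) * c ≤ 1 / 4 := by
    rw [hc, ← mul_div_assoc, div_le_iff₀ hNr]
    exact hμ.trans (mul_le_mul_of_nonneg_right hμ1 hNr.le)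
  let G : ℕ → Finset (PC N) := fun i =>
    univ.filter (fun A : PC N => MinExt F (emp N) A ∧ size A = a + i)
  have hsub : (univ.filter (fun P : Pth r N => ∃ q ≤ r, ∃ U ∈ F, Sub U (UP P q))) ⊆
      (range (w + 1 - a)).biUnion (fun i => (G i).biUnion (fun W => thr r W)) := by
    intro P hP
    obtain ⟨q, -, U, hU, hUP⟩ := (mem_filter.1 hP).2
    obtain ⟨W, hW, hWU⟩ := exists_min hU
    have h1 : a ≤ size W := hmin W hW.1
    have h2 : size W ≤ w := hF.1 W hW.1
    rw [mem_biUnion]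
    refine ⟨size W - a, mem_range.2 (by omega), ?_⟩
    rw [mem_biUnion]
    refine ⟨W, mem_filter.2 ⟨mem_univ _, minExt_emp hW, by omega⟩, ?_⟩
    refine mem_filter.2 ⟨mem_univ _, fun v hv => ?_⟩
    obtain ⟨x, hx⟩ := Option.ne_none_iff_exists'.1 (mem_filter.1 hv).2
    have h3 := (JoinAux.up_iff P q v x).1 (sub_trans hWU hUP v x hx)
    obtain ⟨j, hj⟩ := h3
    exact ⟨j, hj.1⟩
  have h1 := card_le_card hsub
  have h2 : (((range (w + 1 - a)).biUnion
      (fun i => (G i).biUnion (fun W => thr r W))).card : ℝ) ≤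
      ∑ i ∈ range (w + 1 - a), ∑ W ∈ G i, ((thr r W).card : ℝ) := by
    have h3 : ((range (w + 1 - a)).biUnion (fun i => (G i).biUnion (fun W => thr r W))).card ≤
        ∑ i ∈ range (w + 1 - a), ∑ W ∈ G i, (thr r W).card :=
      card_biUnion_le.trans (sum_le_sum fun i _ => card_biUnion_le)
    exact_mod_cast h3
  have h4 : ∀ i ∈ range (w + 1 - a), ∑ W ∈ G i, ((thr r W).card : ℝ) ≤
      (1 / 4) ^ (a + i) * (Fintype.card (Pth r N) : ℝ) := by
    intro i hi
    rw [mem_range] at hi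
    have h5 : ((G i).card : ℝ) ≤ (B : ℝ) ^ (a + i) := by
      have h6 := hext (emp N) hemp (a + i) (by omega) (by rw [size_emp]; omega)
      exact_mod_cast h6
    calc ∑ W ∈ G i, ((thr r W).card : ℝ)
        ≤ ∑ _W ∈ G i, c ^ (a + i) * (Fintype.card (Pth r N) : ℝ) := by
          refine sum_le_sum fun W hW => ?_
          have h6 := (mem_filter.1 hW).2.2
          have h7 := thr_le hrN W (by omega)
          rw [h6] at h7
          exact h7
      _ = ((G i).card : ℝ) * (c ^ (a + i) * (Fintype.card (Pth r N) : ℝ)) := by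
          rw [sum_const, nsmul_eq_mul]
      _ ≤ (B : ℝ) ^ (a + i) * (c ^ (a + i) * (Fintype.card (Pth r N) : ℝ)) :=
          mul_le_mul_of_nonneg_right h5 (by positivity)
      _ = ((B : ℝ) * c) ^ (a + i) * (Fintype.card (Pth r N) : ℝ) := by
          rw [mul_pow, mul_assoc]
      _ ≤ (1 / 4) ^ (a + i) * (Fintype.card (Pth r N) : ℝ) :=
          mul_le_mul_of_nonneg_right (pow_le_pow_left₀ (by positivity) hBc _)
            (Nat.cast_nonneg _)
  calc _ ≤ _ := Nat.cast_le.2 h1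
    _ ≤ _ := h2
    _ ≤ ∑ i ∈ range (w + 1 - a), (1 / 4) ^ (a + i) * (Fintype.card (Pth r N) : ℝ) :=
        sum_le_sum h4
    _ = (∑ i ∈ range (w + 1 - a), ((1 : ℝ) / 4) ^ (a + i)) * (Fintype.card (Pth r N) : ℝ) := by
        rw [sum_mul]
    _ ≤ _ := mul_le_mul_of_nonneg_right (geo a _ ha) (Nat.cast_nonneg _)

end EndCAux

open EndCAux

/-- `acc` = accepted paths, `cut` = accepted cuts, `F` = family of the output bit, at most `E`
colourings are hit by `F` but not accepted.  Three cases.  `F = ∅`: nothing to prove.  `emp N ∈ F`: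
all colourings are hit, `2 ^ N - E ≤ cut.card`.  Otherwise let `a ≥ 1` be the minimal size of a
member: `2 ^ (N - a) - E ≤ cut.card` (the colourings extending this member), and the paths with a
member below some `UP P q` contain a minimal member of size `a' ≥ a` (`exists_min`, `minExt_emp`), so
they are at most a fraction `∑_{a' ≥ a} B ^ a' (r / (N - r)) ^ a' ≤ 2 μ ^ a ≤ 2 ^ (-a)`
(`reveal_plain` with `ρ = fun _ => none` and `Γ = 1`). -/
theorem end_card {w θ B E : ℕ} {μ : ℝ} (F : Finset (PC N)) (hF : ClosedW w θ F)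
    (hext : ∀ D, D ∉ F → ∀ a, 1 ≤ a → size D + a ≤ w →
      (univ.filter (fun A : PC N => MinExt F D A ∧ size A = a)).card ≤ B ^ a)
    (hrN : r < N) (hμ : (B : ℝ) * r ≤ μ * ((N - r : ℕ) : ℝ)) (hμ0 : 0 ≤ μ) (hμ1 : μ ≤ 1 / 4)
    (acc : Finset (Pth r N)) (cut : Finset (Col N))
    (hE : (univ.filter (fun χ : Col N => Hits F χ ∧ χ ∉ cut)).card ≤ E) :
    (acc.card : ℝ) * 2 ^ N - (cut.card : ℝ) * (Fintype.card (Pth r N) : ℝ) ≤
      ((acc.filter (fun P => ∀ q ≤ r, ∀ U ∈ F, ¬ Sub U (UP P q))).card : ℝ) * 2 ^ N +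
        E * (Fintype.card (Pth r N) : ℝ) := by
  have hμ0' := hμ0
  have hsplit : acc.card = (acc.filter (fun P => ∀ q ≤ r, ∀ U ∈ F, ¬ Sub U (UP P q))).card +
      (acc.filter (fun P => ¬ ∀ q ≤ r, ∀ U ∈ F, ¬ Sub U (UP P q))).card :=
    (card_filter_add_card_filter_not (s := acc) _).symm
  have hsub : acc.filter (fun P => ¬ ∀ q ≤ r, ∀ U ∈ F, ¬ Sub U (UP P q)) ⊆
      univ.filter (fun P : Pth r N => ∃ q ≤ r, ∃ U ∈ F, Sub U (UP P q)) := by
    intro P hP
    have h1 := (mem_filter.1 hP).2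
    push Not at h1
    exact mem_filter.2 ⟨mem_univ _, h1⟩
  have hC0 : (0 : ℝ) ≤ (Fintype.card (Pth r N) : ℝ) := Nat.cast_nonneg _
  rcases F.eq_empty_or_nonempty with hFe | hFn
  · have h1 : (acc.filter (fun P => ¬ ∀ q ≤ r, ∀ U ∈ F, ¬ Sub U (UP P q))).card = 0 := by
      rw [card_eq_zero, filter_eq_empty_iff]
      intro P _ h
      apply h
      intro q _ U hU
      rw [hFe] at hU
      exact absurd hU (notMem_empty _)
    rw [h1, add_zero] at hsplit
    rw [← hsplit]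
    have h2 : (0 : ℝ) ≤ (cut.card : ℝ) * (Fintype.card (Pth r N) : ℝ) := by positivity
    have h3 : (0 : ℝ) ≤ (E : ℝ) * (Fintype.card (Pth r N) : ℝ) := by positivity
    linarith
  · obtain ⟨W0, hW0, hmin⟩ := exists_min_image F size hFn
    have hW0N : size W0 ≤ N := by
      have h1 : size W0 ≤ (univ : Finset (Fin N)).card := card_le_card (filter_subset _ _)
      rwa [card_univ, Fintype.card_fin] at h1
    have hb : ((univ.filter (fun P : Pth r N => ∃ q ≤ r, ∃ U ∈ F, Sub U (UP P q))).card : ℝ) ≤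
        (1 / 2) ^ size W0 * (Fintype.card (Pth r N) : ℝ) := by
      rcases Nat.eq_zero_or_pos (size W0) with h0 | h0
      · rw [h0, pow_zero, one_mul]
        exact Nat.cast_le.2 (card_le_univ _)
      · exact below_le F hF hext hrN hμ hμ1 h0 hmin
    have hcut : 2 ^ (N - size W0) ≤ cut.card + E := by
      have h1 := agree_card W0 le_rfl
      have h2 : (univ.filter (fun χ : Col N => Agree W0 χ)) ⊆
          cut ∪ univ.filter (fun χ : Col N => Hits F χ ∧ χ ∉ cut) := by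
        intro χ hχ
        rw [mem_union, mem_filter]
        by_cases h3 : χ ∈ cut
        · exact Or.inl h3
        · exact Or.inr ⟨mem_univ _, ⟨W0, hW0, (mem_filter.1 hχ).2⟩, h3⟩
      have h3 := (card_le_card h2).trans (card_union_le _ _)
      omega
    have hcut' : (2 : ℝ) ^ (N - size W0) ≤ cut.card + E := by exact_mod_cast hcut
    have hpow : (2 : ℝ) ^ N * (1 / 2) ^ size W0 = 2 ^ (N - size W0) := by
      have h1 : (2 : ℝ) ^ N = 2 ^ (N - size W0) * 2 ^ size W0 := by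
        rw [← pow_add, Nat.sub_add_cancel hW0N]
      rw [h1, mul_assoc, ← mul_pow]
      norm_num
    have h1 : ((acc.filter (fun P => ¬ ∀ q ≤ r, ∀ U ∈ F, ¬ Sub U (UP P q))).card : ℝ) ≤
        (1 / 2) ^ size W0 * (Fintype.card (Pth r N) : ℝ) :=
      (Nat.cast_le.2 (card_le_card hsub)).trans hb
    have h2 : ((acc.filter (fun P => ¬ ∀ q ≤ r, ∀ U ∈ F, ¬ Sub U (UP P q))).card : ℝ) * 2 ^ N ≤
        2 ^ (N - size W0) * (Fintype.card (Pth r N) : ℝ) := by
      calc _ ≤ (1 / 2) ^ size W0 * (Fintype.card (Pth r N) : ℝ) * 2 ^ N :=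
            mul_le_mul_of_nonneg_right h1 (by positivity)
        _ = 2 ^ N * (1 / 2) ^ size W0 * (Fintype.card (Pth r N) : ℝ) := by ring
        _ = _ := by rw [hpow]
    have h3 := mul_le_mul_of_nonneg_right hcut' hC0
    have h4 : (acc.card : ℝ) =
        ((acc.filter (fun P => ∀ q ≤ r, ∀ U ∈ F, ¬ Sub U (UP P q))).card : ℝ) +
        ((acc.filter (fun P => ¬ ∀ q ≤ r, ∀ U ∈ F, ¬ Sub U (UP P q))).card : ℝ) := by
      exact_mod_cast hsplit
    rw [h4]
    linarith

end MTX
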