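import Pool.Agent.Lib.MTX.AMach

/-!
# MTX.Passed (MP_e46137_lc): the passed arcs
-/

namespace MTX

open Classical Finset

variable {A : Type} {r N S : ℕ}

/-- At time `0` nothing is passed (the empty colouring belongs to the family of a true bit). -/
theorem passed_zero {w : ℕ} (M : AMach A S) (yes : Pth r N → A → Bool)
    (F : ℕ → Fin S → Finset (PC N))
    (h0 : ∀ i, M.init i = true → ∀ U : PC N, size U ≤ w → U ∈ F 0 i) (P : Pth r N) (q : ℕ) :
    q ∉ passed M yes F 0 P := by
  rintro ⟨i, hi, hU⟩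
  refine hU (emp N) (h0 i hi _ (by rw [size_emp]; exact Nat.zero_le _)) ?_
  intro v c hc
  exact absurd hc (by simp [emp])

/-- One step: outside the bad paths only arcs which are read can be passed.  `Loc P a q`: the input
bit `a` belongs to the arc `q` of the path `P`.  Proof: suppose `q` is not passed at time `t` and
no bit of the arc `q` is read.  Let `D` be the colouring of `P ∉ bad2` for `q`, and `V₁`, `V₂` the
colourings of `hX` for `q' = q₀`, `q₀ + 1` (if `≤ r` and `≠ q`, else empty).  The join `D'` of `D`,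
`V₁`, `V₂` lies below `UP P q`, has size `≤ 2 w₁ + 4 ≤ w`, belongs to `F t j` whenever
`run (yes P) t j = true`, and to `force w no a` whenever the bit `a` is read and `yes P a = true`. -/
theorem passed_step {w w₁ θ : ℕ} (hw : 2 * w₁ + 4 ≤ w) (M : AMach A S)
    (F : ℕ → Fin S → Finset (PC N))
    (yes : Pth r N → A → Bool) (no : Col N → A → Bool) (Loc : Pth r N → A → ℕ → Prop)
    (hF : ∀ t i, ClosedW w θ (F t i))
    (hnext : ∀ t i (U : PC N), size U ≤ w →
        M.next t (fun j => decide (U ∈ F t j)) (fun a => decide (U ∈ force w no a)) i = true →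
        U ∈ F (t + 1) i)
    (hyes : ∀ P a, yes P a = true → ∃ q ≤ r, Loc P a q)
    (hX : ∀ P, ∀ q ≤ r, ∀ q' ≤ r, q ≠ q' → ∃ V : PC N, size V ≤ 2 ∧ Sub V (UP P q) ∧
      ∀ a, Loc P a q' → ∀ χ, Agree V χ → no χ a = true)
    (t : ℕ) (P : Pth r N) (q₀ : ℕ)
    (hrd : ∀ q ≤ r, ∀ a ∈ M.rd t (M.run (yes P) t), Loc P a q → q = q₀ ∨ q = q₀ + 1)
    (hP1 : P ∉ bad1 w₁ (F t)) (hP2 : P ∉ bad2 w₁ (F t)) (q : ℕ) (hq : q ≤ r)
    (h : q ∈ passed M yes F (t + 1) P) :
    q ∈ passed M yes F t P ∨ ∃ a ∈ M.rd t (M.run (yes P) t), Loc P a q := by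
  by_contra hcon
  push Not at hcon
  obtain ⟨hnp, hnr⟩ := hcon
  obtain ⟨i, hi, hiU⟩ := h
  -- the colouring for all families
  obtain ⟨D, hDs, hDz, hDF⟩ : ∃ D : PC N, Sub D (UP P q) ∧ size D ≤ 2 * w₁ ∧
      ∀ i, (∃ W ∈ F t i, Sub W (UP P q)) → D ∈ F t i := by
    by_contra hc
    push Not at hc
    refine hP2 ?_
    rw [bad2, mem_filter]
    exact ⟨mem_univ _, hP1, q, hq, hc⟩
  -- the colourings which force the arcs
  have hlit : ∀ q', ∃ V : PC N, size V ≤ 2 ∧ Sub V (UP P q) ∧ (q' ≤ r → q ≠ q' →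
      ∀ a, Loc P a q' → ∀ χ, Agree V χ → no χ a = true) := by
    intro q'
    by_cases h1 : q' ≤ r ∧ q ≠ q'
    · obtain ⟨V, hV, hV2, hVf⟩ := hX P q hq q' h1.1 h1.2
      exact ⟨V, hV, hV2, fun _ _ => hVf⟩
    · refine ⟨emp N, by rw [size_emp]; omega, ?_, fun h2 h3 => absurd ⟨h2, h3⟩ h1⟩
      intro v c hc
      exact absurd hc (by simp [emp])
  obtain ⟨V1, hz1, hs1, hf1⟩ := hlit q₀
  obtain ⟨V2, hz2, hs2, hf2⟩ := hlit (q₀ + 1)
  have hs12 : Sub (join V1 V2) (UP P q) := join_sub hs1 hs2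
  have hsub : Sub (join D (join V1 V2)) (UP P q) := join_sub hDs hs12
  have hsize : size (join D (join V1 V2)) ≤ w := by
    have h1 := size_join_le D (join V1 V2)
    have h2 := size_join_le V1 V2
    omega
  have hV1 : Sub V1 (join D (join V1 V2)) :=
    sub_trans (sub_join_left V1 V2) (sub_join_right hDs hs12)
  have hV2 : Sub V2 (join D (join V1 V2)) :=
    sub_trans (sub_join_right hs1 hs2) (sub_join_right hDs hs12)
  have hVF : ∀ k, M.run (yes P) t k = true → join D (join V1 V2) ∈ F t k := by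
    intro k hk
    have h1 : ∃ U ∈ F t k, Sub U (UP P q) := by
      by_contra hc
      push Not at hc
      exact hnp ⟨k, hk, hc⟩
    exact ClosedW.up (hF t k) (hDF k h1) (sub_join_left _ _) hsize
  have hVforce : ∀ a ∈ M.rd t (M.run (yes P) t), yes P a = true →
      join D (join V1 V2) ∈ force w no a := by
    intro a ha hya
    obtain ⟨q', hq', hl⟩ := hyes P a hya
    have hne : q ≠ q' := by
      rintro rfl
      exact hnr a ha hl
    rw [force, mem_filter]
    refine ⟨mem_univ _, hsize, fun χ hχ => ?_⟩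
    rcases hrd q' hq' a ha hl with h1 | h1
    · subst h1
      exact hf1 hq' hne a hl χ fun v c hc => hχ v c (hV1 v c hc)
    · subst h1
      exact hf2 hq' hne a hl χ fun v c hc => hχ v c (hV2 v c hc)
  have hmono := M.mono t (M.run (yes P) t) (fun j => decide (join D (join V1 V2) ∈ F t j)) (yes P)
    (fun a => decide (join D (join V1 V2) ∈ force w no a)) (by
      intro k
      cases hk : M.run (yes P) t k with
      | false => exact Bool.false_le _
      | true =>
        show true ≤ decide (join D (join V1 V2) ∈ F t k)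
        rw [decide_eq_true (hVF k hk)]) (by
      intro a ha
      cases hk : yes P a with
      | false => exact Bool.false_le _
      | true =>
        show true ≤ decide (join D (join V1 V2) ∈ force w no a)
        rw [decide_eq_true (hVforce a ha hk)])
  have hrun : M.next t (M.run (yes P) t) (yes P) i = true := hi
  have h5 := hmono i
  rw [hrun] at h5
  have h6 : M.next t (fun j => decide (join D (join V1 V2) ∈ F t j))
      (fun a => decide (join D (join V1 V2) ∈ force w no a)) i = true :=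
    Bool.eq_true_of_true_le h5
  exact hiU _ (hnext t i _ hsize h6) hsub

/-- Mixed intervals.  The arcs `q`, `q'` belong to `[x, y]`, no position of `[x, y)` is assigned by
`ρ`, `q` is not passed and `q'` is passed: some family, not containing `D = colr ρ x`, has a small
minimal extension `A` of `D` inside the path, with a vertex at a position of `[x, y)`.
Proof: `i` from `q' ∈ passed`; a minimal member `W` of `F t i` below `UP P q` (`q ∉ passed`,
`exists_min`) has size `≤ w₁` since `P ∉ bad1`; `D = colr ρ q = colr ρ q'` (`colr_congr`) is not in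
`F t i` (it lies below `UP P q'`); `join D W ∈ F t i` by `ClosedW.up`; `exists_minExt`.  If all
vertices of `A` were at positions outside `[x, y)` then `join D A` would lie below `UP P q'`. -/
theorem passed_mix {w w₁ θ : ℕ} (M : AMach A S) (F : ℕ → Fin S → Finset (PC N))
    (yes : Pth r N → A → Bool) (hF : ∀ t i, ClosedW w θ (F t i)) (t : ℕ) (P : Pth r N)
    (hP1 : P ∉ bad1 w₁ (F t)) (ρ : PA r N) (hρ : asz ρ + w₁ ≤ w) (hP : P ∈ Om ρ) {x y : ℕ}
    (hy : y ≤ r) (hfree : ∀ j : Fin r, x ≤ (j : ℕ) → (j : ℕ) < y → ρ j = none) {q q' : ℕ}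
    (hq : x ≤ q ∧ q ≤ y) (hq' : x ≤ q' ∧ q' ≤ y) (h : q ∉ passed M yes F t P)
    (h' : q' ∈ passed M yes F t P) :
    ∃ i A, colr ρ x ∉ F t i ∧ MinExt (F t i) (colr ρ x) A ∧ 1 ≤ size A ∧ size A ≤ w₁ ∧
      (∀ v ∈ supp A, ∃ j, P j = v) ∧
      (∃ j : Fin r, x ≤ (j : ℕ) ∧ (j : ℕ) < y ∧ P j ∈ supp A) ∧
      ∀ j v, ρ j = some v → v ∉ supp A := by
  obtain ⟨i, hi, hiU⟩ := h'
  have h1 : ∃ U ∈ F t i, Sub U (UP P q) := by
    by_contra hc
    push Not at hc
    exact h ⟨i, hi, hc⟩
  obtain ⟨U, hU, hUs⟩ := h1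
  obtain ⟨W, hW, hWU⟩ := exists_min hU
  have hWs : Sub W (UP P q) := sub_trans hWU hUs
  have hWz : size W ≤ w₁ := by
    by_contra hc
    refine hP1 ?_
    rw [bad1, mem_filter]
    exact ⟨mem_univ _, q, by omega, i, W, hW, hWs, by omega⟩
  have hcq : ∀ q'' : ℕ, x ≤ q'' → q'' ≤ y → colr ρ x = colr ρ q'' := by
    intro q'' h2 h3
    refine colr_congr ρ fun j hj => ?_
    have h4 : ¬ (x ≤ (j : ℕ) ∧ (j : ℕ) < y) := fun h5 => hj (hfree j h5.1 h5.2)
    omega
  have hDq : Sub (colr ρ x) (UP P q) := by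
    rw [hcq q hq.1 hq.2]
    exact colr_sub hP q
  have hDq' : Sub (colr ρ x) (UP P q') := by
    rw [hcq q' hq'.1 hq'.2]
    exact colr_sub hP q'
  have hD : colr ρ x ∉ F t i := fun hc => hiU _ hc hDq'
  have hjoin : join (colr ρ x) W ∈ F t i := by
    refine ClosedW.up (hF t i) hW.1 (sub_join_right hDq hWs) ?_
    have h2 := size_join_le (colr ρ x) W
    have h3 := size_colr_le ρ x
    omega
  obtain ⟨A, hA, hAW, hA1⟩ := exists_minExt hD hjoin
  have hAs : Sub A (UP P q) := sub_trans hAW hWs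
  have hAs' := (sub_UP_iff P q A).1 hAs
  refine ⟨i, A, hD, hA, hA1, (size_mono hAW).trans hWz, ?_, ?_, ?_⟩
  · intro v hv
    obtain ⟨c, hc⟩ := Option.ne_none_iff_exists'.1 (mem_filter.1 hv).2
    obtain ⟨j, hj, -⟩ := hAs' v c hc
    exact ⟨j, hj⟩
  · by_contra hno
    push Not at hno
    refine hiU _ hA.2.1 (join_sub hDq' ?_)
    rw [sub_UP_iff]
    intro v c hc
    obtain ⟨j, hj, hjc⟩ := hAs' v c hc
    refine ⟨j, hj, ?_⟩
    have hvs : P j ∈ supp A := by
      rw [hj]
      exact mem_filter.2 ⟨mem_univ _, by rw [hc]; simp⟩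
    have h4 : ¬ (x ≤ (j : ℕ) ∧ (j : ℕ) < y) := fun h5 => hno j h5.1 h5.2 hvs
    rw [hjc]
    refine decide_eq_decide.2 ?_
    omega
  · intro j v hv hvs
    rcases hA.1 v with h4 | h4
    · exact colr_ne_none hv x h4
    · exact (mem_filter.1 hvs).2 h4

/-- At the end everything is passed: the output family is empty. -/
theorem passed_end {w θ E T : ℕ} (M : AMach A S) (F : ℕ → Fin S → Finset (PC N))
    (yes : Pth r N → A → Bool) (no : Col N → A → Bool) (hF : ∀ t i, ClosedW w θ (F t i))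
    (out : Fin S) (hE : (univ.filter (fun χ : Col N =>
        ∃ i, Hits (F T i) χ ∧ M.run (no χ) T i = false)).card ≤ E) (hE2 : E < 2 ^ (N - w))
    (hy : ∀ P, M.run (yes P) T out = true) (hn : ∀ χ, M.run (no χ) T out = false)
    (P : Pth r N) (q : ℕ) : q ∈ passed M yes F T P := by
  refine ⟨out, hy P, fun U hU _ => ?_⟩
  have h1 := agree_card U ((hF T out).1 U hU)
  have h2 : (univ.filter (fun χ : Col N => Agree U χ)).card ≤
      (univ.filter (fun χ : Col N => ∃ i, Hits (F T i) χ ∧ M.run (no χ) T i = false)).card := by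
    refine card_le_card fun χ hχ => ?_
    rw [mem_filter] at hχ ⊢
    exact ⟨mem_univ _, out, ⟨U, hU, hχ.2⟩, hn χ⟩
  omega

end MTX
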