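import Pool.Agent.Lib.MTX.Approx
import Pool.Agent.Lib.MTX.Passed
import Pool.Agent.Lib.MTX.BadA
import Pool.Agent.Lib.MTX.BadB
import Pool.Agent.Lib.MTX.EndC
import Pool.Agent.Lib.MTX.Count
import Pool.Agent.Lib.MTX.CoreA

/-!
# MTX.Core (MP_e46137_lc): lower bound for abstract monotone machines
-/

namespace MTX

open Classical Finset

variable {A : Type} {r N S : ℕ}

theorem hextAux {w θ L : ℕ} (F : Fin S → Finset (PC N))
    (hF : ∀ i, ClosedW w θ (F i)) (hL : 1 ≤ L) (hθ : 2 ^ N ≤ θ * 2 ^ L) :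
    ∀ i D, D ∉ F i → ∀ a, 1 ≤ a → size D + a ≤ w →
      (univ.filter (fun A : PC N => MinExt (F i) D A ∧ size A = a)).card ≤ (8 * w * L) ^ a := by
  intro i D hD a ha haw
  have h := ext_card (hF i) hL hθ (B := 4 * w * L) le_rfl hD ha haw
  have e : 2 * (4 * w * L) = 8 * w * L := by ring
  rwa [e] at h

/-- Few paths are bad at some time: `μ = 1 / (16 S)`, `B = 8 w L` in `bad1_card`, `bad2_card`
(`hext` from `ext_card`); `T (S 2 μ ^ (w₁ + 1) + (r + 1) 4 ^ (-w₁)) ≤ 1 / 24`. -/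
theorem bad_card {w w₁ θ L T : ℕ} (F : ℕ → Fin S → Finset (PC N))
    (hF : ∀ t i, ClosedW w θ (F t i)) (hS : 1 ≤ S) (hL : 1 ≤ L) (hθ : 2 ^ N ≤ θ * 2 ^ L)
    (hw : 2 * w₁ + 4 ≤ w) (hrN : r < N) (hN : 16 * (8 * w * L) * S * (r + 1) ≤ N - r)
    (hbad : 24 * T * (S + r + 1) ≤ 4 ^ w₁) :
    24 * (univ.filter (fun P : Pth r N => ∃ t < T,
      P ∈ bad1 w₁ (F t) ∨ P ∈ bad2 w₁ (F t))).card ≤ Fintype.card (Pth r N) := by
  have hS0 : (0 : ℝ) < S := by exact_mod_cast hS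
  set μ : ℝ := 1 / (16 * S) with hμd
  have hμ0 : 0 < μ := by positivity
  have hS1 : (1 : ℝ) ≤ S := by exact_mod_cast hS
  have hμ16 : μ ≤ 1 / 16 := by
    rw [hμd]
    apply one_div_le_one_div_of_le (by norm_num)
    linarith
  have hμ : ((8 * w * L : ℕ) : ℝ) * r ≤ μ * ((N - r : ℕ) : ℝ) := by
    have h1 : 16 * (8 * w * L) * S * r ≤ N - r :=
      (Nat.mul_le_mul_left _ (Nat.le_succ r)).trans hN
    have h2 : ((16 * (8 * w * L) * S * r : ℕ) : ℝ) ≤ ((N - r : ℕ) : ℝ) := by exact_mod_cast h1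
    rw [hμd, one_div, inv_mul_eq_div, le_div_iff₀ (by positivity)]
    calc ((8 * w * L : ℕ) : ℝ) * r * (16 * S) = ((16 * (8 * w * L) * S * r : ℕ) : ℝ) := by
          push_cast; ring
      _ ≤ _ := h2
  have h4 : 4 * (S : ℝ) * μ = 1 / 4 := by
    rw [hμd]; field_simp; norm_num
  set C : ℝ := (Fintype.card (Pth r N) : ℝ) with hC
  have hC0 : 0 ≤ C := by positivity
  have hb1 : ∀ t, ((bad1 w₁ (F t) : Finset (Pth r N)).card : ℝ) ≤ S * (1 / 4) ^ w₁ * C := by
    intro t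
    have h := bad1_card (w₁ := w₁) (F t) (hF t) (hextAux (F t) (hF t) hL hθ) hrN hμ hμ0.le
      (by linarith)
    refine h.trans (mul_le_mul_of_nonneg_right ?_ hC0)
    refine mul_le_mul_of_nonneg_left ?_ hS0.le
    have h5 : μ ^ w₁ ≤ (1 / 4 : ℝ) ^ w₁ := pow_le_pow_left₀ hμ0.le (by linarith) _
    have h6 : 0 ≤ μ ^ w₁ := by positivity
    rw [pow_succ]
    nlinarith
  have hb2 : ∀ t, ((bad2 w₁ (F t) : Finset (Pth r N)).card : ℝ) ≤
      (r + 1) * (1 / 4) ^ w₁ * C := by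
    intro t
    have h := bad2_card (w₁ := w₁) (F t) (hF t) hS (by omega) (hextAux (F t) (hF t) hL hθ) hrN hμ
      hμ0 (by rw [h4]; norm_num)
    rwa [h4] at h
  set bd := univ.filter (fun P : Pth r N => ∃ t < T, P ∈ bad1 w₁ (F t) ∨ P ∈ bad2 w₁ (F t))
    with hbd
  set BB : ℕ → Finset (Pth r N) := fun t => bad1 w₁ (F t) ∪ bad2 w₁ (F t) with hBB
  have hcov : bd ⊆ (range T).biUnion BB := by
    intro P hP
    rw [hbd, mem_filter] at hP
    obtain ⟨t, ht, h⟩ := hP.2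
    exact mem_biUnion.2 ⟨t, mem_range.2 ht, mem_union.2 h⟩
  have h7 : (bd.card : ℝ) ≤ ∑ t ∈ range T, (S * (1 / 4) ^ w₁ * C +
      (r + 1) * (1 / 4) ^ w₁ * C) := by
    have h9 : (bd.card : ℝ) ≤ (((range T).biUnion BB).card : ℝ) := by
      exact_mod_cast card_le_card hcov
    refine h9.trans ?_
    have h11 : (((range T).biUnion BB).card : ℝ) ≤ ∑ t ∈ range T, ((BB t).card : ℝ) := by
      exact_mod_cast card_biUnion_le
    refine h11.trans (sum_le_sum fun t _ => ?_)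
    have h12 : ((BB t).card : ℝ) ≤
        ((bad1 w₁ (F t) : Finset (Pth r N)).card : ℝ) +
        ((bad2 w₁ (F t) : Finset (Pth r N)).card : ℝ) := by
      exact_mod_cast card_union_le _ _
    exact h12.trans (add_le_add (hb1 t) (hb2 t))
  rw [sum_const, card_range, nsmul_eq_mul] at h7
  have h13 : 24 * ((T : ℝ) * (S * (1 / 4) ^ w₁ * C + (r + 1) * (1 / 4) ^ w₁ * C)) ≤ C := by
    have h14 : ((24 * T * (S + r + 1) : ℕ) : ℝ) ≤ ((4 ^ w₁ : ℕ) : ℝ) := by exact_mod_cast hbad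
    push_cast at h14
    have h15 : ((1 : ℝ) / 4) ^ w₁ * 4 ^ w₁ = 1 := by
      rw [← mul_pow]; norm_num
    have h16 : (0 : ℝ) ≤ (1 / 4) ^ w₁ := by positivity
    have h17 := mul_le_mul_of_nonneg_left h14 h16
    rw [h15] at h17
    have h18 := mul_le_mul_of_nonneg_right h17 hC0
    nlinarith
  have h19 : 24 * (bd.card : ℝ) ≤ C := by linarith
  rw [hC] at h19
  exact_mod_cast h19

/-- `count` with `Z = passed`, `Cov t = covSet w₁ (F t)`, `B = 8 w L`, and `good` = the paths which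
are accepted, have no member of `F T out` below any `UP P q`, and are bad at no time `t < T`.
`end_card` with `F T out`, `E = T * (S * ((2 * N + 1) ^ w * θ))`: together with `hadv` and
`bad_card` it gives `(1 / 3 - 1 / 24 - 1 / 24) card (Pth r N) ≤ good.card`. -/
theorem core {w w₁ k θ L T : ℕ} (hk : 1 ≤ k) (hrk : r + 1 = 2 ^ k) (M : AMach A S) (out : Fin S)
    (yes : Pth r N → A → Bool) (no : Col N → A → Bool) (Loc : Pth r N → A → ℕ → Prop)
    (hyes : ∀ P a, yes P a = true → ∃ q ≤ r, Loc P a q)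
    (hX : ∀ P, ∀ q ≤ r, ∀ q' ≤ r, q ≠ q' → ∃ V : PC N, size V ≤ 2 ∧ Sub V (UP P q) ∧
      ∀ a, Loc P a q' → ∀ χ, Agree V χ → no χ a = true)
    (hrd : ∀ t P, ∃ q₀, ∀ q ≤ r, ∀ a ∈ M.rd t (M.run (yes P) t), Loc P a q →
      q = q₀ ∨ q = q₀ + 1)
    (hadv : Fintype.card (Pth r N) * 2 ^ N +
        3 * (univ.filter (fun χ : Col N => M.run (no χ) T out = true)).card *
          Fintype.card (Pth r N) ≤
      3 * (univ.filter (fun P : Pth r N => M.run (yes P) T out = true)).card * 2 ^ N)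
    (hw : (k + 1) * w₁ + 4 ≤ w) (hL : 1 ≤ L) (hθ : 2 ^ N ≤ θ * 2 ^ L) (hθ' : θ < 2 ^ (N - w))
    (herr : 24 * (T * (S * ((2 * N + 1) ^ w * θ))) ≤ 2 ^ N) (hrN : r < N)
    (hN : 16 * (8 * w * L) * S * (r + 1) ≤ N - r)
    (hbad : 24 * T * (S + r + 1) ≤ 4 ^ w₁) :
    (N - r) ^ (k - 1) ≤
      T * Nat.clog 2 T ^ (k - 1) * (8 * (8 * w * L) * S) ^ (k - 1) * 2 ^ (k * (k + 1) / 2 + 1) := by
  have hS : 1 ≤ S := by have := out.2; omega
  have hkw : 2 * w₁ ≤ (k + 1) * w₁ := Nat.mul_le_mul_right _ (by omega)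
  obtain ⟨F, hF, hF0, hFn, hFe⟩ := exists_approx M w θ hθ' no
  have hbc := bad_card (r := r) (w := w) (w₁ := w₁) (θ := θ) (L := L) (T := T) F hF hS hL hθ
    (by omega) hrN hN hbad
  set bd := univ.filter (fun P : Pth r N => ∃ t < T, P ∈ bad1 w₁ (F t) ∨ P ∈ bad2 w₁ (F t))
    with hbd
  set acc := univ.filter (fun P : Pth r N => M.run (yes P) T out = true) with hacc
  set cut := univ.filter (fun χ : Col N => M.run (no χ) T out = true) with hcut
  set g' := acc.filter (fun P => ∀ q ≤ r, ∀ U ∈ F T out, ¬ Sub U (UP P q)) with hg'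
  set good := g' \ bd with hgood
  have hS0 : (0 : ℝ) < S := by exact_mod_cast hS
  have hS1 : (1 : ℝ) ≤ S := by exact_mod_cast hS
  have hμ : ((8 * w * L : ℕ) : ℝ) * r ≤ (1 / (16 * S) : ℝ) * ((N - r : ℕ) : ℝ) := by
    have h1 : 16 * (8 * w * L) * S * r ≤ N - r :=
      (Nat.mul_le_mul_left _ (Nat.le_succ r)).trans hN
    have h2 : ((16 * (8 * w * L) * S * r : ℕ) : ℝ) ≤ ((N - r : ℕ) : ℝ) := by exact_mod_cast h1
    rw [one_div, inv_mul_eq_div, le_div_iff₀ (by positivity)]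
    calc ((8 * w * L : ℕ) : ℝ) * r * (16 * S) = ((16 * (8 * w * L) * S * r : ℕ) : ℝ) := by
          push_cast; ring
      _ ≤ _ := h2
  have hμ1 : (1 / (16 * S) : ℝ) ≤ 1 / 4 := by
    apply one_div_le_one_div_of_le (by norm_num)
    linarith
  have hE : (univ.filter (fun χ : Col N => Hits (F T out) χ ∧ χ ∉ cut)).card ≤
      T * (S * ((2 * N + 1) ^ w * θ)) := by
    refine (card_le_card fun χ hχ => ?_).trans (hFe T)
    obtain ⟨-, h1, h2⟩ := mem_filter.1 hχ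
    refine mem_filter.2 ⟨mem_univ _, out, h1, ?_⟩
    by_contra h3
    exact h2 (mem_filter.2 ⟨mem_univ _, by simpa using h3⟩)
  have hend := end_card (r := r) (F T out) (hF T out)
    (fun D hD a ha haw => hextAux (F T) (hF T) hL hθ out D hD a ha haw) hrN hμ (by positivity) hμ1
    acc cut hE
  have hgc : Fintype.card (Pth r N) ≤ 4 * good.card := by
    have h2N : (0 : ℝ) < 2 ^ N := by positivity
    have hadv' : (Fintype.card (Pth r N) : ℝ) * 2 ^ N + 3 * (cut.card : ℝ) *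
        (Fintype.card (Pth r N) : ℝ) ≤ 3 * (acc.card : ℝ) * 2 ^ N := by exact_mod_cast hadv
    have herr' : 24 * ((T * (S * ((2 * N + 1) ^ w * θ)) : ℕ) : ℝ) ≤ 2 ^ N := by
      exact_mod_cast herr
    have hC0 : (0 : ℝ) ≤ (Fintype.card (Pth r N) : ℝ) := by positivity
    have h1 := mul_le_mul_of_nonneg_right herr' hC0
    have h2 : 24 * ((Fintype.card (Pth r N) : ℝ) * 2 ^ N) ≤
        72 * ((acc.card : ℝ) * 2 ^ N - (cut.card : ℝ) * (Fintype.card (Pth r N) : ℝ)) := by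
      linarith
    have h3 : 7 * (Fintype.card (Pth r N) : ℝ) * 2 ^ N ≤ 24 * (g'.card : ℝ) * 2 ^ N := by
      nlinarith
    have h4 : 7 * (Fintype.card (Pth r N) : ℝ) ≤ 24 * (g'.card : ℝ) := by
      by_contra hcon
      push Not at hcon
      have := mul_lt_mul_of_pos_right hcon h2N
      linarith
    have h5 : 7 * Fintype.card (Pth r N) ≤ 24 * g'.card := by exact_mod_cast h4
    have h6 : g'.card ≤ good.card + bd.card := by
      rw [hgood]
      have := card_le_card_sdiff_add_card (s := g') (t := bd)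
      omega
    omega
  have hgm : ∀ P ∈ good, ∀ t < T, P ∉ bad1 w₁ (F t) ∧ P ∉ bad2 w₁ (F t) := by
    intro P hP t ht
    have h1 := (mem_sdiff.1 hP).2
    constructor
    · intro h
      exact h1 (mem_filter.2 ⟨mem_univ _, t, ht, Or.inl h⟩)
    · intro h
      exact h1 (mem_filter.2 ⟨mem_univ _, t, ht, Or.inr h⟩)
  have hB : 1 ≤ 8 * w * L := by
    have h1 : 1 * 1 ≤ (8 * w) * L := Nat.mul_le_mul (by omega) hL
    omega
  have hN1 : 8 * (8 * w * L) * r ≤ N - r := by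
    refine le_trans ?_ hN
    calc 8 * (8 * w * L) * r = 8 * (8 * w * L) * 1 * r := by ring
      _ ≤ 16 * (8 * w * L) * S * (r + 1) :=
        Nat.mul_le_mul (Nat.mul_le_mul (Nat.mul_le_mul_right _ (by omega)) hS) (by omega)
  have hN2 : 8 * (8 * w * L) * S * 2 ^ k ≤ N - r := by
    refine le_trans ?_ hN
    rw [← hrk]
    exact Nat.mul_le_mul_right _ (Nat.mul_le_mul_right _ (Nat.mul_le_mul_right _ (by omega)))
  refine count hk hrk hB hS hrN hN1 hN2 good hgc (passed M yes F) ?_ ?_ ?_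
    (fun t ρ x => covSet w₁ (F t) ρ x) ?_ ?_ ?_ (w₁ := w₁)
  · intro P _ q _
    exact passed_zero M yes F hF0 P q
  · intro P hP q hq
    have h1 := mem_filter.1 (mem_sdiff.1 hP).1
    exact ⟨out, (mem_filter.1 h1.1).2, fun U hU => h1.2 q hq U hU⟩
  · intro t ht P hP
    obtain ⟨q₀, hq₀⟩ := hrd t P
    refine ⟨q₀, fun q hq h => ?_⟩
    obtain ⟨h1, h2⟩ := hgm P hP t ht
    rcases passed_step (w := w) (w₁ := w₁) (θ := θ) (by omega) M F yes no Loc (fun t i => hF t i)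
      hFn hyes hX t P q₀ hq₀ h1 h2 q hq h with h3 | ⟨a, ha, h3⟩
    · exact Or.inl h3
    · exact Or.inr (hq₀ q hq a ha h3)
  · intro t _ ρ x a hρ ha haw
    refine covSet_card (F t) (hF t) hL hθ ρ x ha ?_
    have : (k + 1) * w₁ = k * w₁ + w₁ := by ring
    omega
  · intro t ρ x
    exact covSet_disj w₁ (F t) ρ x
  · intro t ht ρ x y hρ hy' hfree P hP hPO q q' hq hq' h h'
    obtain ⟨h1, _⟩ := hgm P hP t ht
    have e : (k + 1) * w₁ = k * w₁ + w₁ := by ring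
    obtain ⟨i, A, a1, a2, a3, a4, a5, a6, a7⟩ := passed_mix (w := w) (w₁ := w₁) (θ := θ) M F yes
      (fun t i => hF t i) t P h1 ρ (by omega) hPO hy' hfree hq hq' h h'
    refine ⟨supp A, ?_, a3, a4, a5, a6⟩
    unfold covSet
    rw [mem_image]
    exact ⟨A, mem_filter.2 ⟨mem_univ _, a3, a4, i, a1, a2⟩, rfl⟩

end MTX
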