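import Mathlib

/-!
# MTX.FkL (MP_e46137_lc): the numbers of the recursion
-/

namespace MTX

open Finset

/-- `Fk κ h = ∏_{j = 2}^{h} κ 2 ^ j` -/
noncomputable def Fk (κ : ℝ) : ℕ → ℝ
  | 0 => 1
  | 1 => 1
  | h + 2 => Fk κ (h + 1) * (κ * 2 ^ (h + 2))

namespace FkLAux

theorem Fk_zero (κ : ℝ) : Fk κ 0 = 1 := by rw [Fk]

theorem Fk_one (κ : ℝ) : Fk κ 1 = 1 := by rw [Fk]

theorem Fk_succ (κ : ℝ) (h : ℕ) : Fk κ (h + 2) = Fk κ (h + 1) * (κ * 2 ^ (h + 2)) := by rw [Fk]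

theorem tri_succ (l : ℕ) : (l + 1) * l / 2 = l * (l - 1) / 2 + l := by
  cases l with
  | zero => rfl
  | succ n =>
    have h : (n + 1 + 1) * (n + 1) = (n + 1) * (n + 1 - 1) + (n + 1) * 2 := by
      rw [Nat.add_sub_cancel]; ring
    rw [h, Nat.add_mul_div_right _ _ (by norm_num)]

theorem tri_le (n : ℕ) : (n + 1) * n / 2 + 1 ≤ 2 ^ n := by
  induction n with
  | zero => norm_num
  | succ n ih =>
    rw [tri_succ (n + 1), Nat.add_sub_cancel]
    have h1 : n + 1 ≤ 2 ^ n := Nat.lt_two_pow_self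
    rw [pow_succ]
    omega

end FkLAux

open FkLAux

theorem Fk_pos {κ : ℝ} (hκ : 0 < κ) (h : ℕ) : 0 < Fk κ h := by
  induction h with
  | zero => rw [Fk_zero]; norm_num
  | succ n ih =>
    cases n with
    | zero => rw [Fk_one]; norm_num
    | succ m => rw [Fk_succ]; positivity

theorem Fk_closed (κ : ℝ) (k : ℕ) : 2 * Fk κ (k + 1) = κ ^ k * 2 ^ ((k + 1) * (k + 2) / 2) := by
  induction k with
  | zero => rw [Fk_one]; norm_num
  | succ k ih =>
    have h1 : (k + 1 + 1) * (k + 1 + 2) / 2 = (k + 1) * (k + 2) / 2 + (k + 2) := by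
      have h : (k + 1 + 1) * (k + 1 + 2) = (k + 1) * (k + 2) + (k + 2) * 2 := by ring
      rw [h, Nat.add_mul_div_right _ _ (by norm_num)]
    rw [h1, Fk_succ, ← mul_assoc, ih, pow_succ, pow_add]
    ring

namespace FkLAux

/-- the last `l` factors -/
theorem sub_aux {κ : ℝ} (hκ : 0 < κ) {h : ℕ} (hκh : κ * 2 ^ h ≤ 1) (l : ℕ) :
    Fk κ (h - l) * (κ * 2 ^ h) ^ l ≤ Fk κ h * 2 ^ (l * (l - 1) / 2) := by
  have hx : 0 < κ * 2 ^ h := by positivity
  induction l with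
  | zero => simp
  | succ l ih =>
    have hF := Fk_pos hκ h
    rw [Nat.add_sub_cancel, tri_succ l, pow_add (2 : ℝ) (l * (l - 1) / 2) l]
    by_cases hl : 2 ≤ h - l
    · obtain ⟨m, hm⟩ : ∃ m, h - l = m + 2 := ⟨h - l - 2, by omega⟩
      have h1 : h - (l + 1) = m + 1 := by omega
      have h2 : h = (m + 2) + l := by omega
      rw [hm, Fk_succ] at ih
      rw [h1, pow_succ]
      have h3 : κ * 2 ^ h = κ * 2 ^ (m + 2) * 2 ^ l := by
        rw [mul_assoc, ← pow_add, ← h2]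
      have h4 : Fk κ (m + 1) * ((κ * 2 ^ h) ^ l * (κ * 2 ^ h))
          = (Fk κ (m + 1) * (κ * 2 ^ (m + 2)) * (κ * 2 ^ h) ^ l) * 2 ^ l := by
        nth_rewrite 2 [h3]
        ring
      have h5 : Fk κ h * (2 ^ (l * (l - 1) / 2) * 2 ^ l)
          = Fk κ h * 2 ^ (l * (l - 1) / 2) * 2 ^ l := (mul_assoc _ _ _).symm
      rw [h4, h5]
      exact mul_le_mul_of_nonneg_right ih (by positivity)
    · have h1 : Fk κ (h - (l + 1)) = Fk κ (h - l) := by
        have h2 : h - l = 0 ∨ h - l = 1 := by omega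
        have h3 : h - (l + 1) = 0 := by omega
        rcases h2 with h2 | h2
        · rw [h2, h3]
        · rw [h2, h3, Fk_zero, Fk_one]
      have h7 : Fk κ (h - l) * ((κ * 2 ^ h) ^ l * (κ * 2 ^ h))
          = Fk κ (h - l) * (κ * 2 ^ h) ^ l * (κ * 2 ^ h) := (mul_assoc _ _ _).symm
      have h8 : Fk κ h * (2 ^ (l * (l - 1) / 2) * 2 ^ l)
          = Fk κ h * 2 ^ (l * (l - 1) / 2) * 2 ^ l := (mul_assoc _ _ _).symm
      rw [h1, pow_succ, h7, h8]
      have h5 := Fk_pos hκ (h - l)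
      have h6 : 1 ≤ (2 : ℝ) ^ l := one_le_pow₀ (by norm_num)
      calc Fk κ (h - l) * (κ * 2 ^ h) ^ l * (κ * 2 ^ h)
          ≤ Fk κ (h - l) * (κ * 2 ^ h) ^ l * 1 :=
            mul_le_mul_of_nonneg_left hκh (by positivity)
        _ = Fk κ (h - l) * (κ * 2 ^ h) ^ l := mul_one _
        _ ≤ Fk κ h * 2 ^ (l * (l - 1) / 2) := ih
        _ ≤ Fk κ h * 2 ^ (l * (l - 1) / 2) * 2 ^ l :=
            le_mul_of_one_le_right (by positivity) h6

end FkLAux

/-- `l = Nat.size b` is the number of binary digits of `b ≥ 1`: `l (l - 1) / 2 ≤ b - 1`, and the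
product of the last `l` factors of `Fk κ h` is at least `(κ 2 ^ h) ^ l / 2 ^ (l (l - 1) / 2)`
(at least `(κ 2 ^ h) ^ (h - 1) / 2 ^ ((h - 1) (h - 2) / 2)` if `l ≥ h`). -/
theorem Fk_sub {κ : ℝ} (hκ : 0 < κ) {h b : ℕ} (hκh : κ * 2 ^ h ≤ 1) (hb : 1 ≤ b) :
    Fk κ (h - Nat.size b) * (κ * 2 ^ h) ^ b ≤ Fk κ h * 2 ^ (b - 1) := by
  have hx : 0 < κ * 2 ^ h := by positivity
  have hl : Nat.size b ≤ b := Nat.size_le.2 Nat.lt_two_pow_self
  have hF := Fk_pos hκ h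
  have hF' := Fk_pos hκ (h - Nat.size b)
  have h1 : (κ * 2 ^ h) ^ b ≤ (κ * 2 ^ h) ^ (Nat.size b) :=
    pow_le_pow_of_le_one hx.le hκh hl
  have h2 : Nat.size b * (Nat.size b - 1) / 2 ≤ b - 1 := by
    have h3 : 0 < Nat.size b := Nat.size_pos.2 hb
    obtain ⟨n, hn⟩ : ∃ n, Nat.size b = n + 1 := ⟨Nat.size b - 1, by omega⟩
    have h4 : 2 ^ n ≤ b := Nat.lt_size.1 (by omega)
    have h5 := tri_le n
    rw [hn, Nat.add_sub_cancel]
    omega
  calc Fk κ (h - Nat.size b) * (κ * 2 ^ h) ^ b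
      ≤ Fk κ (h - Nat.size b) * (κ * 2 ^ h) ^ (Nat.size b) :=
        mul_le_mul_of_nonneg_left h1 hF'.le
    _ ≤ Fk κ h * 2 ^ (Nat.size b * (Nat.size b - 1) / 2) := sub_aux hκ hκh _
    _ ≤ Fk κ h * 2 ^ (b - 1) :=
        mul_le_mul_of_nonneg_left (pow_le_pow_right₀ (by norm_num) h2) hF.le

/-- `∑ a q ^ (a - 1) ≤ 1 / (1 - q) ^ 2`, `q = 3 / 8` -/
theorem sum_geom {q : ℝ} (hq0 : 0 ≤ q) (hq : q ≤ 3 / 8) (R : ℕ) :
    ∑ a ∈ Icc 1 R, (a : ℝ) * q ^ (a - 1) ≤ 64 / 25 := by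
  have h1 : ∀ R : ℕ, ∑ a ∈ Icc 1 R, (a : ℝ) * (3 / 8 : ℝ) ^ (a - 1)
      = 64 / 25 * (1 - (3 / 8) ^ R * (1 + 5 * R / 8)) := by
    intro R
    induction R with
    | zero => simp
    | succ R ih =>
      rw [Finset.sum_Icc_succ_top (by omega), ih, Nat.add_sub_cancel, pow_succ]
      push_cast
      ring
  have h2 : ∑ a ∈ Icc 1 R, (a : ℝ) * q ^ (a - 1)
      ≤ ∑ a ∈ Icc 1 R, (a : ℝ) * (3 / 8 : ℝ) ^ (a - 1) :=
    Finset.sum_le_sum (fun a _ => mul_le_mul_of_nonneg_left (pow_le_pow_left₀ hq0 hq _)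
      (Nat.cast_nonneg _))
  rw [h1 R] at h2
  have h3 : 0 ≤ (3 / 8 : ℝ) ^ R * (1 + 5 * R / 8) := by positivity
  linarith

/-- `b` points hit at most `b` of the `2 ^ l > b` blocks of `2 ^ (h - l)` arcs, `l = Nat.size b`.
(If `l ≥ h` then `2 ^ (h - l) - 1 = 0`, take `x' = x`.) -/
theorem exists_piece (x h : ℕ) (C : Finset ℕ) :
    ∃ x', x ≤ x' ∧ x' + 2 ^ (h - Nat.size C.card) ≤ x + 2 ^ h ∧
      ∀ j ∈ C, ¬ (x' ≤ j ∧ j < x' + 2 ^ (h - Nat.size C.card) - 1) := by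
  by_cases hl : h ≤ Nat.size C.card
  · refine ⟨x, le_refl x, ?_, ?_⟩
    · rw [Nat.sub_eq_zero_of_le hl]
      exact Nat.add_le_add_left (Nat.pow_le_pow_right (by norm_num) (Nat.zero_le h)) x
    · intro j _ hj
      rw [Nat.sub_eq_zero_of_le hl] at hj
      omega
  · push Not at hl
    set l := Nat.size C.card with hl_def
    have hb : C.card < 2 ^ l := Nat.size_le.1 (le_of_eq hl_def.symm)
    set s := 2 ^ (h - l) with hs
    have hs0 : 0 < s := Nat.pow_pos (by norm_num)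
    have hmul : 2 ^ l * s = 2 ^ h := by
      rw [hs, ← pow_add]
      congr 1
      omega
    obtain ⟨i, hi, hiC⟩ : ∃ i ∈ range (2 ^ l), i ∉ C.image (fun j => (j - x) / s) := by
      by_contra hcon
      push Not at hcon
      have h1 : (range (2 ^ l)).card ≤ (C.image (fun j => (j - x) / s)).card :=
        card_le_card (fun i hi => hcon i hi)
      have h2 : (C.image (fun j => (j - x) / s)).card ≤ C.card := card_image_le
      rw [card_range] at h1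
      omega
    refine ⟨x + i * s, Nat.le_add_right _ _, ?_, ?_⟩
    · have h1 : (i + 1) * s ≤ 2 ^ l * s :=
        Nat.mul_le_mul_right _ (Nat.succ_le_of_lt (mem_range.1 hi))
      rw [hmul, Nat.add_mul, Nat.one_mul] at h1
      omega
    · rintro j hj ⟨h1, h2⟩
      apply hiC
      rw [mem_image]
      refine ⟨j, hj, ?_⟩
      apply Nat.div_eq_of_lt_le
      · omega
      · rw [Nat.add_mul, Nat.one_mul]
        omega

end MTX
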