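import Pool.Agent.Lib.MTX.Reveal
import Pool.Agent.Lib.MTX.FkL

/-!
# MTX.CountA (MP_e46137_lc): the mixed paths of one interval and one time window
-/

namespace MTX

open Classical Finset

variable {r N : ℕ}

/-- the good paths through the assigned vertices for which none of the arcs `x, …, x + 2 ^ h - 1` is
passed at time `t₁` and all of them are passed at time `t₂` -/
noncomputable def EJ (good : Finset (Pth r N)) (Z : ℕ → Pth r N → Set ℕ) (ρ : PA r N)
    (x h t₁ t₂ : ℕ) : Finset (Pth r N) :=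
  good.filter (fun P => P ∈ Om ρ ∧ (∀ q, x ≤ q → q < x + 2 ^ h → q ∉ Z t₁ P) ∧
    ∀ q, x ≤ q → q < x + 2 ^ h → q ∈ Z t₂ P)

/-- the interior positions of the arcs `x, …, x + 2 ^ h - 1` are not assigned -/
def Free (ρ : PA r N) (x h : ℕ) : Prop :=
  ∀ j : Fin r, x ≤ (j : ℕ) → (j : ℕ) + 1 < x + 2 ^ h → ρ j = none

/-- One vertex set `A`.  `Hyp` is the induction hypothesis for the smaller intervals.
Proof: `reveal_int` with `E = E₀`, `I` = the interior positions (at most `2 ^ h` of them),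
`y = 2 / (κ 2 ^ h)`, `Γ = C * Fk κ h / 2`; for given positions with `b ≥ 1` of them in `I`,
`exists_piece` gives a sub-interval of `2 ^ (h - size b)` arcs whose interior is not assigned by
`ext ρ A pos`; `Hyp` and `Fk_sub`: `Fk κ (h - size b) ≤ Fk κ h * 2 ^ (b - 1) / (κ 2 ^ h) ^ b`. -/
theorem one_set {h k w₁ : ℕ} {C κ : ℝ} (hC : 0 ≤ C) (hκ : 0 < κ) (hκh : κ * 2 ^ h ≤ 1)
    (good : Finset (Pth r N)) (Z : ℕ → Pth r N → Set ℕ) (ρ : PA r N) (x t₁ t₂ : ℕ)
    (hh : 1 ≤ h) (hhk : h ≤ k) (hx : x + 2 ^ h ≤ r + 1) (hfree : Free ρ x h)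
    (hρ : asz ρ ≤ (k - h) * w₁)
    (Hyp : ∀ h' < h, ∀ (ρ' : PA r N) (x' : ℕ), asz ρ' ≤ (k - h') * w₁ → x' + 2 ^ h' ≤ r + 1 →
      Free ρ' x' h' →
      ((EJ good Z ρ' x' h' t₁ t₂).card : ℝ) ≤ C * Fk κ h' * ((Om ρ').card : ℝ))
    {A : Finset (Fin N)} (hA : A.Nonempty) (hAw : A.card ≤ w₁)
    (hdis : ∀ j v, ρ j = some v → v ∉ A)
    {E₀ : Finset (Pth r N)} (hE₀ : E₀ ⊆ EJ good Z ρ x h t₁ t₂)
    (hcov : ∀ P ∈ E₀, ∀ v ∈ A, ∃ j, P j = v)
    (hint : ∀ P ∈ E₀, ∃ j : Fin r, x ≤ (j : ℕ) ∧ (j : ℕ) + 1 < x + 2 ^ h ∧ P j ∈ A) :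
    (E₀.card : ℝ) * ((N - r : ℕ) : ℝ) ^ A.card ≤
      C * Fk κ h / 2 * (A.card * (2 / κ) * (2 / κ + r) ^ (A.card - 1)) * ((Om ρ).card : ℝ) := by
  set I : Finset (Fin r) := univ.filter (fun j : Fin r => x ≤ (j : ℕ) ∧ (j : ℕ) + 1 < x + 2 ^ h)
    with hI
  have hmemI : ∀ j : Fin r, j ∈ I ↔ x ≤ (j : ℕ) ∧ (j : ℕ) + 1 < x + 2 ^ h := by
    intro j
    rw [hI, mem_filter]
    exact ⟨fun h => h.2, fun h => ⟨mem_univ _, h⟩⟩
  have hIcard : I.card ≤ 2 ^ h := by
    have h1 : I.card ≤ (Finset.Ico x (x + 2 ^ h)).card := by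
      refine Finset.card_le_card_of_injOn (fun j : Fin r => (j : ℕ)) ?_ ?_
      · intro j hj
        have h2 := (hmemI j).1 hj
        simp only [coe_Ico, Set.mem_Ico]
        omega
      · intro a _ b _ hab
        exact Fin.ext hab
    rwa [Nat.card_Ico, Nat.add_sub_cancel_left] at h1
  have hFk : 0 < Fk κ h := Fk_pos hκ h
  have hk2 : 0 < κ * 2 ^ h := by positivity
  have key := reveal_int (ρ := ρ) (A := A) (E := E₀) (fun P hP => (mem_filter.1 (hE₀ hP)).2.1)
    hdis hcov I (fun P hP => by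
      obtain ⟨j, h1, h2, h3⟩ := hint P hP
      exact ⟨j, (hmemI j).2 ⟨h1, h2⟩, h3⟩) (Γ := C * Fk κ h / 2) (y := 2 / (κ * 2 ^ h))
    (by positivity) (by positivity) (by
      intro pos hinj hnone hex
      set b := (A.filter (fun v => pos v ∈ I)).card with hb
      have hb1 : 1 ≤ b := by
        obtain ⟨v, hv, hvI⟩ := hex
        exact card_pos.2 ⟨v, mem_filter.2 ⟨hv, hvI⟩⟩
      set C' : Finset ℕ := (A.filter (fun v => pos v ∈ I)).image (fun v => (pos v : ℕ)) with hC'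
      have hC'card : C'.card = b := by
        rw [hC', card_image_of_injOn]
        intro u hu v hv huv
        exact hinj (mem_filter.1 hu).1 (mem_filter.1 hv).1 (Fin.ext huv)
      obtain ⟨x', hx1, hx2, hx3⟩ := exists_piece x h C'
      rw [hC'card] at hx2 hx3
      have hsz : 1 ≤ Nat.size b := by
        rw [Nat.one_le_iff_ne_zero]
        intro h0
        rw [Nat.size_eq_zero] at h0
        omega
      set h' := h - Nat.size b with hh'
      have hh'lt : h' < h := by omega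
      set ρ' := ext ρ A pos with hρ'
      have hasz : asz ρ' ≤ (k - h') * w₁ := by
        rw [hρ', asz_ext ρ hinj hnone]
        have h1 : (k - h) * w₁ + w₁ ≤ (k - h') * w₁ := by
          have h2 : (k - h) * w₁ + w₁ = (k - h + 1) * w₁ := by ring
          rw [h2]
          exact Nat.mul_le_mul_right _ (by omega)
        omega
      have hfree' : Free ρ' x' h' := by
        intro j hj1 hj2
        have h1 : ∀ v ∈ A, pos v ≠ j := by
          intro v hv hvj
          refine hx3 (pos v : ℕ) ?_ ⟨by rw [hvj]; exact hj1, by rw [hvj]; omega⟩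
          rw [hC', mem_image]
          refine ⟨v, mem_filter.2 ⟨hv, (hmemI _).2 ?_⟩, rfl⟩
          rw [hvj]
          omega
        rw [hρ', ext_of_notMem ρ h1]
        exact hfree j (by omega) (by omega)
      have h4 := Hyp h' hh'lt ρ' x' hasz (by omega) hfree'
      have h5 : (E₀.filter (fun P => ∀ v ∈ A, P (pos v) = v)).card ≤
          (EJ good Z ρ' x' h' t₁ t₂).card := by
        apply card_le_card
        intro P hP
        obtain ⟨hP1, hP2⟩ := mem_filter.1 hP
        obtain ⟨g1, g2, g3, g4⟩ := mem_filter.1 (hE₀ hP1)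
        refine mem_filter.2 ⟨g1, ?_, fun q hq1 hq2 => g3 q (by omega) (by omega),
          fun q hq1 hq2 => g4 q (by omega) (by omega)⟩
        rw [hρ', mem_om_ext ρ hinj hnone]
        exact ⟨g2, hP2⟩
      have h6 : ((E₀.filter (fun P => ∀ v ∈ A, P (pos v) = v)).card : ℝ) ≤
          C * Fk κ h' * ((Om ρ').card : ℝ) := le_trans (by exact_mod_cast h5) h4
      refine h6.trans (mul_le_mul_of_nonneg_right ?_ (by positivity))
      have h7 := Fk_sub hκ hκh hb1
      have h8 : Fk κ h' ≤ Fk κ h / 2 * (2 / (κ * 2 ^ h)) ^ b := by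
        rw [div_pow, ← mul_div_assoc, le_div_iff₀ (by positivity)]
        refine h7.trans (le_of_eq ?_)
        obtain ⟨c, hc⟩ : ∃ c, b = c + 1 := ⟨b - 1, by omega⟩
        rw [hc, Nat.add_sub_cancel, pow_succ]
        ring
      calc C * Fk κ h' ≤ C * (Fk κ h / 2 * (2 / (κ * 2 ^ h)) ^ b) :=
            mul_le_mul_of_nonneg_left h8 hC
        _ = C * Fk κ h / 2 * (2 / (κ * 2 ^ h)) ^ b := by ring)
  refine key.trans (mul_le_mul_of_nonneg_right (mul_le_mul_of_nonneg_left ?_ (by positivity))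
    (by positivity))
  have h9 : (I.card : ℝ) * (2 / (κ * 2 ^ h)) ≤ 2 / κ := by
    have h10 : (I.card : ℝ) ≤ 2 ^ h := by exact_mod_cast hIcard
    calc (I.card : ℝ) * (2 / (κ * 2 ^ h)) ≤ 2 ^ h * (2 / (κ * 2 ^ h)) :=
          mul_le_mul_of_nonneg_right h10 (by positivity)
      _ = 2 / κ := by field_simp
  have h11 : 0 ≤ (I.card : ℝ) * (2 / (κ * 2 ^ h)) := by positivity
  refine mul_le_mul (mul_le_mul_of_nonneg_left h9 (by positivity)) ?_ (by positivity)
    (by positivity)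
  exact pow_le_pow_left₀ (by positivity) (by linarith) _

end MTX
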