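import Pool.Agent.Lib.MTX.CountA

/-!
# MTX.CountB (MP_e46137_lc): the mixed paths, sum over all vertex sets
-/

namespace MTX

open Classical Finset

variable {r N : ℕ}

/-- Sum of `one_set` over the sets `A ∈ Cov`, `1 ≤ card A ≤ w₁`, at most `S * B ^ a` of them with
`a` vertices, with `κ = 8 B S / (N - r)`: each summand divided by `(N - r) ^ a`, where
`2 / κ = (N - r) / (4 B S)` and `r / (N - r) ≤ 1 / (8 B)`, gives
`C * Fk κ h / 2 * ∑_a S B ^ a a (1 / (4 B S)) (1 / (4 B S) + 1 / (8 B)) ^ (a - 1)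
 ≤ C * Fk κ h / 2 * (1 / 4) * ∑_a a (3 / 8) ^ (a - 1)`. -/
theorem mixed_card {h k w₁ B S : ℕ} {C : ℝ} (hC : 0 ≤ C) (hB : 1 ≤ B) (hS : 1 ≤ S)
    (hrN : r < N) (hμ : 8 * B * r ≤ N - r) (hκ : 8 * B * S * 2 ^ k ≤ N - r)
    (good : Finset (Pth r N)) (Z : ℕ → Pth r N → Set ℕ) (ρ : PA r N) (x t₁ t₂ : ℕ)
    (hh : 1 ≤ h) (hhk : h ≤ k) (hx : x + 2 ^ h ≤ r + 1) (hfree : Free ρ x h)
    (hρ : asz ρ ≤ (k - h) * w₁)
    (Hyp : ∀ h' < h, ∀ (ρ' : PA r N) (x' : ℕ), asz ρ' ≤ (k - h') * w₁ → x' + 2 ^ h' ≤ r + 1 →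
      Free ρ' x' h' →
      ((EJ good Z ρ' x' h' t₁ t₂).card : ℝ) ≤
        C * Fk (8 * B * S / ((N - r : ℕ) : ℝ)) h' * ((Om ρ').card : ℝ))
    (Cov : Finset (Finset (Fin N)))
    (hcov : ∀ a, 1 ≤ a → a ≤ w₁ → (Cov.filter (fun A => A.card = a)).card ≤ S * B ^ a)
    (hdis : ∀ A ∈ Cov, ∀ j v, ρ j = some v → v ∉ A)
    {E₀ : Finset (Pth r N)} (hE₀ : E₀ ⊆ EJ good Z ρ x h t₁ t₂)
    (hmix : ∀ P ∈ E₀, ∃ A ∈ Cov, 1 ≤ A.card ∧ A.card ≤ w₁ ∧ (∀ v ∈ A, ∃ j, P j = v) ∧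
      ∃ j : Fin r, x ≤ (j : ℕ) ∧ (j : ℕ) + 1 < x + 2 ^ h ∧ P j ∈ A) :
    (E₀.card : ℝ) ≤ C * Fk (8 * B * S / ((N - r : ℕ) : ℝ)) h * ((Om ρ).card : ℝ) := by
  have hn : (0 : ℝ) < ((N - r : ℕ) : ℝ) := by exact_mod_cast (by omega : 0 < N - r)
  have hB0 : (0 : ℝ) < B := by exact_mod_cast hB
  have hS0 : (0 : ℝ) < S := by exact_mod_cast hS
  have hS1 : (1 : ℝ) ≤ S := by exact_mod_cast hS
  have hμ' : (8 : ℝ) * B * r ≤ ((N - r : ℕ) : ℝ) := by exact_mod_cast hμ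
  have hκ' : (8 : ℝ) * B * S * 2 ^ k ≤ ((N - r : ℕ) : ℝ) := by exact_mod_cast hκ
  set n : ℝ := ((N - r : ℕ) : ℝ) with hndef
  set κ : ℝ := 8 * B * S / n with hκdef
  have hκ0 : 0 < κ := by positivity
  have hκh : κ * 2 ^ h ≤ 1 := by
    have h1 : (2 : ℝ) ^ h ≤ 2 ^ k := pow_le_pow_right₀ (by norm_num) hhk
    calc κ * 2 ^ h ≤ κ * 2 ^ k := by gcongr
      _ = 8 * B * S * 2 ^ k / n := by rw [hκdef]; ring
      _ ≤ 1 := by rw [div_le_one hn]; exact hκ'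
  set G : ℝ := C * Fk κ h / 2 * ((Om ρ).card : ℝ) with hG
  have hFk : 0 < Fk κ h := Fk_pos hκ0 h
  have hG0 : 0 ≤ G := by positivity
  have h2κ : 2 / κ = n / (4 * B * S) := by
    rw [hκdef]
    field_simp
    ring
  let EA : Finset (Fin N) → Finset (Pth r N) := fun A => E₀.filter (fun P =>
    (∀ v ∈ A, ∃ j, P j = v) ∧
      ∃ j : Fin r, x ≤ (j : ℕ) ∧ (j : ℕ) + 1 < x + 2 ^ h ∧ P j ∈ A)
  let ψ : ℕ → ℝ := fun a => G * (a * (2 / κ) * (2 / κ + r) ^ (a - 1)) / n ^ a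
  have hψ0 : ∀ a, 0 ≤ ψ a := fun a => by
    simp only [ψ]
    positivity
  set Cov' := Cov.filter (fun A => 1 ≤ A.card ∧ A.card ≤ w₁) with hCov'
  have hcover : E₀ ⊆ Cov'.biUnion EA := by
    intro P hP
    obtain ⟨A, hA, hA1, hAw, hcv, hint⟩ := hmix P hP
    rw [mem_biUnion]
    refine ⟨A, mem_filter.2 ⟨hA, hA1, hAw⟩, mem_filter.2 ⟨hP, hcv, hint⟩⟩
  have hone : ∀ A ∈ Cov', ((EA A).card : ℝ) ≤ ψ A.card := by
    intro A hA
    rw [hCov', mem_filter] at hA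
    have h1 := one_set (A := A) (E₀ := EA A) hC hκ0 hκh good Z ρ x t₁ t₂ hh hhk hx hfree hρ Hyp
      (card_pos.1 hA.2.1) hA.2.2 (hdis A hA.1) ((filter_subset _ _).trans hE₀)
      (fun P hP => (mem_filter.1 hP).2.1) (fun P hP => (mem_filter.1 hP).2.2)
    rw [← hndef] at h1
    simp only [ψ]
    rw [le_div_iff₀ (by positivity)]
    refine h1.trans (le_of_eq ?_)
    rw [hG]
    ring
  have hq : (B : ℝ) * ((2 / κ + r) / n) ≤ 3 / 8 := by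
    rw [h2κ]
    have h1 : (B : ℝ) * ((n / (4 * B * S) + r) / n) = 1 / (4 * S) + B * r / n := by
      field_simp
    rw [h1]
    have h2 : (1 : ℝ) / (4 * S) ≤ 1 / 4 := by
      apply one_div_le_one_div_of_le (by norm_num)
      linarith
    have h3 : (B : ℝ) * r / n ≤ 1 / 8 := by
      rw [div_le_iff₀ hn]
      linarith
    linarith
  have hq0 : 0 ≤ (B : ℝ) * ((2 / κ + r) / n) := by positivity
  have hterm : ∀ a ∈ Icc 1 w₁, ((S * B ^ a : ℕ) : ℝ) * ψ a =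
      G / 4 * ((a : ℝ) * (B * ((2 / κ + r) / n)) ^ (a - 1)) := by
    intro a ha
    rw [mem_Icc] at ha
    obtain ⟨b, rfl⟩ : ∃ b, a = b + 1 := ⟨a - 1, by omega⟩
    simp only [ψ, Nat.add_sub_cancel]
    push_cast
    rw [mul_pow, div_pow, pow_succ n, pow_succ (B : ℝ)]
    have h4 : (S : ℝ) * B * (2 / κ) / n = 1 / 4 := by
      rw [h2κ]
      field_simp
    calc (S : ℝ) * ((B : ℝ) ^ b * B) * (G * (((b : ℝ) + 1) * (2 / κ) * (2 / κ + r) ^ b) /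
          (n ^ b * n))
        = ((S : ℝ) * B * (2 / κ) / n) * (G * (((b : ℝ) + 1) *
            ((B : ℝ) ^ b * ((2 / κ + r) ^ b / n ^ b)))) := by
          field_simp
      _ = _ := by rw [h4]; ring
  have hsum : ∑ A ∈ Cov', ψ A.card ≤ ∑ a ∈ Icc 1 w₁, ((S * B ^ a : ℕ) : ℝ) * ψ a := by
    have hmaps : ∀ A ∈ Cov', A.card ∈ Icc 1 w₁ := fun A hA => by
      rw [hCov', mem_filter] at hA
      exact mem_Icc.2 hA.2
    rw [← sum_fiberwise_of_maps_to hmaps]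
    refine sum_le_sum fun a ha => ?_
    rw [mem_Icc] at ha
    have h1 : ∑ A ∈ Cov'.filter (fun A => A.card = a), ψ A.card =
        ((Cov'.filter (fun A => A.card = a)).card : ℝ) * ψ a := by
      rw [← nsmul_eq_mul, ← sum_const]
      refine sum_congr rfl fun A hA => ?_
      rw [(mem_filter.1 hA).2]
    rw [h1]
    refine mul_le_mul_of_nonneg_right ?_ (hψ0 a)
    have h2 : Cov'.filter (fun A => A.card = a) ⊆ Cov.filter (fun A => A.card = a) :=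
      filter_subset_filter _ (filter_subset _ _)
    exact_mod_cast (card_le_card h2).trans (hcov a ha.1 ha.2)
  calc (E₀.card : ℝ) ≤ (((Cov'.biUnion EA).card : ℕ) : ℝ) := by
        exact_mod_cast card_le_card hcover
    _ ≤ ((∑ A ∈ Cov', (EA A).card : ℕ) : ℝ) := by exact_mod_cast card_biUnion_le
    _ = ∑ A ∈ Cov', ((EA A).card : ℝ) := by push_cast; rfl
    _ ≤ ∑ A ∈ Cov', ψ A.card := sum_le_sum hone
    _ ≤ ∑ a ∈ Icc 1 w₁, ((S * B ^ a : ℕ) : ℝ) * ψ a := hsum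
    _ = G / 4 * ∑ a ∈ Icc 1 w₁, ((a : ℝ) * (B * ((2 / κ + r) / n)) ^ (a - 1)) := by
        rw [mul_sum]
        exact sum_congr rfl hterm
    _ ≤ G / 4 * (64 / 25) := mul_le_mul_of_nonneg_left (sum_geom hq0 hq w₁) (by positivity)
    _ ≤ 2 * G := by linarith
    _ = C * Fk κ h * ((Om ρ).card : ℝ) := by
        rw [hG]
        ring

end MTX
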