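import Pool.Agent.Lib.MTX.Core
import Pool.Agent.Lib.MTX.Model

/-!
# MTX.Embed (MP_e46137_lc): undirected graphs on `Fin n`
-/

namespace MTX

open Classical Finset

variable {n r N : ℕ}

/-- the vertices of the path: `s, y (P 0), …, y (P (r - 1)), t, t, …` -/
def vx (y : Fin N → Fin n) (s t : Fin n) (P : Pth r N) (i : ℕ) : Fin n :=
  if i = 0 then s else if h : i - 1 < r then y (P ⟨i - 1, h⟩) else t

/-- the undirected path through the vertices `P` -/
noncomputable def pathG (y : Fin N → Fin n) (s t : Fin n) (P : Pth r N) (a b : Fin n) : Bool :=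
  decide (∃ q ≤ r, (a = vx y s t P q ∧ b = vx y s t P (q + 1)) ∨
    (b = vx y s t P q ∧ a = vx y s t P (q + 1)))

/-- the side of a vertex: `s` and the true vertices on the side `true` -/
noncomputable def side (y : Fin N → Fin n) (s : Fin n) (χ : Col N) (v : Fin n) : Bool :=
  decide (v = s ∨ ∃ u, y u = v ∧ χ u = true)

/-- two disjoint cliques -/
noncomputable def cutG (y : Fin N → Fin n) (s : Fin n) (χ : Col N) (a b : Fin n) : Bool :=
  decide (side y s χ a = side y s χ b)

namespace EmbedAux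

/-- the abstract machine -/
def conv {n S : ℕ} (M : SharpTS.Mach n S) : AMach (Fin n × Fin n) S where
  init := M.init
  rd := fun t σ => {p | p.1 = M.v t σ ∨ p.2 = M.v t σ}
  next := fun t σ x => M.next t σ (fun a b => x (a, b))
  mono := by
    intro t σ σ' x y hσ hx
    apply M.mono t σ σ' _ _ hσ
    intro u
    exact ⟨hx _ (Or.inl rfl), hx _ (Or.inr rfl)⟩

theorem run_conv {n S : ℕ} (M : SharpTS.Mach n S) (G : Fin n → Fin n → Bool) (T : ℕ) :
    (conv M).run (fun p => G p.1 p.2) T = M.run G T := by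
  induction T with
  | zero => rfl
  | succ T ih =>
    show M.next T ((conv M).run (fun p => G p.1 p.2) T) (fun a b => G a b) =
      M.next T (M.run G T) G
    rw [ih]

theorem UP_at (P : Pth r N) (q : ℕ) (j : Fin r) : UP P q (P j) = some (decide ((j : ℕ) < q)) := by
  unfold UP
  by_cases h : (j : ℕ) < q
  · rw [if_pos ⟨j, h, rfl⟩, decide_eq_true h]
  · rw [if_neg, if_pos ⟨j, rfl⟩, decide_eq_false h]
    rintro ⟨i, hi, hij⟩
    have : i = j := P.injective hij
    rw [this] at hi
    exact h hi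

theorem vx_zero (y : Fin N → Fin n) (s t : Fin n) (P : Pth r N) : vx y s t P 0 = s := by
  unfold vx
  rw [if_pos rfl]

theorem vx_succ (y : Fin N → Fin n) (s t : Fin n) (P : Pth r N) (j : Fin r) :
    vx y s t P ((j : ℕ) + 1) = y (P j) := by
  unfold vx
  rw [if_neg (by omega), dif_pos (show (j : ℕ) + 1 - 1 < r by rw [Nat.add_sub_cancel]; exact j.2)]
  congr 2

theorem vx_last (y : Fin N → Fin n) (s t : Fin n) (P : Pth r N) : vx y s t P (r + 1) = t := by
  unfold vx
  rw [if_neg (by omega), dif_neg (by omega)]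

theorem vx_inj {y : Fin N → Fin n} (hy : Function.Injective y) {s t : Fin n}
    (hst : s ≠ t) (hs : ∀ x, y x ≠ s) (ht : ∀ x, y x ≠ t) {P : Pth r N} {i i' : ℕ}
    (hi : i ≤ r + 1) (hi' : i' ≤ r + 1) (h : vx y s t P i = vx y s t P i') : i = i' := by
  rcases Nat.eq_zero_or_pos i with rfl | hi0
  · rcases Nat.eq_zero_or_pos i' with rfl | hi0'
    · rfl
    · exfalso
      rw [vx_zero] at h
      by_cases h2 : i' - 1 < r
      · have h3 := vx_succ y s t P ⟨i' - 1, h2⟩
        rw [show ((⟨i' - 1, h2⟩ : Fin r) : ℕ) + 1 = i' from Nat.sub_add_cancel hi0'] at h3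
        rw [h3] at h
        exact hs _ h.symm
      · have h3 : i' = r + 1 := by omega
        rw [h3, vx_last] at h
        exact hst h
  · rcases Nat.eq_zero_or_pos i' with rfl | hi0'
    · exfalso
      rw [vx_zero] at h
      by_cases h2 : i - 1 < r
      · have h3 := vx_succ y s t P ⟨i - 1, h2⟩
        rw [show ((⟨i - 1, h2⟩ : Fin r) : ℕ) + 1 = i from Nat.sub_add_cancel hi0] at h3
        rw [h3] at h
        exact hs _ h
      · have h3 : i = r + 1 := by omega
        rw [h3, vx_last] at h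
        exact hst h.symm
    · by_cases h2 : i - 1 < r
      · have h3 := vx_succ y s t P ⟨i - 1, h2⟩
        rw [show ((⟨i - 1, h2⟩ : Fin r) : ℕ) + 1 = i from Nat.sub_add_cancel hi0] at h3
        rw [h3] at h
        by_cases h4 : i' - 1 < r
        · have h5 := vx_succ y s t P ⟨i' - 1, h4⟩
          rw [show ((⟨i' - 1, h4⟩ : Fin r) : ℕ) + 1 = i' from Nat.sub_add_cancel hi0'] at h5
          rw [h5] at h
          have h6 := P.injective (hy h)
          have h7 := congrArg Fin.val h6
          have h8 : i - 1 = i' - 1 := h7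
          omega
        · have h5 : i' = r + 1 := by omega
          rw [h5, vx_last] at h
          exact absurd h (ht _)
      · have h3 : i = r + 1 := by omega
        by_cases h4 : i' - 1 < r
        · have h5 := vx_succ y s t P ⟨i' - 1, h4⟩
          rw [show ((⟨i' - 1, h4⟩ : Fin r) : ℕ) + 1 = i' from Nat.sub_add_cancel hi0'] at h5
          rw [h5, h3, vx_last] at h
          exact absurd h.symm (ht _)
        · omega

/-- the colours of the inner ends of the edge `q'` in `UP P q` -/
noncomputable def two (P : Pth r N) (q q' : ℕ) : PC N := fun v =>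
  if ∃ j : Fin r, P j = v ∧ ((j : ℕ) = q' ∨ (j : ℕ) + 1 = q') then UP P q v else none

theorem two_sub (P : Pth r N) (q q' : ℕ) : Sub (two P q q') (UP P q) := by
  intro v x h
  unfold two at h
  by_cases h1 : ∃ j : Fin r, P j = v ∧ ((j : ℕ) = q' ∨ (j : ℕ) + 1 = q')
  · rwa [if_pos h1] at h
  · rw [if_neg h1] at h
    exact absurd h (by simp)

theorem two_size (P : Pth r N) (q q' : ℕ) : size (two P q q') ≤ 2 := by
  have h1 : (univ.filter fun v => two P q q' v ≠ none) ⊆
      (univ.filter fun j : Fin r => (j : ℕ) = q' ∨ (j : ℕ) + 1 = q').image P := by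
    intro v hv
    have h2 := (mem_filter.1 hv).2
    unfold two at h2
    by_cases h3 : ∃ j : Fin r, P j = v ∧ ((j : ℕ) = q' ∨ (j : ℕ) + 1 = q')
    · obtain ⟨j, h4, h5⟩ := h3
      exact mem_image.2 ⟨j, mem_filter.2 ⟨mem_univ _, h5⟩, h4⟩
    · rw [if_neg h3] at h2
      exact absurd rfl h2
  have h2 : (univ.filter fun j : Fin r => (j : ℕ) = q' ∨ (j : ℕ) + 1 = q').card ≤ 2 := by
    have h3 : ((univ.filter fun j : Fin r => (j : ℕ) = q' ∨ (j : ℕ) + 1 = q').image
        Fin.val) ⊆ {q', q' - 1} := by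
      intro x hx
      obtain ⟨j, hj, rfl⟩ := mem_image.1 hx
      have h4 := (mem_filter.1 hj).2
      rw [mem_insert, mem_singleton]
      omega
    have h5 := card_le_card h3
    rw [card_image_of_injective _ Fin.val_injective] at h5
    exact h5.trans card_le_two
  exact ((card_le_card h1).trans card_image_le).trans h2

theorem side_y {y : Fin N → Fin n} (hy : Function.Injective y) {s : Fin n}
    (hs : ∀ x, y x ≠ s) (χ : Col N) (x : Fin N) : side y s χ (y x) = χ x := by
  unfold side
  by_cases h : χ x = true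
  · rw [h]
    exact decide_eq_true (Or.inr ⟨x, rfl, h⟩)
  · rw [Bool.eq_false_iff.2 h, decide_eq_false_iff_not]
    rintro (h1 | ⟨u, hu, hc⟩)
    · exact hs x h1
    · rw [hy hu] at hc
      exact h hc

theorem side_vx {y : Fin N → Fin n} (hy : Function.Injective y) {s t : Fin n}
    (hst : s ≠ t) (hs : ∀ x, y x ≠ s) (ht : ∀ x, y x ≠ t) {P : Pth r N}
    {i q q' : ℕ} (hi : i ≤ r + 1) (hq : q ≤ r)
    (hiq : i = q' ∨ i = q' + 1) {χ : Col N} (hχ : Agree (two P q q') χ) :
    side y s χ (vx y s t P i) = decide (i ≤ q) := by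
  rcases Nat.eq_zero_or_pos i with rfl | hi0
  · rw [vx_zero]
    unfold side
    rw [decide_eq_true (Or.inl rfl), decide_eq_true (Nat.zero_le q)]
  · by_cases h : i - 1 < r
    · have h1 := vx_succ y s t P ⟨i - 1, h⟩
      rw [show ((⟨i - 1, h⟩ : Fin r) : ℕ) + 1 = i from Nat.sub_add_cancel hi0] at h1
      rw [h1, side_y hy hs]
      have h2 : two P q q' (P ⟨i - 1, h⟩) = some (decide (i - 1 < q)) := by
        unfold two
        rw [if_pos ⟨⟨i - 1, h⟩, rfl, show i - 1 = q' ∨ i - 1 + 1 = q' by omega⟩]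
        exact UP_at P q ⟨i - 1, h⟩
      rw [hχ _ _ h2, decide_eq_decide]
      omega
    · have h1 : i = r + 1 := by omega
      rw [h1, vx_last]
      unfold side
      rw [decide_eq_false (by omega : ¬ r + 1 ≤ q), decide_eq_false_iff_not]
      rintro (h2 | ⟨u, hu, -⟩)
      · exact hst h2.symm
      · exact ht u hu

end EmbedAux

open EmbedAux

/-- `core` with `A = Fin n × Fin n`, `rd t σ` = the pairs which contain `M.v t σ`, `yes P` = `pathG`,
`no χ` = `cutG`, `Loc P (a, b) q` = `{a, b}` is the pair of the ends `vx q`, `vx (q + 1)`.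
`hX`: `vx j` for `1 ≤ j ≤ r` has in `UP P q` the colour `j - 1 < q`; both ends of the arc `q' ≠ q` get
the same side (`s = vx 0` is on the side `true`, `t = vx (r + 1)` on the side `false`, since
`y` avoids `s` and `t`); `V` = the (at most two) inner ends with these colours.  `hrd`: if
`M.v t σ = vx i` then only the arcs `i - 1`, `i` can be read. -/
theorem explicit1 {S w w₁ k θ L T : ℕ} (hk : 1 ≤ k) (hrk : r + 1 = 2 ^ k) {s t : Fin n}
    (hst : s ≠ t) (y : Fin N → Fin n) (hy : Function.Injective y) (hys : ∀ u, y u ≠ s)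
    (hyt : ∀ u, y u ≠ t) (M : SharpTS.Mach n S) (out : Fin S)
    (hadv : Fintype.card (Pth r N) * 2 ^ N +
        3 * (univ.filter (fun χ : Col N => M.run (cutG y s χ) T out = true)).card *
          Fintype.card (Pth r N) ≤
      3 * (univ.filter (fun P : Pth r N => M.run (pathG y s t P) T out = true)).card * 2 ^ N)
    (hw : (k + 1) * w₁ + 4 ≤ w) (hL : 1 ≤ L) (hθ : 2 ^ N ≤ θ * 2 ^ L) (hθ' : θ < 2 ^ (N - w))
    (herr : 24 * (T * (S * ((2 * N + 1) ^ w * θ))) ≤ 2 ^ N) (hrN : r < N)
    (hN : 16 * (8 * w * L) * S * (r + 1) ≤ N - r)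
    (hbad : 24 * T * (S + r + 1) ≤ 4 ^ w₁) :
    (N - r) ^ (k - 1) ≤
      T * Nat.clog 2 T ^ (k - 1) * (8 * (8 * w * L) * S) ^ (k - 1) * 2 ^ (k * (k + 1) / 2 + 1) := by
  refine core (θ := θ) hk hrk (conv M) out (fun P p => pathG y s t P p.1 p.2)
    (fun χ p => cutG y s χ p.1 p.2)
    (fun P p q => (p.1 = vx y s t P q ∧ p.2 = vx y s t P (q + 1)) ∨
      (p.2 = vx y s t P q ∧ p.1 = vx y s t P (q + 1))) ?_ ?_ ?_ ?_ hw hL hθ hθ' herr hrN hN hbad
  · intro P a ha
    exact of_decide_eq_true ha
  · intro P q hq q' hq' hne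
    refine ⟨two P q q', two_size P q q', two_sub P q q', fun a ha χ hχ => ?_⟩
    have h1 := side_vx hy hst hys hyt (P := P) (i := q') (q := q) (q' := q') (by omega) hq
      (Or.inl rfl) hχ
    have h2 := side_vx hy hst hys hyt (P := P) (i := q' + 1) (q := q) (q' := q') (by omega) hq
      (Or.inr rfl) hχ
    have h3 : decide (q' ≤ q) = decide (q' + 1 ≤ q) := by
      rw [decide_eq_decide]
      omega
    refine decide_eq_true ?_
    rcases ha with ⟨ha, hb⟩ | ⟨hb, ha⟩
    · rw [ha, hb, h1, h2, h3]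
    · rw [ha, hb, h1, h2, h3]
  · intro τ P
    generalize hσ : (conv M).run (fun p => pathG y s t P p.1 p.2) τ = σ
    by_cases h : ∃ i ≤ r + 1, vx y s t P i = M.v τ σ
    · obtain ⟨i, hi, hv⟩ := h
      refine ⟨i - 1, fun q hq a hmem hloc => ?_⟩
      have key : vx y s t P q = M.v τ σ ∨ vx y s t P (q + 1) = M.v τ σ := by
        rcases hmem with h1 | h1 <;> rcases hloc with ⟨h2, h3⟩ | ⟨h2, h3⟩
        · left; rw [← h2]; exact h1
        · right; rw [← h3]; exact h1
        · right; rw [← h3]; exact h1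
        · left; rw [← h2]; exact h1
      rcases key with h1 | h1
      · have h3 := vx_inj hy hst hys hyt (i := q) (by omega) hi (h1.trans hv.symm)
        omega
      · have h3 := vx_inj hy hst hys hyt (i := q + 1) (by omega) hi (h1.trans hv.symm)
        omega
    · refine ⟨0, fun q hq a hmem hloc => ?_⟩
      exfalso
      apply h
      have key : vx y s t P q = M.v τ σ ∨ vx y s t P (q + 1) = M.v τ σ := by
        rcases hmem with h1 | h1 <;> rcases hloc with ⟨h2, h3⟩ | ⟨h2, h3⟩
        · left; rw [← h2]; exact h1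
        · right; rw [← h3]; exact h1
        · right; rw [← h3]; exact h1
        · left; rw [← h2]; exact h1
      rcases key with h1 | h1
      · exact ⟨q, by omega, h1⟩
      · exact ⟨q + 1, by omega, h1⟩
  · have e1 : ∀ χ : Col N, (conv M).run (fun p => cutG y s χ p.1 p.2) T = M.run (cutG y s χ) T :=
      fun χ => run_conv M (cutG y s χ) T
    have e2 : ∀ P : Pth r N, (conv M).run (fun p => pathG y s t P p.1 p.2) T =
        M.run (pathG y s t P) T := fun P => run_conv M (pathG y s t P) T
    simp only [e1, e2]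
    exact hadv

end MTX
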