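import Pool.Agent.Lib.MTX.Lower
import Pool.Agent.Lib.MTX.Upper
import Pool.Agent.Lib.MTX.PhiL
import Pool.Agent.Lib.MTX.Model

/-!
# MTX.Final (MP_e46137_lc): sharp time-space tradeoff for monotone computation of reachability
-/

namespace MTX

open SharpTS

namespace FinalAux

/-- a machine of MTB (vertex read independent of the memory) as a machine of the final model -/
def toM {n S : ℕ} (M : MTB.Mach n S) : SharpTS.Mach n S where
  init := M.init
  v := fun t _ => M.v t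
  next := M.next
  mono := fun t σ σ' G G' h hG => M.mono t σ σ' G G' h hG

theorem run_toM {n S : ℕ} (M : MTB.Mach n S) (G : Fin n → Fin n → Bool) (T : ℕ) :
    (toM M).run G T = M.run G T := by
  induction T with
  | zero => rfl
  | succ T ih =>
    show M.next T ((toM M).run G T) G = M.next T (M.run G T) G
    rw [ih]

theorem simple_toM {n S : ℕ} (M : MTB.Mach n S) (h : M.Simple) : (toM M).Simple := by
  intro t
  obtain ⟨i, h1 | ⟨u, h1⟩ | h1 | h1⟩ := h t
  · exact ⟨i, Or.inl h1⟩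
  · exact ⟨i, Or.inr (Or.inl ⟨M.v t, u, h1⟩)⟩
  · exact ⟨i, Or.inr (Or.inr (Or.inl h1))⟩
  · exact ⟨i, Or.inr (Or.inr (Or.inr h1))⟩

theorem hasWalk_eq {V : Type} (G : V → V → Bool) (l : ℕ) (u v : V) :
    SharpTS.HasWalk G l u v ↔ MTB.HasWalk G l u v := by
  induction l generalizing v with
  | zero => exact Iff.rfl
  | succ l ih =>
    constructor
    · rintro ⟨w, h1, h2⟩
      exact ⟨w, (ih w).1 h1, h2⟩
    · rintro ⟨w, h1, h2⟩
      exact ⟨w, (ih w).2 h1, h2⟩

theorem decides_toM {n S : ℕ} (M : MTB.Mach n S) (out : Fin S) (T l : ℕ) (s t : Fin n)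
    (h : MTB.Decides M out T l s t) : SharpTS.Decides (toM M) out T l s t := by
  intro G
  rw [run_toM]
  obtain ⟨h1, h2⟩ := h G
  refine ⟨?_, h2⟩
  rintro ⟨l', hl', hw⟩
  exact h1 ⟨l', hl', (hasWalk_eq G l' s t).1 hw⟩

end FinalAux

open FinalAux

theorem final : ∃ c : ℝ, 0 < c ∧ ∀ (n S d : ℕ) (s t : Fin n), 4 ≤ n → 1 ≤ S → S ≤ n → 2 ≤ d →
    d ≤ n → s ≠ t →
    (∀ (T : ℕ) (Ω : Type) [Fintype Ω] (p : Ω → ℝ), (∀ ω, 0 ≤ p ω) → ∑ ω, p ω = 1 →
      ∀ (M : Ω → SharpTS.Mach n S) (out : Ω → Fin S), DecidesP p M out T d s t →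
      SharpTS.phi n S d - c * SharpTS.err n S d ≤ Real.logb 2 T) ∧
    (c * Real.logb 2 n ≤ S → ∃ S' ≤ S, ∃ (M : SharpTS.Mach n S') (out : Fin S') (T : ℕ),
      1 ≤ T ∧ M.Simple ∧ SharpTS.Decides M out T d s t ∧
      Real.logb 2 T ≤ SharpTS.phi n S d + c * SharpTS.err n S d) ∧
    SharpTS.phi n S n = SharpTS.lam n S ^ 2 / 2 := by
  obtain ⟨c₁, hc₁, hL⟩ := lower
  obtain ⟨c₂, hc₂, hU⟩ := upper
  refine ⟨max c₁ c₂, lt_max_of_lt_left hc₁, ?_⟩
  intro n S d s t hn hS hSn hd hdn hst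
  have he : 0 ≤ err n S d := err_nonneg hn hS hSn (by omega)
  refine ⟨?_, ?_, phi_self hS hSn⟩
  · intro T Ω _ p hp0 hp1 M out hM
    refine le_trans ?_ (hL n S d T s t hn hS hSn hd hdn hst Ω p hp0 hp1 M out hM)
    have h1 : c₁ * err n S d ≤ max c₁ c₂ * err n S d :=
      mul_le_mul_of_nonneg_right (le_max_left _ _) he
    show phi n S d - max c₁ c₂ * err n S d ≤ _
    linarith
  · intro hS2
    have hlog : 0 ≤ Real.logb 2 (n : ℝ) :=
      Real.logb_nonneg (by norm_num) (by exact_mod_cast (by omega : 1 ≤ n))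
    obtain ⟨S', hS', M, out, T, hT, hM1, hM2, hM3⟩ := hU n S d s t hn hSn hd hdn
      ((mul_le_mul_of_nonneg_right (le_max_right c₁ c₂) hlog).trans hS2)
    refine ⟨S', hS', toM M, out, T, hT, simple_toM M hM1, decides_toM M out T d s t hM2,
      hM3.trans ?_⟩
    have h1 : c₂ * err n S d ≤ max c₁ c₂ * err n S d :=
      mul_le_mul_of_nonneg_right (le_max_right _ _) he
    show phi n S d + c₂ * err n S d ≤ phi n S d + max c₁ c₂ * err n S d
    linarith

end MTX
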