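import Pool.Agent.Lib.MTX.Basic

/-!
# MTX.Join (MP_e46137_lc): elementary facts on partial colourings
-/

namespace MTX

open Classical Finset

variable {r N : ℕ}

namespace JoinAux

theorem up_iff (P : Pth r N) (q : ℕ) (v : Fin N) (c : Bool) :
    UP P q v = some c ↔ ∃ j : Fin r, P j = v ∧ c = decide ((j : ℕ) < q) := by
  unfold UP
  constructor
  · intro hv
    split_ifs at hv with h1 h2
    · obtain ⟨j, hjq, hj⟩ := h1
      refine ⟨j, hj, ?_⟩
      rw [decide_eq_true hjq]
      exact (Option.some.inj hv).symm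
    · obtain ⟨j, hj⟩ := h2
      refine ⟨j, hj, ?_⟩
      rw [decide_eq_false (fun h => h1 ⟨j, h, hj⟩)]
      exact (Option.some.inj hv).symm
  · rintro ⟨j, rfl, rfl⟩
    by_cases h : (j : ℕ) < q
    · rw [if_pos ⟨j, h, rfl⟩, decide_eq_true h]
    · rw [if_neg, if_pos ⟨j, rfl⟩, decide_eq_false h]
      rintro ⟨i, hi, hij⟩
      rw [P.injective hij] at hi
      exact h hi

end JoinAux

theorem sub_refl (U : PC N) : Sub U U := by
  exact fun _ _ h => h

theorem sub_trans {U V W : PC N} (h : Sub U V) (h' : Sub V W) : Sub U W := by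
  exact fun v c hc => h' v c (h v c hc)

theorem sub_antisymm {U W : PC N} (h : Sub U W) (h' : Sub W U) : U = W := by
  funext v
  rcases hv : U v with _ | x
  · rcases hw : W v with _ | c
    · rfl
    · exact absurd (h' v c hw) (by rw [hv]; simp)
  · exact (h v x hv).symm

theorem size_mono {U W : PC N} (h : Sub U W) : size U ≤ size W := by
  refine card_le_card fun v hv => ?_
  rw [mem_filter] at hv ⊢
  obtain ⟨y, hy⟩ := Option.ne_none_iff_exists'.1 hv.2
  exact ⟨mem_univ _, by rw [h v y hy]; simp⟩

theorem size_emp : size (emp N) = 0 := by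
  simp [size, emp]

theorem size_eq_zero {U : PC N} (h : size U = 0) : U = emp N := by
  funext v
  by_contra hv
  unfold size at h
  rw [card_eq_zero] at h
  have h2 : v ∈ (univ.filter fun v => U v ≠ none) := mem_filter.2 ⟨mem_univ _, hv⟩
  rw [h] at h2
  exact absurd h2 (notMem_empty _)

theorem size_join_le (D A : PC N) : size (join D A) ≤ size D + size A := by
  unfold size
  refine (card_le_card ?_).trans (card_union_le _ _)
  intro v hv
  have hv' : join D A v ≠ none := (mem_filter.1 hv).2
  rw [mem_union, mem_filter, mem_filter]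
  unfold join at hv'
  by_cases h : D v = none
  · rw [if_pos h] at hv'
    exact Or.inr ⟨mem_univ _, hv'⟩
  · exact Or.inl ⟨mem_univ _, h⟩

theorem sub_join_left (D A : PC N) : Sub D (join D A) := by
  intro v x hx
  unfold join
  rw [if_neg (by rw [hx]; simp), hx]

theorem sub_join_right {D A V : PC N} (hD : Sub D V) (hA : Sub A V) : Sub A (join D A) := by
  intro v x hx
  unfold join
  by_cases h : D v = none
  · rw [if_pos h, hx]
  · rw [if_neg h]
    obtain ⟨y, hy⟩ := Option.ne_none_iff_exists'.1 h
    rw [hy, ← hD v y hy, hA v x hx]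

theorem join_sub {D A V : PC N} (hD : Sub D V) (hA : Sub A V) : Sub (join D A) V := by
  intro v x hx
  unfold join at hx
  by_cases h : D v = none
  · rw [if_pos h] at hx
    exact hA v x hx
  · rw [if_neg h] at hx
    exact hD v x hx

theorem join_emp (D : PC N) : join D (emp N) = D := by
  funext v
  unfold join emp
  by_cases h : D v = none
  · rw [if_pos h, h]
  · rw [if_neg h]

theorem emp_join (A : PC N) : join (emp N) A = A := by
  funext v
  unfold join emp
  rw [if_pos rfl]

theorem sub_UP_iff (P : Pth r N) (q : ℕ) (A : PC N) :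
    Sub A (UP P q) ↔ ∀ v c, A v = some c → ∃ j : Fin r, P j = v ∧ c = decide ((j : ℕ) < q) := by
  exact forall₂_congr fun v c => by rw [JoinAux.up_iff]

/-- the assigned vertices are coloured as in `UP P q` -/
theorem colr_sub {ρ : PA r N} {P : Pth r N} (hP : P ∈ Om ρ) (q : ℕ) :
    Sub (colr ρ q) (UP P q) := by
  rw [sub_UP_iff]
  intro v c hv
  have hP' : ∀ j v, ρ j = some v → P j = v := (mem_filter.1 hP).2
  unfold colr at hv
  split_ifs at hv with h1 h2
  · obtain ⟨j, hjq, hj⟩ := h1
    refine ⟨j, hP' j v hj, ?_⟩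
    rw [decide_eq_true hjq]
    exact (Option.some.inj hv).symm
  · obtain ⟨j, hj⟩ := h2
    refine ⟨j, hP' j v hj, ?_⟩
    rw [decide_eq_false (fun h => h1 ⟨j, h, hj⟩)]
    exact (Option.some.inj hv).symm

theorem size_colr_le (ρ : PA r N) (q : ℕ) : size (colr ρ q) ≤ asz ρ := by
  unfold size asz
  have h1 : (univ.filter (fun v => colr ρ q v ≠ none)).image (some : Fin N → Option (Fin N)) ⊆
      (univ.filter (fun j => ρ j ≠ none)).image ρ := by
    intro o ho
    rw [mem_image] at ho
    obtain ⟨v, hv, rfl⟩ := ho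
    have hv' := (mem_filter.1 hv).2
    rw [mem_image]
    unfold colr at hv'
    split_ifs at hv' with h1 h2
    · obtain ⟨j, _, hj⟩ := h1
      exact ⟨j, mem_filter.2 ⟨mem_univ _, by rw [hj]; simp⟩, hj⟩
    · obtain ⟨j, hj⟩ := h2
      exact ⟨j, mem_filter.2 ⟨mem_univ _, by rw [hj]; simp⟩, hj⟩
    · exact absurd rfl hv'
  have h2 := card_le_card h1
  rw [card_image_of_injective _ (Option.some_injective _)] at h2
  exact h2.trans card_image_le

theorem colr_ne_none {ρ : PA r N} {j : Fin r} {v : Fin N} (h : ρ j = some v) (q : ℕ) :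
    colr ρ q v ≠ none := by
  unfold colr
  by_cases h1 : ∃ j : Fin r, (j : ℕ) < q ∧ ρ j = some v
  · rw [if_pos h1]
    simp
  · rw [if_neg h1, if_pos ⟨j, h⟩]
    simp

/-- no assigned position between `q` and `q'`: same colours -/
theorem colr_congr (ρ : PA r N) {q q' : ℕ}
    (h : ∀ j : Fin r, ρ j ≠ none → ((j : ℕ) < q ↔ (j : ℕ) < q')) : colr ρ q = colr ρ q' := by
  funext v
  have h1 : (∃ j : Fin r, (j : ℕ) < q ∧ ρ j = some v) ↔
      ∃ j : Fin r, (j : ℕ) < q' ∧ ρ j = some v := by
    constructor
    · rintro ⟨j, hj, hv⟩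
      exact ⟨j, (h j (by rw [hv]; simp)).1 hj, hv⟩
    · rintro ⟨j, hj, hv⟩
      exact ⟨j, (h j (by rw [hv]; simp)).2 hj, hv⟩
  unfold colr
  simp only [h1]

/-- A minimal extension inside `W`: among the `A` below `W` restricted to the vertices not coloured
by `D` with `join D A ∈ F` take one of minimal size; it is not empty since `D ∉ F`. -/
theorem exists_minExt {F : Finset (PC N)} {D W : PC N} (hD : D ∉ F) (hW : join D W ∈ F) :
    ∃ A, MinExt F D A ∧ Sub A W ∧ 1 ≤ size A := by
  set W' : PC N := fun v => if D v = none then W v else none with hW'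
  have hW'W : Sub W' W := by
    intro v x hx
    rw [hW'] at hx
    by_cases h : D v = none
    · simpa [h] using hx
    · simp [h] at hx
  have hj : join D W' = join D W := by
    funext v
    unfold join
    by_cases h : D v = none
    · rw [if_pos h, if_pos h, hW']
      simp [h]
    · rw [if_neg h, if_neg h]
  obtain ⟨A, hA, hmin⟩ := exists_min_image
    (univ.filter fun A : PC N => Sub A W' ∧ join D A ∈ F) size
    ⟨W', mem_filter.2 ⟨mem_univ _, sub_refl _, by rw [hj]; exact hW⟩⟩
  rw [mem_filter] at hA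
  obtain ⟨-, hAW, hAF⟩ := hA
  refine ⟨A, ⟨fun v => ?_, hAF, fun A' hA' hA'F => ?_⟩, sub_trans hAW hW'W, ?_⟩
  · by_cases h : D v = none
    · exact Or.inl h
    · refine Or.inr ?_
      by_contra hv
      obtain ⟨y, hy⟩ := Option.ne_none_iff_exists'.1 hv
      have h1 := hAW v y hy
      rw [hW'] at h1
      simp [h] at h1
  · have h1 := hmin A' (mem_filter.2 ⟨mem_univ _, sub_trans hA' hAW, hA'F⟩)
    have h2 : (univ.filter fun v => A' v ≠ none) ⊆ (univ.filter fun v => A v ≠ none) := by
      intro v hv
      rw [mem_filter] at hv ⊢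
      obtain ⟨y, hy⟩ := Option.ne_none_iff_exists'.1 hv.2
      exact ⟨mem_univ _, by rw [hA' v y hy]; simp⟩
    have h3 := eq_of_subset_of_card_le h2 h1
    funext v
    rcases hv : A' v with _ | x
    · by_contra hne'
      have h4 : v ∈ (univ.filter fun v => A' v ≠ none) := by
        rw [h3, mem_filter]
        exact ⟨mem_univ _, fun h => hne' h.symm⟩
      rw [mem_filter] at h4
      exact h4.2 hv
    · exact (hA' v x hv).symm
  · by_contra h
    have h0 : A = emp N := size_eq_zero (by omega)
    refine hD ?_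
    rw [h0, join_emp] at hAF
    exact hAF

/-- minimal members are minimal extensions of the empty colouring -/
theorem minExt_emp {F : Finset (PC N)} {W : PC N} (hW : IsMin F W) : MinExt F (emp N) W := by
  refine ⟨fun v => Or.inl rfl, by rw [emp_join]; exact hW.1, fun A' hA' hF => ?_⟩
  rw [emp_join] at hF
  exact hW.2 A' hF hA'

end MTX
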