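import Pool.Agent.Lib.MTX.LowerA
import Pool.Agent.Lib.MTX.LowerN

/-!
# MTX.Lower (MP_e46137_lc): the lower bound
-/

namespace MTX

/-- `explicit2` and `lower_num`; `T = 0` is impossible (every machine has a constant output: compare
the graph with the only edge `s t` and the graph without edges). -/
theorem lower : ∃ c : ℝ, 0 < c ∧ ∀ (n S d T : ℕ) (s t : Fin n), 4 ≤ n → 1 ≤ S → S ≤ n → 2 ≤ d →
    d ≤ n → s ≠ t → ∀ (Ω : Type) [Fintype Ω] (p : Ω → ℝ), (∀ ω, 0 ≤ p ω) → ∑ ω, p ω = 1 →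
    ∀ (M : Ω → SharpTS.Mach n S) (out : Ω → Fin S), SharpTS.DecidesP p M out T d s t →
    phi n S d - c * err n S d ≤ Real.logb 2 T := by
  obtain ⟨C, hC, hE⟩ := explicit2
  obtain ⟨c, hc, hL⟩ := lower_num C hC
  refine ⟨c, hc, ?_⟩
  intro n S d T s t hn hS hSn hd hdn hst Ω _ p hp0 hp1 M out hM
  have hT : 1 ≤ T := by
    rcases Nat.eq_zero_or_pos T with h0 | h0
    · exfalso
      subst h0
      obtain ⟨h1, -⟩ := hM (fun a b => decide ((a = s ∧ b = t) ∨ (a = t ∧ b = s))) (by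
        intro a b
        apply decide_eq_decide.2
        constructor
        · rintro (⟨h1, h2⟩ | ⟨h1, h2⟩)
          · exact Or.inr ⟨h2, h1⟩
          · exact Or.inl ⟨h2, h1⟩
        · rintro (⟨h1, h2⟩ | ⟨h1, h2⟩)
          · exact Or.inr ⟨h2, h1⟩
          · exact Or.inl ⟨h2, h1⟩)
      obtain ⟨-, h2⟩ := hM (fun _ _ => false) (fun _ _ => rfl)
      have h3 := h1 ⟨1, by omega, s, rfl, by
        apply decide_eq_true
        exact Or.inl ⟨rfl, rfl⟩⟩
      have h4 := h2 (by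
        intro hr
        rcases Relation.ReflTransGen.cases_head hr with h5 | ⟨b, h5, -⟩
        · exact hst h5
        · exact absurd h5 (by simp))
      have h5 := le_trans h3 h4
      norm_num at h5
    · exact h0
  refine hL n S d T hn hS hSn hd hdn hT ?_
  intro hT2 k hk hkd hkn
  refine hE n S k T s t hk hst hS Ω p hp0 hp1 M out ?_ hT2 hkn
  intro G hG
  obtain ⟨h1, h2⟩ := hM G hG
  refine ⟨?_, h2⟩
  rintro ⟨l', hl', hw⟩
  exact h1 ⟨l', hl'.trans hkd, hw⟩

end MTX
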