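import Pool.Agent.Lib.MTX.EmbedP

/-!
# MTX.LowerA (MP_e46137_lc): choice of the parameters
-/

namespace MTX

namespace LowerAAux

theorem pow_facts {l : ℕ} (hl : 1 ≤ l) : l ≤ l ^ 2 ∧ l ^ 2 ≤ l ^ 3 ∧ l ^ 3 ≤ l ^ 4 ∧ l ^ 4 ≤ l ^ 7 ∧
    1 ≤ l ^ 4 ∧ 1 ≤ l ^ 7 ∧ 1 ≤ l ^ 3 := by
  refine ⟨?_, Nat.pow_le_pow_right hl (by omega), Nat.pow_le_pow_right hl (by omega),
    Nat.pow_le_pow_right hl (by omega), Nat.one_le_pow _ _ hl, Nat.one_le_pow _ _ hl,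
    Nat.one_le_pow _ _ hl⟩
  calc l = l ^ 1 := (pow_one l).symm
    _ ≤ l ^ 2 := Nat.pow_le_pow_right hl (by omega)

end LowerAAux

open LowerAAux

/-- With `l = Nat.log 2 n + 1`: `w₁ = 4 l ^ 2 + 8`, `w = 40 l ^ 3`, `L = 300 l ^ 4`,
`θ = 2 ^ (n - 2 - L)`; `T ≤ 2 ^ (l ^ 2)`, `k ≤ l` and `10 ^ 9 * l ^ 7 * S * 2 ^ k ≤ n`. -/
theorem explicit2 : ∃ C : ℕ, 1 ≤ C ∧ ∀ (n S k T : ℕ) (s t : Fin n), 1 ≤ k → s ≠ t → 1 ≤ S →
    ∀ (Ω : Type) [Fintype Ω] (p : Ω → ℝ), (∀ ω, 0 ≤ p ω) → ∑ ω, p ω = 1 →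
    ∀ (M : Ω → SharpTS.Mach n S) (out : Ω → Fin S), SharpTS.DecidesP p M out T (2 ^ k) s t →
      T ≤ 2 ^ (Nat.log 2 n + 1) ^ 2 → C * (Nat.log 2 n + 1) ^ 7 * S * 2 ^ k ≤ n →
      n ^ (k - 1) ≤
        T * (C * (Nat.log 2 n + 1) ^ 9 * S) ^ (k - 1) * 2 ^ (k * (k + 1) / 2 + 1) := by
  refine ⟨10 ^ 9, by norm_num, ?_⟩
  intro n S k T s t hk hst hS Ω _ p hp0 hp1 M out hM hT hC
  obtain ⟨l, hl⟩ : ∃ l, Nat.log 2 n + 1 = l := ⟨_, rfl⟩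
  rw [hl] at hT hC ⊢
  have hl1 : 1 ≤ l := by omega
  obtain ⟨f1, f2, f3, f4, f5, f6, f7⟩ := pow_facts hl1
  have hn2 : n < 2 ^ l := by
    rw [← hl]
    exact Nat.lt_pow_succ_log_self (by norm_num) n
  have h2k : 1 ≤ 2 ^ k := Nat.one_le_two_pow
  -- the basic inequality in three forms
  have hb : 10 ^ 9 * (l ^ 7 * S * 2 ^ k) ≤ n := by
    refine le_trans (le_of_eq ?_) hC
    ring
  obtain ⟨Q, hQ⟩ : ∃ Q, l ^ 7 * S * 2 ^ k = Q := ⟨_, rfl⟩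
  have hQ7 : l ^ 7 ≤ Q := by
    rw [← hQ]
    calc l ^ 7 = l ^ 7 * 1 * 1 := by ring
      _ ≤ l ^ 7 * S * 2 ^ k := Nat.mul_le_mul (Nat.mul_le_mul_left _ hS) h2k
  have hQk : 2 ^ k ≤ Q := by
    rw [← hQ]
    calc 2 ^ k = 1 * 1 * 2 ^ k := by ring
      _ ≤ l ^ 7 * S * 2 ^ k := Nat.mul_le_mul_right _ (Nat.mul_le_mul f6 hS)
  have hQS : S ≤ Q := by
    rw [← hQ]
    calc S = 1 * S * 1 := by ring
      _ ≤ l ^ 7 * S * 2 ^ k := Nat.mul_le_mul (Nat.mul_le_mul_right _ f6) h2k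
  rw [hQ] at hb
  have hkl : k + 1 ≤ l := by
    have h1 : 2 ^ k < 2 ^ l := by omega
    have h2 := (Nat.pow_lt_pow_iff_right (by norm_num : 1 < 2)).1 h1
    omega
  have hSn : S ≤ 2 ^ l := by omega
  have hLn : 300 * l ^ 4 ≤ n - 2 := by omega
  have hwL : 40 * l ^ 3 < 300 * l ^ 4 := by omega
  have hmain := explicit (w := 40 * l ^ 3) (w₁ := 4 * l ^ 2 + 8) (θ := 2 ^ (n - 2 - 300 * l ^ 4))
    (L := 300 * l ^ 4) hk hst p hp0 hp1 M out hM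
    (by
      have h1 : (k + 1) * (4 * l ^ 2 + 8) ≤ l * (4 * l ^ 2 + 8) := Nat.mul_le_mul_right _ hkl
      have h2 : l * (4 * l ^ 2 + 8) = 4 * l ^ 3 + 8 * l := by ring
      omega)
    (by omega)
    (by
      rw [← pow_add]
      exact Nat.pow_le_pow_right (by norm_num) (by omega))
    (by
      apply Nat.pow_lt_pow_right (by norm_num)
      omega)
    (by
      have a1 : (2 * (n - 2) + 1) ^ (40 * l ^ 3) ≤ 2 ^ ((l + 1) * (40 * l ^ 3)) := by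
        rw [pow_mul 2 (l + 1) (40 * l ^ 3)]
        apply Nat.pow_le_pow_left
        have : 2 ^ (l + 1) = 2 * 2 ^ l := by ring
        omega
      have a2 : 24 ≤ 2 ^ 5 := by norm_num
      calc 24 * (T * (S * ((2 * (n - 2) + 1) ^ (40 * l ^ 3) * 2 ^ (n - 2 - 300 * l ^ 4))))
          ≤ 2 ^ 5 * (2 ^ l ^ 2 * (2 ^ l * (2 ^ ((l + 1) * (40 * l ^ 3)) *
              2 ^ (n - 2 - 300 * l ^ 4)))) :=
            Nat.mul_le_mul a2 (Nat.mul_le_mul hT (Nat.mul_le_mul hSn (Nat.mul_le_mul_right _ a1)))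
        _ = 2 ^ (5 + (l ^ 2 + (l + ((l + 1) * (40 * l ^ 3) + (n - 2 - 300 * l ^ 4))))) := by
            rw [← pow_add, ← pow_add, ← pow_add, ← pow_add]
        _ ≤ 2 ^ (n - 2) := by
            apply Nat.pow_le_pow_right (by norm_num)
            have a3 : (l + 1) * (40 * l ^ 3) = 40 * l ^ 4 + 40 * l ^ 3 := by ring
            omega)
    (by
      have b1 : 16 * (8 * (40 * l ^ 3) * (300 * l ^ 4)) * S * 2 ^ k = 1536000 * Q := by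
        rw [← hQ]
        ring
      omega)
    (by
      have c1 : S + 2 ^ k ≤ 2 ^ (l + 1) := by
        have : 2 ^ (l + 1) = 2 * 2 ^ l := by ring
        omega
      have c2 : 24 ≤ 2 ^ 5 := by norm_num
      calc 24 * T * (S + 2 ^ k) ≤ 2 ^ 5 * 2 ^ l ^ 2 * 2 ^ (l + 1) :=
            Nat.mul_le_mul (Nat.mul_le_mul c2 hT) c1
        _ = 2 ^ (5 + l ^ 2 + (l + 1)) := by rw [← pow_add, ← pow_add]
        _ ≤ 2 ^ (2 * (4 * l ^ 2 + 8)) := by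
            apply Nat.pow_le_pow_right (by norm_num)
            omega
        _ = 4 ^ (4 * l ^ 2 + 8) := by rw [pow_mul]; norm_num)
  have hclog : Nat.clog 2 T ≤ l ^ 2 := Nat.clog_le_of_le_pow hT
  have hn4 : n ≤ 2 * (n - 1 - 2 ^ k) := by omega
  calc n ^ (k - 1) ≤ (2 * (n - 1 - 2 ^ k)) ^ (k - 1) := Nat.pow_le_pow_left hn4 _
    _ = 2 ^ (k - 1) * (n - 1 - 2 ^ k) ^ (k - 1) := by rw [mul_pow]
    _ ≤ 2 ^ (k - 1) * (T * Nat.clog 2 T ^ (k - 1) *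
          (8 * (8 * (40 * l ^ 3) * (300 * l ^ 4)) * S) ^ (k - 1) * 2 ^ (k * (k + 1) / 2 + 1)) :=
        Nat.mul_le_mul_left _ hmain
    _ ≤ 2 ^ (k - 1) * (T * (l ^ 2) ^ (k - 1) *
          (8 * (8 * (40 * l ^ 3) * (300 * l ^ 4)) * S) ^ (k - 1) * 2 ^ (k * (k + 1) / 2 + 1)) := by
        apply Nat.mul_le_mul_left
        apply Nat.mul_le_mul_right
        apply Nat.mul_le_mul_right
        apply Nat.mul_le_mul_left
        exact Nat.pow_le_pow_left hclog _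
    _ = T * (1536000 * l ^ 9 * S) ^ (k - 1) * 2 ^ (k * (k + 1) / 2 + 1) := by
        have e1 : 1536000 * l ^ 9 * S =
            2 * (l ^ 2 * (8 * (8 * (40 * l ^ 3) * (300 * l ^ 4)) * S)) := by ring
        rw [e1, mul_pow 2, mul_pow (l ^ 2)]
        ring
    _ ≤ T * (10 ^ 9 * l ^ 9 * S) ^ (k - 1) * 2 ^ (k * (k + 1) / 2 + 1) := by
        apply Nat.mul_le_mul_right
        apply Nat.mul_le_mul_left
        apply Nat.pow_le_pow_left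
        apply Nat.mul_le_mul_right
        apply Nat.mul_le_mul_right
        norm_num

end MTX
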