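import Pool.Agent.Lib.MTX.Final

/-!
# MTX.Main (MP_e46137_lc): see MTX.Final (`MTX.final`)
-/
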