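import Pool.Agent.Lib.MTX.Cond

/-!
# MTX.Reveal (MP_e46137_lc): union bound over the positions of a set of vertices
-/

namespace MTX

open Classical Finset

variable {r N : ℕ}

/-- Union bound in product form.  Every `P ∈ E` contains all vertices of `A`; let `pos` be their
positions (on `A` injective, not assigned by `ρ` because of `hdis`).  Sum `hb` over all functions
`A → Fin r` (`Finset.prod_univ_sum`, positions outside `A` constant; if `r = 0` then `E = ∅`) and
use `om_ext`. -/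
theorem reveal {ρ : PA r N} {A : Finset (Fin N)} (hA : A.Nonempty) {E : Finset (Pth r N)}
    (hE : E ⊆ Om ρ) (hdis : ∀ j v, ρ j = some v → v ∉ A) (hcov : ∀ P ∈ E, ∀ v ∈ A, ∃ j, P j = v)
    (wt : Fin N → Fin r → ℝ) (hwt : ∀ v j, 0 ≤ wt v j) {Γ : ℝ} (hΓ : 0 ≤ Γ)
    (hb : ∀ pos : Fin N → Fin r, Set.InjOn pos A → (∀ v ∈ A, ρ (pos v) = none) →
      ((E.filter (fun P => ∀ v ∈ A, P (pos v) = v)).card : ℝ) ≤
        Γ * (∏ v ∈ A, wt v (pos v)) * ((Om (ext ρ A pos)).card : ℝ)) :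
    (E.card : ℝ) * ((N - r : ℕ) : ℝ) ^ A.card ≤
      Γ * (∏ v ∈ A, ∑ j, wt v j) * ((Om ρ).card : ℝ) := by
  obtain ⟨v0, hv0⟩ := hA
  let F : Finset ((v : Fin N) → v ∈ A → Fin r) := A.pi fun _ => univ
  let pf : ((v : Fin N) → v ∈ A → Fin r) → Fin N → Fin r := fun f v =>
    if h : v ∈ A then f v h else f v0 hv0
  have hpf : ∀ (f : (v : Fin N) → v ∈ A → Fin r) (v : Fin N) (h : v ∈ A), pf f v = f v h :=
    fun f v h => dif_pos h
  let Ef : ((v : Fin N) → v ∈ A → Fin r) → Finset (Pth r N) := fun f =>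
    E.filter (fun P => ∀ v ∈ A, P (pf f v) = v)
  have hcard : (E.card : ℝ) ≤ ∑ f ∈ F, ((Ef f).card : ℝ) := by
    have h1 : E ⊆ F.biUnion Ef := by
      intro P hP
      choose g hg using hcov P hP
      refine mem_biUnion.2 ⟨g, mem_pi.2 fun v hv => mem_univ _, mem_filter.2 ⟨hP, fun v hv => ?_⟩⟩
      rw [hpf g v hv]
      exact hg v hv
    have h2 := (card_le_card h1).trans card_biUnion_le
    exact_mod_cast h2
  have hone : ∀ f ∈ F, ((Ef f).card : ℝ) * ((N - r : ℕ) : ℝ) ^ A.card ≤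
      Γ * (∏ x ∈ A.attach, wt x.1 (f x.1 x.2)) * ((Om ρ).card : ℝ) := by
    intro f _
    have hprod : ∏ x ∈ A.attach, wt x.1 (f x.1 x.2) = ∏ v ∈ A, wt v (pf f v) := by
      rw [← prod_attach A]
      refine prod_congr rfl fun x _ => ?_
      rw [hpf f x.1 x.2]
    rw [hprod]
    have hp0 : 0 ≤ ∏ v ∈ A, wt v (pf f v) := prod_nonneg fun v _ => hwt v _
    rcases (Ef f).eq_empty_or_nonempty with h0 | ⟨P, hP⟩
    · rw [h0, card_empty, Nat.cast_zero, zero_mul]
      positivity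
    · have hPE := (mem_filter.1 hP).1
      have hPv := (mem_filter.1 hP).2
      have hinj : Set.InjOn (pf f) A := by
        intro v hv v' hv' h
        rw [← hPv v hv, ← hPv v' hv', h]
      have hnone : ∀ v ∈ A, ρ (pf f v) = none := by
        intro v hv
        by_contra hne
        obtain ⟨v', hv'⟩ := Option.ne_none_iff_exists'.1 hne
        have h1 : P (pf f v) = v' := (mem_filter.1 (hE hPE)).2 _ _ hv'
        rw [hPv v hv] at h1
        exact hdis _ _ hv' (h1 ▸ hv)
      have h1 := hb (pf f) hinj hnone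
      have h2 : ((Om (ext ρ A (pf f))).card : ℝ) * ((N - r : ℕ) : ℝ) ^ A.card ≤
          ((Om ρ).card : ℝ) := by exact_mod_cast om_ext ρ hinj hnone
      calc ((Ef f).card : ℝ) * ((N - r : ℕ) : ℝ) ^ A.card
          ≤ (Γ * (∏ v ∈ A, wt v (pf f v)) * ((Om (ext ρ A (pf f))).card : ℝ)) *
              ((N - r : ℕ) : ℝ) ^ A.card := mul_le_mul_of_nonneg_right h1 (by positivity)
        _ = Γ * (∏ v ∈ A, wt v (pf f v)) * (((Om (ext ρ A (pf f))).card : ℝ) *
              ((N - r : ℕ) : ℝ) ^ A.card) := by ring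
        _ ≤ Γ * (∏ v ∈ A, wt v (pf f v)) * ((Om ρ).card : ℝ) :=
            mul_le_mul_of_nonneg_left h2 (mul_nonneg hΓ hp0)
  calc (E.card : ℝ) * ((N - r : ℕ) : ℝ) ^ A.card
      ≤ (∑ f ∈ F, ((Ef f).card : ℝ)) * ((N - r : ℕ) : ℝ) ^ A.card :=
        mul_le_mul_of_nonneg_right hcard (by positivity)
    _ = ∑ f ∈ F, ((Ef f).card : ℝ) * ((N - r : ℕ) : ℝ) ^ A.card := by rw [sum_mul]
    _ ≤ ∑ f ∈ F, Γ * (∏ x ∈ A.attach, wt x.1 (f x.1 x.2)) * ((Om ρ).card : ℝ) :=
        sum_le_sum hone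
    _ = Γ * (∏ v ∈ A, ∑ j, wt v j) * ((Om ρ).card : ℝ) := by
        rw [prod_sum, mul_sum, sum_mul]

/-- `reveal` with weights `1`. -/
theorem reveal_plain {ρ : PA r N} {A : Finset (Fin N)} (hA : A.Nonempty)
    {E : Finset (Pth r N)} (hE : E ⊆ Om ρ) (hdis : ∀ j v, ρ j = some v → v ∉ A) (hcov : ∀ P ∈ E, ∀ v ∈ A, ∃ j, P j = v)
    {Γ : ℝ} (hΓ : 0 ≤ Γ)
    (hb : ∀ pos : Fin N → Fin r, Set.InjOn pos A → (∀ v ∈ A, ρ (pos v) = none) →
      ((E.filter (fun P => ∀ v ∈ A, P (pos v) = v)).card : ℝ) ≤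
        Γ * ((Om (ext ρ A pos)).card : ℝ)) :
    (E.card : ℝ) * ((N - r : ℕ) : ℝ) ^ A.card ≤ Γ * (r : ℝ) ^ A.card * ((Om ρ).card : ℝ) := by
  have h := reveal hA hE hdis hcov (fun _ _ => 1) (fun _ _ => zero_le_one) hΓ
    (fun pos h1 h2 => by
      rw [prod_const_one, mul_one]
      exact hb pos h1 h2)
  have h1 : ∏ v ∈ A, ∑ _j : Fin r, (1 : ℝ) = (r : ℝ) ^ A.card := by
    rw [prod_const, sum_const, card_univ, Fintype.card_fin, nsmul_eq_mul, mul_one]
  rw [h1] at h
  exact h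

/-- At least one vertex of `A` at a position of `I`, weight `y` for every vertex at a position of
`I`.  Union over the vertex `v₀ ∈ A` with position in `I`; for each of them `reveal` with
`wt v₀ j = y` for `j ∈ I`, `0` otherwise, and `wt v j = y` for `j ∈ I`, `1` otherwise (`v ≠ v₀`). -/
theorem reveal_int {ρ : PA r N} {A : Finset (Fin N)} {E : Finset (Pth r N)} (hE : E ⊆ Om ρ)
    (hdis : ∀ j v, ρ j = some v → v ∉ A) (hcov : ∀ P ∈ E, ∀ v ∈ A, ∃ j, P j = v)
    (I : Finset (Fin r)) (hint : ∀ P ∈ E, ∃ j ∈ I, P j ∈ A)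
    {Γ y : ℝ} (hΓ : 0 ≤ Γ) (hy : 0 ≤ y)
    (hb : ∀ pos : Fin N → Fin r, Set.InjOn pos A → (∀ v ∈ A, ρ (pos v) = none) →
      (∃ v ∈ A, pos v ∈ I) →
      ((E.filter (fun P => ∀ v ∈ A, P (pos v) = v)).card : ℝ) ≤
        Γ * y ^ (A.filter (fun v => pos v ∈ I)).card * ((Om (ext ρ A pos)).card : ℝ)) :
    (E.card : ℝ) * ((N - r : ℕ) : ℝ) ^ A.card ≤
      Γ * (A.card * ((I.card : ℝ) * y) * ((I.card : ℝ) * y + r) ^ (A.card - 1)) *
        ((Om ρ).card : ℝ) := by
  let Ev : Fin N → Finset (Pth r N) := fun v0 => E.filter (fun P => ∃ j ∈ I, P j = v0)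
  have hcard : (E.card : ℝ) ≤ ∑ v0 ∈ A, ((Ev v0).card : ℝ) := by
    have h1 : E ⊆ A.biUnion Ev := by
      intro P hP
      obtain ⟨j, hj, hjA⟩ := hint P hP
      exact mem_biUnion.2 ⟨P j, hjA, mem_filter.2 ⟨hP, j, hj, rfl⟩⟩
    have h2 := (card_le_card h1).trans card_biUnion_le
    exact_mod_cast h2
  have hone : ∀ v0 ∈ A, ((Ev v0).card : ℝ) * ((N - r : ℕ) : ℝ) ^ A.card ≤
      Γ * (((I.card : ℝ) * y) * ((I.card : ℝ) * y + r) ^ (A.card - 1)) *
        ((Om ρ).card : ℝ) := by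
    intro v0 hv0
    let wt : Fin N → Fin r → ℝ := fun v j =>
      if v = v0 then (if j ∈ I then y else 0) else (if j ∈ I then y else 1)
    have hwt : ∀ v j, 0 ≤ wt v j := by
      intro v j
      simp only [wt]
      split_ifs
      · exact hy
      · exact le_rfl
      · exact hy
      · exact zero_le_one
    have h1 := reveal (E := Ev v0) ⟨v0, hv0⟩ ((filter_subset _ _).trans hE) hdis
      (fun P hP => hcov P (mem_filter.1 hP).1) wt hwt hΓ (by
        intro pos hinj hnone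
        by_cases hI : pos v0 ∈ I
        · have h2 := hb pos hinj hnone ⟨v0, hv0, hI⟩
          have h3 : ∏ v ∈ A, wt v (pos v) = y ^ (A.filter (fun v => pos v ∈ I)).card := by
            have h4 : ∀ v ∈ A, wt v (pos v) = if pos v ∈ I then y else 1 := by
              intro v _
              by_cases hv : v = v0
              · subst hv
                simp only [wt, if_true, hI]
              · simp only [wt, if_neg hv]
            rw [prod_congr rfl h4, prod_ite, prod_const_one, mul_one, prod_const]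
          rw [h3]
          refine le_trans ?_ h2
          have h5 : (Ev v0).filter (fun P => ∀ v ∈ A, P (pos v) = v) ⊆
              E.filter (fun P => ∀ v ∈ A, P (pos v) = v) :=
            filter_subset_filter _ (filter_subset _ _)
          exact_mod_cast card_le_card h5
        · have h2 : (Ev v0).filter (fun P => ∀ v ∈ A, P (pos v) = v) = ∅ := by
            rw [filter_eq_empty_iff]
            intro P hP hPA
            obtain ⟨j, hj, hjv⟩ := (mem_filter.1 hP).2
            have h3 : j = pos v0 := P.injective (by rw [hjv, hPA v0 hv0])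
            exact hI (h3 ▸ hj)
          rw [h2, card_empty, Nat.cast_zero]
          have h3 : 0 ≤ ∏ v ∈ A, wt v (pos v) := prod_nonneg fun v _ => hwt v _
          positivity)
    refine h1.trans ?_
    refine mul_le_mul_of_nonneg_right (mul_le_mul_of_nonneg_left ?_ hΓ) (by positivity)
    have hI0 : ∑ j, (if j ∈ I then y else 0) = (I.card : ℝ) * y := by
      rw [sum_ite_mem, univ_inter, sum_const, nsmul_eq_mul]
    have hs0 : ∑ j, wt v0 j = (I.card : ℝ) * y := by
      simp only [wt, if_true]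
      exact hI0
    have hs1 : ∀ v ∈ A.erase v0, ∑ j, wt v j ≤ (I.card : ℝ) * y + r := by
      intro v hv
      have hne : v ≠ v0 := (mem_erase.1 hv).1
      calc ∑ j, wt v j ≤ ∑ j : Fin r, ((if j ∈ I then y else 0) + 1) := by
            refine sum_le_sum fun j _ => ?_
            simp only [wt, if_neg hne]
            split_ifs <;> linarith
        _ = (I.card : ℝ) * y + r := by
            rw [sum_add_distrib, hI0, sum_const, card_univ, Fintype.card_fin, nsmul_eq_mul,
              mul_one]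
    rw [← mul_prod_erase A _ hv0, hs0]
    refine mul_le_mul_of_nonneg_left ?_ (by positivity)
    calc ∏ v ∈ A.erase v0, ∑ j, wt v j ≤ ∏ _v ∈ A.erase v0, ((I.card : ℝ) * y + r) :=
          prod_le_prod (fun v _ => sum_nonneg fun j _ => hwt v j) hs1
      _ = ((I.card : ℝ) * y + r) ^ (A.card - 1) := by
          rw [prod_const, card_erase_of_mem hv0]
  calc (E.card : ℝ) * ((N - r : ℕ) : ℝ) ^ A.card
      ≤ (∑ v0 ∈ A, ((Ev v0).card : ℝ)) * ((N - r : ℕ) : ℝ) ^ A.card :=
        mul_le_mul_of_nonneg_right hcard (by positivity)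
    _ = ∑ v0 ∈ A, ((Ev v0).card : ℝ) * ((N - r : ℕ) : ℝ) ^ A.card := by rw [sum_mul]
    _ ≤ ∑ _v0 ∈ A, Γ * (((I.card : ℝ) * y) * ((I.card : ℝ) * y + r) ^ (A.card - 1)) *
        ((Om ρ).card : ℝ) := sum_le_sum hone
    _ = _ := by
        rw [sum_const, nsmul_eq_mul]
        ring

end MTX
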