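import Mathlib

/-!
# MTX.Spec (MP_e46137_lc): the exponent
-/

namespace MTX

/-- `log (n / S)` -/
noncomputable def lam (n S : ℕ) : ℝ := Real.logb 2 ((n : ℝ) / S)

/-- `min (log d) (log (n / S))` -/
noncomputable def kap (n S d : ℕ) : ℝ := min (Real.logb 2 d) (lam n S)

/-- the exponent `κ log (n / S) - κ ^ 2 / 2` -/
noncomputable def phi (n S d : ℕ) : ℝ := kap n S d * lam n S - kap n S d ^ 2 / 2

/-- the error `log n + κ log log n` -/
noncomputable def err (n S d : ℕ) : ℝ :=
  Real.logb 2 n + kap n S d * Real.logb 2 (Real.logb 2 n)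

end MTX
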