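import Pool.Agent.Lib.MTX.UStep
import Pool.Agent.Lib.MTB.Conv
import Pool.Agent.Lib.MTB.Iter

/-!
# MTX.UIter (MP_e46137_lc): all families of milestones one after the other (compare MTB.Iter)

`C x` = the milestones of the `x`-th family, `R x : Fin m → Fin n` = its landmarks.  Rows: `2 h` =
the current set of landmarks, `2 h + 1` = the next one, `2 h + 2` contains the output register.
Program: clear the output; for every `x`: clear row `2 h`, set its register `i₀`; `m` times:
`exists_step` from row `2 h` to row `2 h + 1`, copy it back; output := output ∨ register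
`(2 h, i₁)`.  (`Rel` is reflexive.)
-/

namespace MTX

open Classical MTB

namespace UIterAux

open MTB.IterAux

theorem exists_block {n m : ℕ} {Q : ℕ → ℕ} (C : (j : ℕ) → Fin (Q j) → Fin m → Fin n)
    (h : ℕ) (X : Fin m → Fin n) (i₀ i₁ : Fin m) :
    ∃ p : List (Instr (Fin n × Fin n) (Option (ℕ × Fin m))),
      p.length ≤ m + m * (5 * m ^ 2 * (∏ j ∈ Finset.range h, (4 * Q j + 1)) + m) + 1 ∧
      (∀ I ∈ p, I.Uses (UU m h)) ∧
      ∀ (G : Fin n → Fin n → Bool) (σ : Option (ℕ × Fin m) → Bool),
        (exec (fun e : Fin n × Fin n => G e.1 e.2) p σ (some (2 * h + 2, i₀)) = true ↔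
          (σ (some (2 * h + 2, i₀)) = true ∨
            Relation.ReflTransGen (fun a b : Fin m => Rel C G h (X a) (X b)) i₀ i₁)) := by
  obtain ⟨st, hst1, hst2, hst3⟩ := exists_step C h X X (2 * h) (2 * h + 1) (by omega) le_rfl
    (by omega)
  let clr : List (Instr (Fin n × Fin n) (Option (ℕ × Fin m))) :=
    (List.finRange m).map (fun i => Instr.const (some (2 * h, i)) (decide (i = i₀)))
  let cpy : List (Instr (Fin n × Fin n) (Option (ℕ × Fin m))) :=
    (List.finRange m).map (fun i => Instr.or (some (2 * h, i)) (some (2 * h + 1, i))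
      (some (2 * h + 1, i)))
  have hne : ∀ (a b : ℕ) (i j : Fin m), a ≠ b →
      (some (a, i) : Option (ℕ × Fin m)) ≠ some (b, j) := by
    intro a b i j hab he
    exact hab (congrArg Prod.fst (Option.some_injective _ he))
  have hinj : Function.Injective (fun i : Fin m => (some (2 * h, i) : Option (ℕ × Fin m))) := by
    intro i j he
    exact congrArg Prod.snd (Option.some_injective _ he)
  refine ⟨clr ++ (rep (st ++ cpy) m ++ [Instr.or (some (2 * h + 2, i₀)) (some (2 * h + 2, i₀))
    (some (2 * h, i₁))]), ?_, ?_, ?_⟩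
  · have e1 : clr.length = m := by
      show ((List.finRange m).map _).length = m
      rw [List.length_map, List.length_finRange]
    have e2 : cpy.length = m := by
      show ((List.finRange m).map _).length = m
      rw [List.length_map, List.length_finRange]
    rw [List.length_append, List.length_append, rep_length, List.length_append, e1, e2,
      List.length_singleton]
    have e3 : m * (st.length + m) ≤
        m * (5 * m ^ 2 * (∏ j ∈ Finset.range h, (4 * Q j + 1)) + m) :=
      Nat.mul_le_mul_left _ (by omega)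
    omega
  · intro I hI
    rw [List.mem_append, List.mem_append] at hI
    rcases hI with hI | hI | hI
    · obtain ⟨i, _, rfl⟩ := List.mem_map.1 hI
      exact mem_UU (by omega)
    · have hI := mem_rep hI
      rcases List.mem_append.1 hI with hI | hI
      · refine uses_mono ?_ (hst2 I hI)
        rintro ρ (h1 | ⟨row, i, rfl, h1⟩)
        · exact Or.inl h1
        · exact mem_UU (by omega)
      · obtain ⟨i, _, rfl⟩ := List.mem_map.1 hI
        exact ⟨mem_UU (by omega), mem_UU (by omega), mem_UU (by omega)⟩
    · rw [List.mem_singleton] at hI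
      subst hI
      exact ⟨mem_UU (by omega), mem_UU (by omega), mem_UU (by omega)⟩
  · intro G σ
    have c1 : ∀ (τ : Option (ℕ × Fin m) → Bool) (i : Fin m),
        exec (fun e : Fin n × Fin n => G e.1 e.2) clr τ (some (2 * h, i)) = decide (i = i₀) := by
      intro τ i
      exact exec_in (fun e : Fin n × Fin n => G e.1 e.2)
        (fun i => Instr.const (some (2 * h, i)) (decide (i = i₀)))
        (fun i : Fin m => (some (2 * h, i) : Option (ℕ × Fin m))) (fun i _ => decide (i = i₀))
        (fun _ _ => rfl) hinj (fun _ _ _ _ => rfl) _ τ i (List.mem_finRange i)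
    have c2 : ∀ (τ : Option (ℕ × Fin m) → Bool),
        exec (fun e : Fin n × Fin n => G e.1 e.2) clr τ (some (2 * h + 2, i₀)) =
          τ (some (2 * h + 2, i₀)) := by
      intro τ
      exact exec_out (fun e : Fin n × Fin n => G e.1 e.2)
        (fun i => Instr.const (some (2 * h, i)) (decide (i = i₀)))
        (fun i : Fin m => (some (2 * h, i) : Option (ℕ × Fin m))) (fun i _ => decide (i = i₀))
        (fun _ _ => rfl) _ τ _ (fun i _ => hne _ _ _ _ (by omega))
    have d1 : ∀ (τ : Option (ℕ × Fin m) → Bool) (i : Fin m),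
        exec (fun e : Fin n × Fin n => G e.1 e.2) cpy τ (some (2 * h, i)) =
          τ (some (2 * h + 1, i)) := by
      intro τ i
      have := exec_in (fun e : Fin n × Fin n => G e.1 e.2)
        (fun i => Instr.or (some (2 * h, i)) (some (2 * h + 1, i)) (some (2 * h + 1, i)))
        (fun i : Fin m => (some (2 * h, i) : Option (ℕ × Fin m)))
        (fun i τ => τ (some (2 * h + 1, i)) || τ (some (2 * h + 1, i)))
        (fun _ _ => rfl) hinj (fun i j τ b => by
          show (Function.update τ (some (2 * h, j)) b (some (2 * h + 1, i)) ||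
            Function.update τ (some (2 * h, j)) b (some (2 * h + 1, i))) = _
          rw [Function.update_of_ne (hne _ _ _ _ (by omega))]) _ τ i (List.mem_finRange i)
      rw [Bool.or_self] at this
      exact this
    have d2 : ∀ (τ : Option (ℕ × Fin m) → Bool),
        exec (fun e : Fin n × Fin n => G e.1 e.2) cpy τ (some (2 * h + 2, i₀)) =
          τ (some (2 * h + 2, i₀)) := by
      intro τ
      exact exec_out (fun e : Fin n × Fin n => G e.1 e.2)
        (fun i => Instr.or (some (2 * h, i)) (some (2 * h + 1, i)) (some (2 * h + 1, i)))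
        (fun i : Fin m => (some (2 * h, i) : Option (ℕ × Fin m)))
        (fun i τ => τ (some (2 * h + 1, i)) || τ (some (2 * h + 1, i)))
        (fun _ _ => rfl) _ τ _ (fun i _ => hne _ _ _ _ (by omega))
    have f1 : ∀ k, exec (fun e : Fin n × Fin n => G e.1 e.2) (rep (st ++ cpy) k)
        (exec (fun e : Fin n × Fin n => G e.1 e.2) clr σ) (some (2 * h + 2, i₀)) =
          σ (some (2 * h + 2, i₀)) := by
      intro k
      induction k with
      | zero => exact c2 σ
      | succ k ih =>
        rw [rep, exec_append, exec_append, d2, (hst3 G _).2 (2 * h + 2) i₀ (by omega) (by omega), ih]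
    have f2 := reach_iter (fun a b : Fin m => Rel C G h (X a) (X b))
      (fun a => Rel_refl C G h (X a))
      i₀ i₁ (fun k b => exec (fun e : Fin n × Fin n => G e.1 e.2) (rep (st ++ cpy) k)
        (exec (fun e : Fin n × Fin n => G e.1 e.2) clr σ) (some (2 * h, b)) = true)
      (fun i => by
        show exec (fun e : Fin n × Fin n => G e.1 e.2) clr σ (some (2 * h, i)) = true ↔ i = i₀
        rw [c1, decide_eq_true_iff])
      (fun k b => by
        show exec (fun e : Fin n × Fin n => G e.1 e.2) (rep (st ++ cpy) k ++ (st ++ cpy))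
          (exec (fun e : Fin n × Fin n => G e.1 e.2) clr σ) (some (2 * h, b)) = true ↔ _
        rw [exec_append, exec_append, d1]
        exact (hst3 G _).1 b)
    have hlast : ∀ τ : Option (ℕ × Fin m) → Bool,
        exec (fun e : Fin n × Fin n => G e.1 e.2) [Instr.or (some (2 * h + 2, i₀))
          (some (2 * h + 2, i₀)) (some (2 * h, i₁))] τ (some (2 * h + 2, i₀)) =
          (τ (some (2 * h + 2, i₀)) || τ (some (2 * h, i₁))) := by
      intro τ
      show Function.update τ (some (2 * h + 2, i₀)) (τ (some (2 * h + 2, i₀)) ||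
        τ (some (2 * h, i₁))) (some (2 * h + 2, i₀)) = _
      rw [Function.update_self]
    rw [exec_append, exec_append, hlast, Bool.or_eq_true, f1, f2]

theorem exists_blocks {n m J : ℕ} {Q : ℕ → ℕ}
    (C : Fin J → (j : ℕ) → Fin (Q j) → Fin m → Fin n)
    (h : ℕ) (R : Fin J → Fin m → Fin n) (i₀ i₁ : Fin m) (L : List (Fin J)) :
    ∃ p : List (Instr (Fin n × Fin n) (Option (ℕ × Fin m))),
      p.length ≤ L.length *
        (m + m * (5 * m ^ 2 * (∏ j ∈ Finset.range h, (4 * Q j + 1)) + m) + 1) ∧
      (∀ I ∈ p, I.Uses (UU m h)) ∧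
      ∀ (G : Fin n → Fin n → Bool) (σ : Option (ℕ × Fin m) → Bool),
        (exec (fun e : Fin n × Fin n => G e.1 e.2) p σ (some (2 * h + 2, i₀)) = true ↔
          (σ (some (2 * h + 2, i₀)) = true ∨
            ∃ x ∈ L, Relation.ReflTransGen
              (fun a b : Fin m => Rel (C x) G h (R x a) (R x b)) i₀ i₁)) := by
  induction L with
  | nil =>
    refine ⟨[], by simp, fun I hI => absurd hI List.not_mem_nil, fun G σ => ?_⟩
    show σ _ = true ↔ _
    constructor
    · exact fun h => Or.inl h
    · rintro (h | ⟨j, hj, _⟩)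
      · exact h
      · exact absurd hj List.not_mem_nil
  | cons j L ih =>
    obtain ⟨p, p1, p2, p3⟩ := ih
    obtain ⟨q, q1, q2, q3⟩ := exists_block (C j) h (R j) i₀ i₁
    refine ⟨q ++ p, ?_, ?_, fun G σ => ?_⟩
    · rw [List.length_append, List.length_cons, Nat.succ_mul]
      omega
    · intro I hI
      rcases List.mem_append.1 hI with hI | hI
      · exact q2 I hI
      · exact p2 I hI
    · rw [exec_append, p3, q3]
      constructor
      · rintro ((h1 | h1) | ⟨j', hj', h1⟩)
        · exact Or.inl h1
        · exact Or.inr ⟨j, List.mem_cons_self, h1⟩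
        · exact Or.inr ⟨j', List.mem_cons_of_mem _ hj', h1⟩
      · rintro (h1 | ⟨j', hj', h1⟩)
        · exact Or.inl (Or.inl h1)
        · rcases List.mem_cons.1 hj' with rfl | hj'
          · exact Or.inl (Or.inr h1)
          · exact Or.inr ⟨j', hj', h1⟩

end UIterAux

open UIterAux MTB.IterAux in
theorem exists_iter_mach {n m J : ℕ} {Q : ℕ → ℕ} (hn : 0 < n)
    (C : Fin J → (j : ℕ) → Fin (Q j) → Fin m → Fin n) (h : ℕ) (R : Fin J → Fin m → Fin n)
    (i₀ i₁ : Fin m) :
    ∃ (M : Mach n ((2 * h + 3) * m + 1)) (out : Fin ((2 * h + 3) * m + 1)) (T : ℕ), 1 ≤ T ∧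
      T ≤ (J + 1) * (m + 1) * (20 * m ^ 2 * (∏ j ∈ Finset.range h, (4 * Q j + 1)) + 20 * m) ∧
      M.Simple ∧
      ∀ G : Fin n → Fin n → Bool, (M.run G T out = true ↔
          ∃ x, Relation.ReflTransGen (fun a b : Fin m => Rel (C x) G h (R x a) (R x b)) i₀ i₁) := by
  obtain ⟨p, p1, p2, p3⟩ := exists_blocks C h R i₀ i₁ (List.finRange J)
  rw [List.length_finRange] at p1
  obtain ⟨M, hM1, hM2⟩ := exists_mach hn
    ((Instr.const (some (2 * h + 2, i₀)) false :: p).map (Instr.map (num m h)))
    (Nat.succ_pos ((2 * h + 3) * m))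
  refine ⟨M, num m h (some (2 * h + 2, i₀)),
    ((Instr.const (some (2 * h + 2, i₀)) false :: p).map (Instr.map (num m h))).length,
    ?_, ?_, hM1, fun G => ?_⟩
  · rw [List.length_map, List.length_cons]
    omega
  · rw [List.length_map, List.length_cons]
    have h1 := len_arith (m := m) (J := J) (Z := ∏ j ∈ Finset.range h, (4 * Q j + 1)) i₀.pos
    omega
  · have hU : ∀ I ∈ (Instr.const (some (2 * h + 2, i₀)) false :: p :
        List (Instr (Fin n × Fin n) (Option (ℕ × Fin m)))), I.Uses (UU m h) := by
      intro I hI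
      rcases List.mem_cons.1 hI with rfl | hI
      · exact mem_UU (by omega)
      · exact p2 I hI
    rw [hM2 G, exec_map (num m h) (UU m h) (num_inj m h) (fun e : Fin n × Fin n => G e.1 e.2) _ hU
      (fun _ => false) (some (2 * h + 2, i₀)) (mem_UU (by omega)), exec_cons, p3]
    constructor
    · rintro (h1 | ⟨j, _, h1⟩)
      · exfalso
        have h2 : Function.update (fun _ => false) (some (2 * h + 2, i₀)) false
          (some (2 * h + 2, i₀)) = true := h1
        rw [Function.update_self] at h2
        exact absurd h2 Bool.false_ne_true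
      · exact ⟨j, h1⟩
    · rintro ⟨j, h1⟩
      exact Or.inr ⟨j, List.mem_finRange j, h1⟩

end MTX
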