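import Pool.Agent.Lib.MTX.URel
import Pool.Agent.Lib.MTX.USeeds
import Pool.Agent.Lib.MTX.Spec

/-!
# MTX.UParA (MP_e46137_lc): the parameters of the upper bound
-/

namespace MTX

/-- the scale -/
def lgn (n : ℕ) : ℕ := 8 * (Nat.log 2 n + 1)

/-- the number of registers in a row is `mm n S + 2` -/
def mm (n S : ℕ) : ℕ := (S - 1) / (2 * lgn n + 3) - 2

/-- the number of batches of level `j` -/
def QQ (n S j : ℕ) : ℕ := 4 * lgn n ^ 2 * n / (2 ^ j * (mm n S + 2)) + 1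

/-- the number of levels -/
def JJ (n S d : ℕ) : ℕ :=
  min (Nat.clog 2 d + 1) (Nat.clog 2 (4 * lgn n * n / mm n S + 1))

theorem mm_pos {n S : ℕ} (h : 3 * (2 * lgn n + 3) + 1 ≤ S) : 1 ≤ mm n S := by
  have h1 : 3 ≤ (S - 1) / (2 * lgn n + 3) := by
    rw [Nat.le_div_iff_mul_le (by omega)]
    omega
  unfold mm
  omega

theorem JJ_le {n S d : ℕ} (hn : 1 ≤ n) (hd : d ≤ n) : JJ n S d ≤ lgn n := by
  have h1 : JJ n S d ≤ Nat.clog 2 d + 1 := min_le_left _ _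
  have h2 : Nat.clog 2 d ≤ Nat.clog 2 n := Nat.clog_mono_right 2 hd
  have h3 : Nat.clog 2 n ≤ Nat.log 2 n + 1 := by
    refine Nat.clog_le_of_le_pow ?_
    exact (Nat.lt_pow_succ_log_self (by norm_num) n).le
  unfold lgn
  omega

theorem regs_le {n S d : ℕ} (hn : 1 ≤ n) (hd : d ≤ n) (h : 3 * (2 * lgn n + 3) + 1 ≤ S) :
    (2 * JJ n S d + 3) * (mm n S + 2) + 1 ≤ S := by
  have h1 : 3 ≤ (S - 1) / (2 * lgn n + 3) := by
    rw [Nat.le_div_iff_mul_le (by omega)]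
    omega
  have h2 : mm n S + 2 = (S - 1) / (2 * lgn n + 3) := by
    unfold mm
    omega
  have h3 := JJ_le (S := S) hn hd
  have h4 : (2 * JJ n S d + 3) * (mm n S + 2) ≤ (2 * lgn n + 3) * (mm n S + 2) :=
    Nat.mul_le_mul_right _ (by omega)
  have h5 : (2 * lgn n + 3) * (mm n S + 2) ≤ S - 1 := by
    rw [h2]
    exact Nat.mul_div_le _ _
  omega

namespace UParAAux

theorem lgn_ge (n : ℕ) : 8 ≤ lgn n := by
  unfold lgn
  omega

theorem two_pow_bound {n S d : ℕ} (hn : 1 ≤ n) (hd : d ≤ n) :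
    2 * (JJ n S d + 1) * n ≤ 2 ^ (2 * lgn n) := by
  have h1 := JJ_le (S := S) hn hd
  have h2 : n ≤ 2 ^ (Nat.log 2 n + 1) := (Nat.lt_pow_succ_log_self (by norm_num) n).le
  have h3 : lgn n + 1 ≤ 2 ^ lgn n := Nat.lt_two_pow_self
  have h4 : 2 * (JJ n S d + 1) ≤ 2 ^ (lgn n + 1) := by
    rw [pow_succ]
    omega
  calc 2 * (JJ n S d + 1) * n ≤ 2 ^ (lgn n + 1) * 2 ^ (Nat.log 2 n + 1) := Nat.mul_le_mul h4 h2
    _ = 2 ^ (lgn n + 1 + (Nat.log 2 n + 1)) := by rw [← pow_add]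
    _ ≤ 2 ^ (2 * lgn n) := by
      refine Nat.pow_le_pow_right (by norm_num) ?_
      have : lgn n = 8 * (Nat.log 2 n + 1) := rfl
      omega

end UParAAux

/-- `pow_sub_le` with `b = 2 * lgn n`: `2 (J + 1) n ≤ 2 ^ b`, and
`(ell j / lg + 1) Q_j (m + 2) ≥ (ell j / lg) (4 lg ^ 2 n / 2 ^ j) ≥ 2 lg n` by `two_pow_le_ell`. -/
theorem hm_par {n S d j : ℕ} (hn : 1 ≤ n) (hd : d ≤ n) (hj : j < JJ n S d) :
    2 * (JJ n S d + 1) * n * (n - (ell (lgn n) j / lgn n + 1)) ^ (QQ n S j * (mm n S + 2)) ≤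
      n ^ (QQ n S j * (mm n S + 2)) := by
  have hJ := JJ_le (S := S) hn hd
  have hlg := UParAAux.lgn_ge n
  have hell : 2 ^ j ≤ 2 * ell (lgn n) j := two_pow_le_ell (by omega) (by omega)
  have hK := UParAAux.two_pow_bound (S := S) hn hd
  refine (Nat.mul_le_mul_right _ hK).trans (pow_sub_le hn ?_)
  have hQ : 4 * lgn n ^ 2 * n ≤ QQ n S j * (mm n S + 2) * 2 ^ j := by
    have h1 := Nat.lt_mul_div_succ (4 * lgn n ^ 2 * n)
      (show 0 < 2 ^ j * (mm n S + 2) from Nat.mul_pos (pow_pos (by norm_num) j) (by omega))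
    have h2 : 2 ^ j * (mm n S + 2) * (4 * lgn n ^ 2 * n / (2 ^ j * (mm n S + 2)) + 1) =
        QQ n S j * (mm n S + 2) * 2 ^ j := by
      unfold QQ
      ring
    rw [h2] at h1
    exact h1.le
  have hw : ell (lgn n) j ≤ lgn n * (ell (lgn n) j / lgn n + 1) :=
    (Nat.lt_mul_div_succ (ell (lgn n) j) (show 0 < lgn n by omega)).le
  obtain ⟨w, hw'⟩ : ∃ w, w = ell (lgn n) j / lgn n + 1 := ⟨_, rfl⟩
  obtain ⟨z, hz'⟩ : ∃ z, z = QQ n S j * (mm n S + 2) := ⟨_, rfl⟩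
  rw [← hw'] at hw
  rw [← hz'] at hQ
  rw [← hw', ← hz']
  have h3 : 2 ^ j ≤ 2 * (lgn n * w) := hell.trans (Nat.mul_le_mul_left 2 hw)
  have h4 : 2 ^ j * (4 * lgn n ^ 2 * n) ≤ 2 * (lgn n * w) * (z * 2 ^ j) := Nat.mul_le_mul h3 hQ
  have h5 : 2 ^ j * (4 * lgn n ^ 2 * n) = (2 * 2 ^ j * lgn n) * (2 * lgn n * n) := by ring
  have h6 : 2 * (lgn n * w) * (z * 2 ^ j) = (2 * 2 ^ j * lgn n) * (w * z) := by ring
  rw [h5, h6] at h4
  exact Nat.le_of_mul_le_mul_left h4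
    (Nat.mul_pos (Nat.mul_pos (by norm_num) (pow_pos (by norm_num) j)) (by omega))

/-- Either `J = clog d + 1` and `d ≤ 2 ^ (J - 1) ≤ ell J`, or `4 lg n / m < 2 ^ J ≤ 2 ell J`, so
`2 lg n ≤ ell J * m` and `pow_sub_le` with `b = 2 * lgn n`. -/
theorem hd_par {n S d : ℕ} (hn : 1 ≤ n) (hd : d ≤ n) (hm : 1 ≤ mm n S) :
    d ≤ ell (lgn n) (JJ n S d) ∨
      2 * (JJ n S d + 1) * n * (n - ell (lgn n) (JJ n S d)) ^ mm n S ≤ n ^ mm n S := by
  have hJ := JJ_le (S := S) hn hd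
  have hlg := UParAAux.lgn_ge n
  have hell : 2 ^ JJ n S d ≤ 2 * ell (lgn n) (JJ n S d) := two_pow_le_ell (by omega) hJ
  have hK := UParAAux.two_pow_bound (S := S) hn hd
  rcases min_choice (Nat.clog 2 d + 1) (Nat.clog 2 (4 * lgn n * n / mm n S + 1)) with h | h
  · left
    have h1 : JJ n S d = Nat.clog 2 d + 1 := h
    have h2 : d ≤ 2 ^ Nat.clog 2 d := Nat.le_pow_clog (by norm_num) d
    have h3 : 2 ^ JJ n S d = 2 * 2 ^ Nat.clog 2 d := by rw [h1, pow_succ, mul_comm]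
    omega
  · right
    have h1 : JJ n S d = Nat.clog 2 (4 * lgn n * n / mm n S + 1) := h
    refine (Nat.mul_le_mul_right _ hK).trans (pow_sub_le hn ?_)
    have h2 : 4 * lgn n * n / mm n S + 1 ≤ 2 ^ JJ n S d := by
      rw [h1]
      exact Nat.le_pow_clog (by norm_num) _
    have h3 := (Nat.lt_mul_div_succ (4 * lgn n * n) (show 0 < mm n S by omega)).le
    have h4 : mm n S * (4 * lgn n * n / mm n S + 1) ≤ mm n S * (2 * ell (lgn n) (JJ n S d)) :=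
      Nat.mul_le_mul_left _ (h2.trans hell)
    have h5 : mm n S * (2 * ell (lgn n) (JJ n S d)) = 2 * (ell (lgn n) (JJ n S d) * mm n S) := by
      ring
    have h6 : 4 * lgn n * n = 2 * (2 * lgn n * n) := by ring
    omega

end MTX
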