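import Pool.Agent.Lib.MTB.LandA
import Pool.Agent.Lib.MTB.LandB

/-!
# MTX.URel (MP_e46137_lc): reachability over random milestones

Level `j` milestones: `Q j` batches `C j c : Fin m → Fin n`.
-/

namespace MTX

open Classical

variable {n m : ℕ} {Q : ℕ → ℕ}

/-- reachability as found by the recursive program of level `j` -/
def Rel (C : (j : ℕ) → Fin (Q j) → Fin m → Fin n) (G : Fin n → Fin n → Bool) :
    ℕ → Fin n → Fin n → Prop
  | 0, u, v => MTB.wlk G 0 u v
  | j + 1, u, v => Rel C G j u v ∨ ∃ c i, Rel C G j u (C j c i) ∧ Rel C G j (C j c i) v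

/-- the lengths: `ell (j + 1) = 2 ell j - ell j / lg` -/
def ell (lg : ℕ) : ℕ → ℕ
  | 0 => 1
  | j + 1 => 2 * ell lg j - ell lg j / lg

theorem ell_le (lg j : ℕ) : ell lg j ≤ 2 ^ j := by
  induction j with
  | zero => exact le_refl 1
  | succ j ih =>
    have h1 : ell lg (j + 1) = 2 * ell lg j - ell lg j / lg := rfl
    rw [h1, pow_succ, mul_comm _ 2]
    exact (Nat.sub_le _ _).trans (Nat.mul_le_mul_left 2 ih)

theorem ell_pos {lg : ℕ} (j : ℕ) : 1 ≤ ell lg j := by
  induction j with
  | zero => exact le_refl 1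
  | succ j ih =>
    have h1 : ell lg (j + 1) = 2 * ell lg j - ell lg j / lg := rfl
    have h2 := Nat.div_le_self (ell lg j) lg
    rw [h1]
    omega

namespace URelAux

theorem claim (lg j : ℕ) : 2 * lg * 2 ^ j ≤ 2 * lg * ell lg j + j * 2 ^ j := by
  induction j with
  | zero =>
    have h1 : ell lg 0 = 1 := rfl
    rw [h1]
    omega
  | succ j ih =>
    have h1 : ell lg (j + 1) = 2 * ell lg j - ell lg j / lg := rfl
    have h2 := Nat.div_le_self (ell lg j) lg
    have h3 : lg * (ell lg j / lg) ≤ ell lg j := Nat.mul_div_le _ _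
    have h4 := ell_le lg j
    obtain ⟨d, hd⟩ : ∃ d, d = ell lg j / lg := ⟨_, rfl⟩
    rw [← hd] at h1 h2 h3
    obtain ⟨e, he⟩ : ∃ e, e = ell lg (j + 1) := ⟨_, rfl⟩
    rw [← he] at h1
    rw [← he]
    have h5 : e + d = 2 * ell lg j := by omega
    have h6 : lg * e + lg * d = 2 * (lg * ell lg j) := by
      rw [← mul_add, h5]
      ring
    have h7 : (2 : ℕ) ^ (j + 1) = 2 * 2 ^ j := by ring
    rw [h7]
    nlinarith

end URelAux

/-- Claim `(2 lg - j) 2 ^ j ≤ 2 lg ell j` by induction. -/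
theorem two_pow_le_ell {lg j : ℕ} (hlg : 1 ≤ lg) (hj : j ≤ lg) : 2 ^ j ≤ 2 * ell lg j := by
  have h1 := URelAux.claim lg j
  have h2 : j * 2 ^ j ≤ lg * 2 ^ j := Nat.mul_le_mul_right _ hj
  have h3 : lg * 2 ^ j ≤ lg * (2 * ell lg j) := by nlinarith
  exact Nat.le_of_mul_le_mul_left h3 (by omega)

theorem Rel_refl (C : (j : ℕ) → Fin (Q j) → Fin m → Fin n) (G : Fin n → Fin n → Bool) (j : ℕ)
    (u : Fin n) : Rel C G j u u := by
  induction j with
  | zero => exact ⟨0, Nat.zero_le _, rfl⟩
  | succ j ih => exact Or.inl ih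

theorem Rel_sound (C : (j : ℕ) → Fin (Q j) → Fin m → Fin n) (G : Fin n → Fin n → Bool) (j : ℕ)
    (u v : Fin n) (h : Rel C G j u v) : MTB.Reach G u v := by
  induction j generalizing u v with
  | zero =>
    obtain ⟨l, _, hl⟩ := h
    exact MTB.LandB.reach_of_walk G l _ _ hl
  | succ j ih =>
    rcases h with h | ⟨c, i, h1, h2⟩
    · exact ih u v h
    · exact Relation.ReflTransGen.trans (ih _ _ h1) (ih _ _ h2)

/-- Induction on `j`: if `b > a + ell j` the window of `ell j / lg + 1` positions starting at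
`b - ell j` contains a milestone `p z`, `z - a ≤ ell j` and `b - z ≤ ell j`. -/
theorem Rel_complete {lg J l : ℕ} (hlg : 1 ≤ lg) (C : (j : ℕ) → Fin (Q j) → Fin m → Fin n)
    (G : Fin n → Fin n → Bool) (p : ℕ → Fin n) (hp : ∀ a < l, G (p a) (p (a + 1)) = true)
    (hC : ∀ j < J, ∀ a, a + (ell lg j / lg + 1) ≤ l + 1 →
      ∃ c i b, a ≤ b ∧ b < a + (ell lg j / lg + 1) ∧ C j c i = p b) :
    ∀ j ≤ J, ∀ a b, a ≤ b → b ≤ l → b ≤ a + ell lg j → Rel C G j (p a) (p b) := by
  intro j
  induction j with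
  | zero =>
    intro _ a b hab hbl hb
    have h1 : ell lg 0 = 1 := rfl
    rw [h1] at hb
    refine ⟨b - a, by rw [pow_zero]; omega, ?_⟩
    have h3 := MTB.LandB.walk_seg G p hp a (b - a) (by omega)
    have h4 : a + (b - a) = b := by omega
    rw [h4] at h3
    exact h3
  | succ j ih =>
    intro hj a b hab hbl hb
    by_cases h : b ≤ a + ell lg j
    · exact Or.inl (ih (by omega) a b hab hbl h)
    · have h1 : ell lg (j + 1) = 2 * ell lg j - ell lg j / lg := rfl
      have h2 := Nat.div_le_self (ell lg j) lg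
      rw [h1] at hb
      obtain ⟨c, i, z, hz1, hz2, hz⟩ := hC j (by omega) (b - ell lg j) (by omega)
      refine Or.inr ⟨c, i, ?_, ?_⟩
      · rw [hz]
        exact ih (by omega) a z (by omega) (by omega) (by omega)
      · rw [hz]
        exact ih (by omega) z b (by omega) hbl (by omega)

/-- Landmarks which meet all windows of `ell J` vertices of the path, and contain its ends, carry
`p 0` to `p l` by hops of `Rel C G J` (compare `MTB.LandB.hops`). -/
theorem Rel_hops {lg J l k : ℕ} (hlg : 1 ≤ lg) (C : (j : ℕ) → Fin (Q j) → Fin m → Fin n)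
    (G : Fin n → Fin n → Bool) (p : ℕ → Fin n) (hp : ∀ a < l, G (p a) (p (a + 1)) = true)
    (hC : ∀ j < J, ∀ a, a + (ell lg j / lg + 1) ≤ l + 1 →
      ∃ c i b, a ≤ b ∧ b < a + (ell lg j / lg + 1) ∧ C j c i = p b)
    (R : Fin k → Fin n) (i₀ i₁ : Fin k) (h0 : R i₀ = p 0) (h1 : R i₁ = p l)
    (hR : MTB.Meets (ell lg J) l p R) :
    Relation.ReflTransGen (fun a b : Fin k => Rel C G J (R a) (R b)) i₀ i₁ := by
  have hcomp := Rel_complete hlg C G p hp hC J le_rfl
  have key : ∀ k' b i, l = b + k' → R i = p b →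
      Relation.ReflTransGen (fun a b : Fin k => Rel C G J (R a) (R b)) i i₁ := by
    intro k'
    induction k' using Nat.strong_induction_on with
    | _ k' ih =>
      intro b i hk hi
      by_cases hk2 : k' ≤ ell lg J
      · refine Relation.ReflTransGen.single ?_
        rw [hi, h1]
        exact hcomp b l (by omega) le_rfl (by omega)
      · obtain ⟨i', b', hb1, hb2, hi'⟩ := hR (b + 1) (by omega)
        refine Relation.ReflTransGen.head ?_ (ih (l - b') (by omega) b' i' (by omega) hi')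
        rw [hi, hi']
        exact hcomp b b' (by omega) (by omega) (by omega)
  exact key l 0 i₀ (by omega) h0

theorem Rel_hops_sound {J k : ℕ} (C : (j : ℕ) → Fin (Q j) → Fin m → Fin n)
    (G : Fin n → Fin n → Bool) (R : Fin k → Fin n) (i₀ i₁ : Fin k)
    (H : Relation.ReflTransGen (fun a b : Fin k => Rel C G J (R a) (R b)) i₀ i₁) :
    MTB.Reach G (R i₀) (R i₁) := by
  induction H with
  | refl => exact Relation.ReflTransGen.refl
  | tail _ hbc ih => exact Relation.ReflTransGen.trans ih (Rel_sound C G J _ _ hbc)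

end MTX
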