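import Pool.Agent.Lib.MTX.URel

/-!
# MTX.UStep (MP_e46137_lc): the recursive program over the milestones (compare MTB.Step)

Registers: `none` is a temporary register, `some (row, i)` the `i`-th register of a row of `m`
registers.  Level `h + 1` from `X` (row `src`) to `Y` (row `dst`): level `h` from `X`, `src`, to `Y`,
`dst`; for every batch `C h c`: level `h` from `X`, row `src`, to `C h c`, row `2 h`; level `h` from
`C h c`, row `2 h`, to `Y`, row `2 h + 1`; `dst := dst ∨ row (2 h + 1)`.
-/

namespace MTX

open Classical MTB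

theorem exists_step {n m : ℕ} {Q : ℕ → ℕ} (C : (j : ℕ) → Fin (Q j) → Fin m → Fin n) (h : ℕ) :
    ∀ (X Y : Fin m → Fin n) (src dst : ℕ), src ≠ dst → 2 * h ≤ src → 2 * h ≤ dst →
    ∃ p : List (Instr (Fin n × Fin n) (Option (ℕ × Fin m))),
      p.length ≤ 5 * m ^ 2 * ∏ j ∈ Finset.range h, (4 * Q j + 1) ∧
      (∀ I ∈ p, I.Uses (regs m h src dst)) ∧
      ∀ (G : Fin n → Fin n → Bool) (σ : Option (ℕ × Fin m) → Bool),
        (∀ j, exec (fun e : Fin n × Fin n => G e.1 e.2) p σ (some (dst, j)) = true ↔
          ∃ i, σ (some (src, i)) = true ∧ Rel C G h (X i) (Y j)) ∧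
        ∀ row i, 2 * h ≤ row → row ≠ dst →
          exec (fun e : Fin n × Fin n => G e.1 e.2) p σ (some (row, i)) = σ (some (row, i)) := by
  induction h with
  | zero =>
    intro X Y src dst hsd _ _
    obtain ⟨p, h1, h2, h3⟩ := exists_step_zero X Y src dst hsd
    refine ⟨p, by simpa using h1, h2, fun G σ => ⟨(h3 G σ).1, fun row i _ hr => (h3 G σ).2 row i hr⟩⟩
  | succ h ih =>
    intro X Y src dst hsd hs hd
    obtain ⟨p0, z1, z2, z3⟩ := ih X Y src dst hsd (by omega) (by omega)
    have e1 := fun c => ih X (C h c) src (2 * h) (by omega) (by omega) (le_refl _)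
    have e2 := fun c => ih (C h c) Y (2 * h) (2 * h + 1) (by omega) (le_refl _) (by omega)
    choose p1 a1 a2 a3 using e1
    choose p2 b1 b2 b3 using e2
    refine ⟨p0 ++ (List.finRange (Q h)).flatMap
      (fun c => p1 c ++ (p2 c ++ StepAux.orr _ m dst (2 * h + 1))), ?_, ?_, ?_⟩
    · have h3 : (StepAux.orr (Fin n × Fin n) m dst (2 * h + 1)).length = m := by
        unfold StepAux.orr
        rw [List.length_map, List.length_finRange]
      obtain ⟨L, hL⟩ : ∃ L : ℕ, L = 5 * m ^ 2 * ∏ j ∈ Finset.range h, (4 * Q j + 1) := ⟨_, rfl⟩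
      have h1 := StepAux.length_flatMap_le (List.finRange (Q h))
        (fun c => p1 c ++ (p2 c ++ StepAux.orr _ m dst (2 * h + 1))) (2 * L + m) (by
          intro c _
          rw [List.length_append, List.length_append, h3]
          have := a1 c
          have := b1 c
          rw [← hL] at *
          omega)
      rw [List.length_finRange] at h1
      rw [List.length_append]
      rw [← hL] at z1
      have h4 : 5 * m ^ 2 * ∏ j ∈ Finset.range (h + 1), (4 * Q j + 1) = L * (4 * Q h + 1) := by
        rw [Finset.prod_range_succ, hL]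
        ring
      rw [h4]
      rcases Nat.eq_zero_or_pos m with hm | hm
      · have hL0 : L = 0 := by
          rw [hL, hm]
          simp
        have h5 : Q h * (2 * L + m) = 0 := by
          rw [hL0, hm]
          simp
        rw [h5] at h1
        rw [hL0] at z1 ⊢
        omega
      · have hL1 : m ≤ L := by
          rw [hL]
          have h5 : 1 ≤ ∏ j ∈ Finset.range h, (4 * Q j + 1) :=
            Nat.one_le_iff_ne_zero.2 (Finset.prod_ne_zero_iff.2 fun j _ => by omega)
          calc m ≤ 5 * m ^ 2 := by nlinarith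
            _ = 5 * m ^ 2 * 1 := (mul_one _).symm
            _ ≤ _ := Nat.mul_le_mul_left _ h5
        have h6 : Q h * m ≤ Q h * L := Nat.mul_le_mul_left _ hL1
        have h8 : Q h * (2 * L + m) = 2 * (Q h * L) + Q h * m := by ring
        have h9 : L * (4 * Q h + 1) = 4 * (Q h * L) + L := by ring
        rw [h8] at h1
        rw [h9]
        omega
    · intro I hI
      rcases List.mem_append.1 hI with h0 | h0
      · refine StepAux.Uses_mono ?_ (z2 I h0)
        rintro ρ (h1 | ⟨row, i, h1, h3⟩)
        · exact Or.inl h1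
        · refine Or.inr ⟨row, i, h1, ?_⟩
          rcases h3 with h3 | h3 | h3
          · exact Or.inl (by omega)
          · exact Or.inr (Or.inl h3)
          · exact Or.inr (Or.inr h3)
      · obtain ⟨c, _, hc⟩ := List.mem_flatMap.1 h0
        rcases List.mem_append.1 hc with hc | hc
        · refine StepAux.Uses_mono ?_ (a2 c I hc)
          rintro ρ (h1 | ⟨row, i, h1, h3⟩)
          · exact Or.inl h1
          · refine Or.inr ⟨row, i, h1, ?_⟩
            rcases h3 with h3 | h3 | h3
            · exact Or.inl (by omega)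
            · exact Or.inr (Or.inl h3)
            · exact Or.inl (by omega)
        · rcases List.mem_append.1 hc with hc | hc
          · refine StepAux.Uses_mono ?_ (b2 c I hc)
            rintro ρ (h1 | ⟨row, i, h1, h3⟩)
            · exact Or.inl h1
            · refine Or.inr ⟨row, i, h1, ?_⟩
              rcases h3 with h3 | h3 | h3
              · exact Or.inl (by omega)
              · exact Or.inl (by omega)
              · exact Or.inl (by omega)
          · unfold StepAux.orr at hc
            obtain ⟨j, _, rfl⟩ := List.mem_map.1 hc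
            have d1 : (some (dst, j) : Option (ℕ × Fin m)) ∈ regs m (h + 1) src dst :=
              Or.inr ⟨dst, j, rfl, Or.inr (Or.inr rfl)⟩
            exact ⟨d1, d1, Or.inr ⟨2 * h + 1, j, rfl, Or.inl (by omega)⟩⟩
    · intro G σ
      rw [StepAux.exec_append]
      obtain ⟨h1, h2⟩ := z3 G σ
      have hbody : ∀ c, ∀ σ : Option (ℕ × Fin m) → Bool,
          (∀ j, exec (fun e : Fin n × Fin n => G e.1 e.2)
            (p1 c ++ (p2 c ++ StepAux.orr _ m dst (2 * h + 1))) σ (some (dst, j)) = true ↔
            σ (some (dst, j)) = true ∨ ∃ i, σ (some (src, i)) = true ∧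
              ∃ k, Rel C G h (X i) (C h c k) ∧ Rel C G h (C h c k) (Y j)) ∧
          ∀ row i, 2 * (h + 1) ≤ row → row ≠ dst → exec (fun e : Fin n × Fin n => G e.1 e.2)
            (p1 c ++ (p2 c ++ StepAux.orr _ m dst (2 * h + 1))) σ (some (row, i)) =
              σ (some (row, i)) := by
        intro c σ
        rw [StepAux.exec_append, StepAux.exec_append]
        obtain ⟨c1, c2⟩ := a3 c G σ
        obtain ⟨d1, d2⟩ := b3 c G (exec (fun e : Fin n × Fin n => G e.1 e.2) (p1 c) σ)
        obtain ⟨f1, f2⟩ := StepAux.exec_orr (dst := dst) (s := 2 * h + 1) (by omega)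
          (fun e : Fin n × Fin n => G e.1 e.2)
          (exec (fun e : Fin n × Fin n => G e.1 e.2) (p2 c)
            (exec (fun e : Fin n × Fin n => G e.1 e.2) (p1 c) σ))
        constructor
        · intro j
          rw [f1 j, Bool.or_eq_true, d1 j, d2 dst j (by omega) (by omega),
            c2 dst j (by omega) (by omega)]
          constructor
          · rintro (h5 | ⟨k, h5, h6⟩)
            · exact Or.inl h5
            · obtain ⟨i, h7, h8⟩ := (c1 k).1 h5
              exact Or.inr ⟨i, h7, k, h8, h6⟩
          · rintro (h5 | ⟨i, h5, k, h6, h7⟩)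
            · exact Or.inl h5
            · exact Or.inr ⟨k, (c1 k).2 ⟨i, h5, h6⟩, h7⟩
        · intro row i hr1 hr2
          rw [f2 row i hr2, d2 row i (by omega) (by omega), c2 row i (by omega) (by omega)]
      obtain ⟨h3, h4⟩ := StepAux.loop (b := 2 * (h + 1)) hsd hs
        (fun e : Fin n × Fin n => G e.1 e.2)
        (fun c => p1 c ++ (p2 c ++ StepAux.orr _ m dst (2 * h + 1)))
        (fun c i j => ∃ k, Rel C G h (X i) (C h c k) ∧ Rel C G h (C h c k) (Y j))
        hbody (List.finRange (Q h))
        (exec (fun e : Fin n × Fin n => G e.1 e.2) p0 σ)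
      have hsrc : ∀ i, exec (fun e : Fin n × Fin n => G e.1 e.2) p0 σ (some (src, i)) =
          σ (some (src, i)) := fun i => h2 src i (by omega) hsd
      constructor
      · intro j
        rw [h3 j, h1 j]
        constructor
        · rintro (⟨i, h5, h6⟩ | ⟨i, h5, c, _, k, h6, h7⟩)
          · exact ⟨i, h5, Or.inl h6⟩
          · rw [hsrc i] at h5
            exact ⟨i, h5, Or.inr ⟨c, k, h6, h7⟩⟩
        · rintro ⟨i, h5, h6 | ⟨c, k, h6, h7⟩⟩
          · exact Or.inl ⟨i, h5, h6⟩
          · refine Or.inr ⟨i, ?_, c, List.mem_finRange c, k, h6, h7⟩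
            rw [hsrc i]
            exact h5
      · intro row i hr1 hr2
        rw [h4 row i hr1 hr2, h2 row i (by omega) hr2]

end MTX
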